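import Pool.Agent.Helper69.TwoLen.A8

/-!
# Block TL-A10: completeness, jobs of length `p`

Given `G.Sol z`. Definition of `H b` (`b < B`):
* `ty b = 1`: let `S = min b (J b)`; `H b = (b, 2)` if `z S = 1` and `(J b, 2)` if `z S = 0`. Check of
  the windows (`S < T = J S`, job `(S, 2)`: `[2S, 2T+1]`, job `(T, 2)`: `[2S+1, 2T]`): `z S = 1`, so
  `z T = 1` (`jarc`): gaps `2S`, `2T`; `z S = 0`: `S` uses the gap `2S+1` with the job `(T, 2)`, and
  `T` uses the gap `2T+1-z T` with the job `(S, 2)`.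
* `ty b = 0`: gap `2b` (`z b = 1`): `(b, 2)`; gap `2b+1`: `(b, 3)`.
* `ty b = 2 + s` (`s = 0, 1`) and `z b = s`: the gap is `2b + 1 - s`: `H b = (b, 2)`.
* `ty b = 2 + s` and `z b ≠ s`: the gap is `2b + s`. If there is a `c > b` with `z c + 2 = ty c` and
  `nx t = 1` for `b ≤ t < c`: `H b = (b, 3)` (window `[2b+s, ...]`). Otherwise, by `clu`, there is such
  a `c < b` on the left, so `nx (b - 1) = 1`: `H b = (b - 1, 3)`, with window `[..., 2b + s]`.
Injectivity: `(c, 2)` comes from `b = c` or, if `ty c = 1`, from `b = J c` (not both: it depends only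
on `z S`); `(c, 3)` with `ty c = 0` comes from `b = c` only; `(c, 3)` with `nx c = 1` could come from
`b = c` (with some `c' > c` on the right) and from `b = c + 1` (without any on the right): as
`z (c+1) + 2 ≠ ty (c+1)`, `c' > c + 1`, so `c'` is also to the right of `c + 1`, contradiction.
-/

set_option autoImplicit false

namespace Pool.Agent.Helper69.TwoLen.Prog

open Finset

variable {G : Prog} {p : ℕ} {z : ℕ → ℕ}

private theorem val_two50 (b : ℕ) : G.val p b 2 := Or.inl rfl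

theorem exists_isH (hG : G.Good p) (h : G.Sol z) : ∃ H, G.IsH p z H := by
  classical
  obtain ⟨R, hR⟩ : ∃ R : ℕ → Prop, ∀ b, R b ↔ ∃ c < G.B, b < c ∧ z c + 2 = G.ty c ∧
      ∀ t, b ≤ t → t < c → G.nx t = 1 := ⟨_, fun _ => Iff.rfl⟩
  have hsp : ∀ b, ∃ x : ℕ × ℕ, b < G.B →
      (G.ty b = 1 ∧ z (min b (G.J b)) = 1 ∧ x = (b, 2)) ∨
      (G.ty b = 1 ∧ z (min b (G.J b)) = 0 ∧ x = (G.J b, 2)) ∨
      (G.ty b = 0 ∧ z b = 1 ∧ x = (b, 2)) ∨
      (G.ty b = 0 ∧ z b = 0 ∧ x = (b, 3)) ∨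
      (2 ≤ G.ty b ∧ z b + 2 = G.ty b ∧ x = (b, 2)) ∨
      (2 ≤ G.ty b ∧ z b + 2 ≠ G.ty b ∧ R b ∧ x = (b, 3)) ∨
      (2 ≤ G.ty b ∧ z b + 2 ≠ G.ty b ∧ ¬ R b ∧ 0 < b ∧ G.nx (b - 1) = 1 ∧ x = (b - 1, 3)) := by
    intro b
    by_cases hb : b < G.B
    · have hz := h.le_one b
      have hz2 := h.le_one (min b (G.J b))
      rcases (show G.ty b = 1 ∨ G.ty b = 0 ∨ 2 ≤ G.ty b by omega) with h1 | h1 | h1
      · rcases (show z (min b (G.J b)) = 1 ∨ z (min b (G.J b)) = 0 by omega) with h2 | h2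
        · exact ⟨(b, 2), fun _ => Or.inl ⟨h1, h2, rfl⟩⟩
        · exact ⟨(G.J b, 2), fun _ => Or.inr (Or.inl ⟨h1, h2, rfl⟩)⟩
      · rcases (show z b = 1 ∨ z b = 0 by omega) with h2 | h2
        · exact ⟨(b, 2), fun _ => Or.inr (Or.inr (Or.inl ⟨h1, h2, rfl⟩))⟩
        · exact ⟨(b, 3), fun _ => Or.inr (Or.inr (Or.inr (Or.inl ⟨h1, h2, rfl⟩)))⟩
      · by_cases h2 : z b + 2 = G.ty b
        · exact ⟨(b, 2), fun _ => Or.inr (Or.inr (Or.inr (Or.inr (Or.inl ⟨h1, h2, rfl⟩))))⟩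
        · by_cases h3 : R b
          · exact ⟨(b, 3), fun _ => Or.inr (Or.inr (Or.inr (Or.inr (Or.inr (Or.inl ⟨h1, h2, h3, rfl⟩)))))⟩
          · obtain ⟨c, hc, hc2, hc3⟩ := h.clu b hb h1
            have hcb : c ≠ b := fun e => h2 (by rw [← e]; exact hc2)
            rcases hc3 with ⟨h4, h5⟩ | ⟨h4, h5⟩
            · exact absurd ((hR b).2 ⟨c, hc, by omega, hc2, h5⟩) h3
            · exact ⟨(b - 1, 3), fun _ => Or.inr (Or.inr (Or.inr (Or.inr (Or.inr (Or.inr
                ⟨h1, h2, h3, by omega, h5 (b - 1) (by omega) (by omega), rfl⟩)))))⟩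
    · exact ⟨(0, 0), fun h0 => absurd h0 hb⟩
  choose H hH using hsp
  refine ⟨H, ?_, ?_⟩
  · intro b hb b' hb' he
    rw [Set.mem_Iio] at hb hb'
    have lnk : ∀ c, c < G.B → G.nx (c - 1) = 1 → 0 < c → 2 ≤ G.ty (c - 1) := fun c hc hn h0 =>
      (hG.link (c - 1) (by omega) hn).2.1
    rcases hH b hb with ⟨h1, h2, h3⟩ | ⟨h1, h2, h3⟩ | ⟨h1, h2, h3⟩ | ⟨h1, h2, h3⟩ | ⟨h1, h2, h3⟩ |
        ⟨h1, h2, h4, h3⟩ | ⟨h1, h2, h4, h5, h6, h3⟩ <;>
      rcases hH b' hb' with ⟨g1, g2, g3⟩ | ⟨g1, g2, g3⟩ | ⟨g1, g2, g3⟩ | ⟨g1, g2, g3⟩ | ⟨g1, g2, g3⟩ |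
        ⟨g1, g2, g4, g3⟩ | ⟨g1, g2, g4, g5, g6, g3⟩ <;>
      rw [h3, g3, Prod.mk.injEq] at he <;> obtain ⟨e1, e2⟩ := he <;> first
        | exact e1
        | (exfalso; omega)
        | skip
    · -- (1), (2)
      exfalso
      rw [e1, hG.J_inv b' hb' g1, min_comm, g2] at h2
      omega
    · -- (2), (1)
      exfalso
      rw [← e1, hG.J_inv b hb h1, min_comm, h2] at g2
      omega
    · -- (2), (2)
      rw [← hG.J_inv b hb h1, e1, hG.J_inv b' hb' g1]
    · exfalso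
      have := hG.J_ty b hb h1
      rw [e1] at this
      omega
    · exfalso
      have := hG.J_ty b hb h1
      rw [e1] at this
      omega
    · exfalso
      have := hG.J_ty b' hb' g1
      rw [← e1] at this
      omega
    · exfalso
      have := lnk b' hb' g6 g5
      rw [← e1] at this
      omega
    · exfalso
      have := hG.J_ty b' hb' g1
      rw [← e1] at this
      omega
    · -- (6), (7)
      exfalso
      obtain ⟨c, hc, hc1, hc2, hc3⟩ := (hR b).1 h4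
      have hcb : c ≠ b' := fun e => g2 (by rw [← e]; exact hc2)
      exact g4 ((hR b').2 ⟨c, hc, by omega, hc2, fun t ht1 ht2 => hc3 t (by omega) ht2⟩)
    · exfalso
      have := lnk b hb h6 h5
      rw [e1] at this
      omega
    · -- (7), (6)
      exfalso
      obtain ⟨c, hc, hc1, hc2, hc3⟩ := (hR b').1 g4
      have hcb : c ≠ b := fun e => h2 (by rw [← e]; exact hc2)
      exact h4 ((hR b).2 ⟨c, hc, by omega, hc2, fun t ht1 ht2 => hc3 t (by omega) ht2⟩)
    · omega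
  · intro b hb
    have hz := h.le_one b
    rcases hH b hb with ⟨h1, h2, h3⟩ | ⟨h1, h2, h3⟩ | ⟨h1, h2, h3⟩ | ⟨h1, h2, h3⟩ | ⟨h1, h2, h3⟩ |
        ⟨h1, h2, h4, h3⟩ | ⟨h1, h2, h4, h5, h6, h3⟩
    · rw [h3]
      refine ⟨hb, Or.inl rfl, val_two50 b, ?_⟩
      have j1 := hG.J_ne b hb h1
      rcases lt_or_gt_of_ne j1 with j2 | j2
      · -- `J b < b`
        have j3 := h.jarc (G.J b) (hG.J_lt b hb h1) (hG.J_ty b hb h1) (by rw [hG.J_inv b hb h1]; exact j2)
        rw [hG.J_inv b hb h1] at j3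
        rw [min_eq_right j2.le] at h2
        simp only [lo, hi, h1, if_true, if_neg (not_lt.2 j2.le)]
        omega
      · rw [min_eq_left j2.le] at h2
        simp only [lo, hi, h1, if_true, if_pos j2]
        omega
    · rw [h3]
      refine ⟨hG.J_lt b hb h1, Or.inl rfl, val_two50 _, ?_⟩
      have j1 := hG.J_ne b hb h1
      have j4 := hG.J_ty b hb h1
      have j5 := hG.J_inv b hb h1
      rcases lt_or_gt_of_ne j1 with j2 | j2
      · simp only [lo, hi, j4, j5, if_true, if_pos j2]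
        omega
      · rw [min_eq_left j2.le] at h2
        simp only [lo, hi, j4, j5, if_true, if_neg (not_lt.2 j2.le)]
        omega
    · rw [h3]
      refine ⟨hb, Or.inl rfl, val_two50 b, ?_⟩
      simp only [lo, hi, h1, if_true]
      norm_num
      omega
    · rw [h3]
      refine ⟨hb, Or.inr rfl, Or.inr (Or.inl ⟨rfl, Or.inl h1⟩), ?_⟩
      simp only [lo, hi, h1]
      norm_num
      omega
    · rw [h3]
      refine ⟨hb, Or.inl rfl, val_two50 b, ?_⟩
      have h7 : G.ty b ≠ 1 := by omega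
      simp only [lo, hi, if_true, if_neg h7]
      by_cases h8 : G.ty b = 2
      · rw [if_pos h8]
        omega
      · rw [if_neg h8]
        have := hG.ty_le b hb
        omega
    · rw [h3]
      obtain ⟨c, hc, hc1, hc2, hc3⟩ := (hR b).1 h4
      have hn := hc3 b le_rfl hc1
      refine ⟨hb, Or.inr rfl, Or.inr (Or.inl ⟨rfl, Or.inr hn⟩), ?_⟩
      have h7 : G.ty b ≠ 0 := by omega
      have h8 := hG.ty_le b hb
      simp only [lo, hi, if_neg h7]
      norm_num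
      omega
    · rw [h3]
      refine ⟨by omega, Or.inr rfl, Or.inr (Or.inl ⟨rfl, Or.inr h6⟩), ?_⟩
      obtain ⟨k1, k2, k3⟩ := hG.link (b - 1) (by omega) h6
      have h7 : G.ty (b - 1) ≠ 0 := by omega
      have h8 := hG.ty_le b hb
      have h9 := hG.ty_le (b - 1) (by omega)
      have h10 : b - 1 + 1 = b := by omega
      simp only [lo, hi, if_neg h7, h10]
      norm_num
      omega

end Pool.Agent.Helper69.TwoLen.Prog
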