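import Pool.Agent.Helper69.TwoLen.A2

/-!
# Block TL-A11: completeness, unit jobs

Given `G.Sol z`. Definition of `β`: private job `(b, i)`, `i ≥ 8`: `β = b`. Job `e` (`i = 4, 5`) of the
arc `b < u = u (i-4) b`, window `[2b+1, 2u]`: `β = b` if `z u = 1` (then `z b = 1` by `arc`, gap
`2b + 1`), `β = u` if `z u = 0` (gap `2u`). Job `f` (`i = 6, 7`), window `[2b, 2u+1]`: `β = u` if
`z u = 1` (gap `2u+1`), `β = b` if `z u = 0` (gap `2b + z b`).
For every `c`: private jobs of `c`: `p - deg c`; of every arc exactly one of the two jobs goes to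
each of its two ends, so `deg c` further jobs (count the arcs with left end `c` and those with
right end `c`: definition of `deg`). Total `p`.
-/

set_option autoImplicit false

namespace Pool.Agent.Helper69.TwoLen.Prog

open Finset

variable {G : Prog} {p : ℕ} {z : ℕ → ℕ}

/-- The block in which the unit job is done. -/
private def be96 (G : Prog) (z : ℕ → ℕ) (x : ℕ × ℕ) : ℕ :=
  if 8 ≤ x.2 then x.1
  else if x.2 < 6 then (if z (G.u (x.2 - 4) x.1) = 1 then x.1 else G.u (x.2 - 4) x.1)
  else (if z (G.u (x.2 - 6) x.1) = 1 then G.u (x.2 - 6) x.1 else x.1)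

private theorem be_4_96 (t b : ℕ) (ht : t < 2) :
    be96 G z (b, 4 + t) = if z (G.u t b) = 1 then b else G.u t b := by
  unfold be96
  have e : 4 + t - 4 = t := by omega
  rw [if_neg (show ¬ 8 ≤ ((b, 4 + t) : ℕ × ℕ).2 by simp; omega), if_pos (show ((b, 4 + t) : ℕ × ℕ).2 < 6 by simp; omega)]
  simp only [e]

private theorem be_6_96 (t b : ℕ) (ht : t < 2) :
    be96 G z (b, 6 + t) = if z (G.u t b) = 1 then G.u t b else b := by
  unfold be96
  have e : 6 + t - 6 = t := by omega
  rw [if_neg (show ¬ 8 ≤ ((b, 6 + t) : ℕ × ℕ).2 by simp; omega), if_neg (show ¬ ((b, 6 + t) : ℕ × ℕ).2 < 6 by simp)]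
  simp only [e]

private theorem be_8_96 (i b : ℕ) (hi : 8 ≤ i) : be96 G z (b, i) = b := by
  unfold be96
  rw [if_pos hi]

private theorem lo_4_96 (t b : ℕ) (ht : t < 2) : G.lo b (4 + t) = 2 * b + 1 := by
  unfold lo
  rw [if_neg (by omega), if_neg (by omega), if_pos (by omega)]

private theorem lo_6_96 (t b : ℕ) (ht : 6 ≤ t) : G.lo b t = 2 * b := by
  unfold lo
  rw [if_neg (by omega), if_neg (by omega), if_neg (by omega)]

private theorem hi_4_96 (t b : ℕ) (ht : t < 2) : G.hi b (4 + t) = 2 * G.u t b := by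
  unfold hi
  have e : 4 + t - 4 = t := by omega
  rw [if_neg (by omega), if_neg (by omega), if_pos (by omega), e]

private theorem hi_6_96 (t b : ℕ) (ht : t < 2) : G.hi b (6 + t) = 2 * G.u t b + 1 := by
  unfold hi
  have e : 6 + t - 6 = t := by omega
  rw [if_neg (by omega), if_neg (by omega), if_neg (by omega), if_pos (by omega), e]

private theorem hi_8_96 (t b : ℕ) (ht : 8 ≤ t) : G.hi b t = 2 * b + 1 := by
  unfold hi
  rw [if_neg (by omega), if_neg (by omega), if_neg (by omega), if_neg (by omega)]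

private theorem cases96 {b i : ℕ} (h : (b, i) ∈ G.units p) :
    b < G.B ∧ ((∃ t < 2, i = 4 + t ∧ b < G.u t b) ∨ (∃ t < 2, i = 6 + t ∧ b < G.u t b) ∨ (8 ≤ i ∧ i + G.deg b < p + 8)) := by
  classical
  unfold units at h
  rw [mem_filter, mem_product, mem_range, mem_Ico] at h
  obtain ⟨⟨h1, h2, h3⟩, h4⟩ := h
  simp only at h1 h2 h3 h4
  refine ⟨h1, ?_⟩
  rcases h4 with h4 | ⟨h4, _⟩ | ⟨h4, h5⟩ | ⟨h4, h5⟩ | h4
  · omega
  · omega
  · left
    refine ⟨i - 4, by omega, by omega, h5⟩
  · right; left
    refine ⟨i - 6, by omega, by omega, h5⟩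
  · right; right
    exact h4

theorem exists_beta (hG : G.Good p) (h : G.Sol z) :
    ∃ β : ℕ × ℕ → ℕ, (∀ x ∈ G.units p, β x < G.B ∧ G.lo x.1 x.2 ≤ 2 * β x + z (β x) ∧
      2 * β x + z (β x) ≤ G.hi x.1 x.2) ∧
    ∀ c < G.B, ((G.units p).filter fun x => β x = c).card ≤ p := by
  classical
  refine ⟨be96 G z, ?_, ?_⟩
  · rintro ⟨b, i⟩ hx
    obtain ⟨hb, h1⟩ := cases96 hx
    have hzb := h.le_one b
    rcases h1 with ⟨t, ht, rfl, hu⟩ | ⟨t, ht, rfl, hu⟩ | ⟨h8, _⟩
    · have hub := hG.u_lt t ht b hb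
      have harc := h.arc t ht b hb hu
      have hzu := h.le_one (G.u t b)
      rw [be_4_96 t b ht]
      simp only [lo_4_96 t b ht, hi_4_96 t b ht]
      split_ifs with h2
      · refine ⟨hb, ?_, ?_⟩ <;> omega
      · refine ⟨hub, ?_, ?_⟩ <;> omega
    · have hub := hG.u_lt t ht b hb
      have hzu := h.le_one (G.u t b)
      rw [be_6_96 t b ht]
      simp only [lo_6_96 (6 + t) b (by omega), hi_6_96 t b ht]
      split_ifs with h2
      · refine ⟨hub, ?_, ?_⟩ <;> omega
      · refine ⟨hb, ?_, ?_⟩ <;> omega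
    · rw [be_8_96 i b h8]
      simp only [lo_6_96 i b (by omega), hi_8_96 i b h8]
      refine ⟨hb, ?_, ?_⟩ <;> omega
  · intro c hc
    have hdeg := hG.deg_lt c hc
    let O : ℕ → Finset (ℕ × ℕ) := fun i => if c < G.u i c then {(c, if z (G.u i c) = 1 then 4 + i else 6 + i)} else ∅
    let I : ℕ → Finset (ℕ × ℕ) := fun i => ((range G.B).filter fun a => a < c ∧ G.u i a = c).image
      fun a => (a, if z (G.u i a) = 1 then 6 + i else 4 + i)
    let Q : Finset (ℕ × ℕ) := (Ico 8 (p + 8 - G.deg c)).image fun i => (c, i)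
    have hsub : ((G.units p).filter fun x => be96 G z x = c) ⊆ Q ∪ (range 2).biUnion fun i => O i ∪ I i := by
      rintro ⟨b, i⟩ hx
      rw [mem_filter] at hx
      obtain ⟨hx1, hx2⟩ := hx
      obtain ⟨hb, h1⟩ := cases96 hx1
      rw [mem_union]
      rcases h1 with ⟨t, ht, rfl, hu⟩ | ⟨t, ht, rfl, hu⟩ | ⟨h8, h9⟩
      · right
        rw [mem_biUnion]
        refine ⟨t, mem_range.2 ht, ?_⟩
        rw [mem_union]
        rw [be_4_96 t b ht] at hx2
        split_ifs at hx2 with h2
        · left
          subst hx2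
          simp only [O, if_pos hu, if_pos h2, mem_singleton]
        · right
          simp only [I, mem_image, mem_filter, mem_range]
          exact ⟨b, ⟨hb, by rw [← hx2]; exact hu, hx2⟩, by rw [if_neg h2]⟩
      · right
        rw [mem_biUnion]
        refine ⟨t, mem_range.2 ht, ?_⟩
        rw [mem_union]
        rw [be_6_96 t b ht] at hx2
        split_ifs at hx2 with h2
        · right
          simp only [I, mem_image, mem_filter, mem_range]
          exact ⟨b, ⟨hb, by rw [← hx2]; exact hu, hx2⟩, by rw [if_pos h2]⟩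
        · left
          subst hx2
          simp only [O, if_pos hu, if_neg h2, mem_singleton]
      · left
        rw [be_8_96 i b h8] at hx2
        subst hx2
        simp only [Q, mem_image, mem_Ico]
        exact ⟨i, ⟨h8, by omega⟩, rfl⟩
    have hQ : Q.card ≤ p - G.deg c := by
      refine card_image_le.trans ?_
      rw [Nat.card_Ico]
      omega
    have hO : ∀ i, (O i).card ≤ if c < G.u i c then 1 else 0 := by
      intro i
      simp only [O]
      by_cases h2 : c < G.u i c
      · rw [if_pos h2, if_pos h2, card_singleton]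
      · rw [if_neg h2, if_neg h2, card_empty]
    have hI : ∀ i, (I i).card ≤ ∑ a ∈ range G.B, if a < c ∧ G.u i a = c then 1 else 0 := by
      intro i
      refine card_image_le.trans ?_
      rw [card_filter]
    calc ((G.units p).filter fun x => be96 G z x = c).card ≤ (Q ∪ (range 2).biUnion fun i => O i ∪ I i).card := card_le_card hsub
      _ ≤ Q.card + ((range 2).biUnion fun i => O i ∪ I i).card := card_union_le _ _
      _ ≤ Q.card + ∑ i ∈ range 2, (O i ∪ I i).card := Nat.add_le_add_left card_biUnion_le _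
      _ ≤ (p - G.deg c) + ∑ i ∈ range 2, ((if c < G.u i c then 1 else 0) +
          ∑ a ∈ range G.B, if a < c ∧ G.u i a = c then 1 else 0) := by
          refine Nat.add_le_add hQ (sum_le_sum fun i _ => ?_)
          exact (card_union_le _ _).trans (Nat.add_le_add (hO i) (hI i))
      _ = (p - G.deg c) + G.deg c := rfl
      _ = p := by omega

end Pool.Agent.Helper69.TwoLen.Prog
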