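import Pool.Agent.Helper69.TwoLen.A4

/-!
# Block TL-A5: schedules give gap-level solutions

Let `A_p` be the set of `x ∈ A` with slot 2 or 3, `gap x = S x / (p+1)`; `gap` is injective on `A_p`
(`gap_ne`), with values `< 2B`. A unit job `y ∈ units` is in `A` (`full`), `gap y` is not in
`gap(A_p)`. Every block `b` has the private unit job `(b, 8)` (valid since `deg b < p`) with window
`{2b, 2b+1}`, so not both gaps of `b` are in `gap(A_p)`. As `|A_p| ≥ B`, the map
`A_p → range B`, `x ↦ gap x / 2` is injective, hence surjective (`Finset.surj_on_of_inj_on_of_card_le`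
or `Finset.surjOn_of_injOn_of_card_le`): exactly one gap of each block is in `gap(A_p)`.
`z b = 1` if `2b ∈ gap(A_p)`, else `0` (also for `b ≥ B`); so `gap(A_p) ∩ {2b, 2b+1} = {2b + 1 - z b}`.
`H b` = the job with gap `2b + 1 - z b`. `β y = gap y / 2`, and `gap y = 2 β + z β` as it is the
other gap of the block. For fixed `c` the unit jobs with `β y = c` have the same gap, and their
residues `S y % (p+1) < p` are distinct (length 1 jobs with equal start would overlap): at most `p`.
-/

set_option autoImplicit false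

namespace Pool.Agent.Helper69.TwoLen.Prog

open Finset

variable {G : Prog} {p : ℕ} {A : Finset (ℕ × ℕ)} {S : ℕ × ℕ → ℕ}

private theorem h80_len_pos (hp : 2 ≤ p) (i : ℕ) : 0 < len p i := by
  unfold len
  split_ifs <;> omega

private theorem h80_units {x : ℕ × ℕ} (hx : x ∈ G.units p) :
    x.1 < G.B ∧ 4 ≤ x.2 ∧ x.2 < p + 8 ∧ G.val p x.1 x.2 := by
  simp only [units, Finset.mem_filter, Finset.mem_product, Finset.mem_range, Finset.mem_Ico] at hx
  exact ⟨hx.1.1, hx.1.2.1, hx.1.2.2, hx.2⟩

private theorem h80_priv (hp : 2 ≤ p) (hG : G.Good p) {b : ℕ} (hb : b < G.B) : (b, 8) ∈ G.units p := by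
  simp only [units, Finset.mem_filter, Finset.mem_product, Finset.mem_range, Finset.mem_Ico]
  refine ⟨⟨hb, by norm_num, by omega⟩, ?_⟩
  have := hG.deg_lt b hb
  right; right; right; right
  exact ⟨le_refl _, by omega⟩

theorem gapSol_of_onTime (hp : 2 ≤ p) (hG : G.Good p) (h : G.OnTime p A S)
    (hA : (p + 3) * G.B ≤ A.card) : ∃ z, G.GapSol p z := by
  classical
  obtain ⟨hbl, hun, hBc⟩ := full hp hG h hA
  -- the gaps of the private jobs
  have hpriv : ∀ b < G.B, S (b, 8) / (p + 1) = 2 * b ∨ S (b, 8) / (p + 1) = 2 * b + 1 := by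
    intro b hb
    obtain ⟨h1, h2, -, -, -⟩ := gap_mem hp hG h hbl (hun (h80_priv hp hG hb)) (by norm_num)
    have e1 : G.lo b 8 = 2 * b := by simp [lo]
    have e2 : G.hi b 8 = 2 * b + 1 := by simp [hi]
    simp only at h1 h2
    rw [e1] at h1
    rw [e2] at h2
    omega
  have hpne : ∀ b < G.B, ∀ x ∈ A, (x.2 = 2 ∨ x.2 = 3) → S x / (p + 1) ≠ S (b, 8) / (p + 1) := by
    intro b hb x hx hx2
    refine gap_ne hp hG h hbl hx hx2 (hun (h80_priv hp hG hb)) (by norm_num) ?_
    rintro rfl
    simp at hx2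
  have hinj : Set.InjOn (fun x => S x / (p + 1) / 2)
      ((A.filter fun x => x.2 = 2 ∨ x.2 = 3 : Finset (ℕ × ℕ)) : Set (ℕ × ℕ)) := by
    intro x hx y hy hxy
    rw [Finset.mem_coe, Finset.mem_filter] at hx hy
    by_contra hne
    have h1 := gap_ne hp hG h hbl hx.1 hx.2 hy.1 (by rcases hy.2 with e | e <;> omega) hne
    obtain ⟨-, -, h2, -, -⟩ := gap_mem hp hG h hbl hx.1 (by rcases hx.2 with e | e <;> omega)
    simp only at hxy
    have hb : S x / (p + 1) / 2 < G.B := by omega
    have h3 := hpriv _ hb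
    have h4 := hpne _ hb x hx.1 hx.2
    have h5 := hpne _ hb y hy.1 hy.2
    omega
  have hmaps : Set.MapsTo (fun x => S x / (p + 1) / 2)
      ((A.filter fun x => x.2 = 2 ∨ x.2 = 3 : Finset (ℕ × ℕ)) : Set (ℕ × ℕ))
      ((range G.B : Finset ℕ) : Set ℕ) := by
    intro x hx
    rw [Finset.mem_coe, Finset.mem_filter] at hx
    obtain ⟨-, -, h2, -, -⟩ := gap_mem hp hG h hbl hx.1 (by rcases hx.2 with e | e <;> omega)
    rw [Finset.mem_coe, Finset.mem_range]
    simp only
    omega
  have hsurj := Finset.surjOn_of_injOn_of_card_le _ hmaps hinj (by rw [Finset.card_range]; exact hBc)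
  have hex : ∀ b, ∃ x : ℕ × ℕ, b < G.B → x ∈ A ∧ (x.2 = 2 ∨ x.2 = 3) ∧ S x / (p + 1) / 2 = b := by
    intro b
    by_cases hb : b < G.B
    · obtain ⟨x, hx, hxb⟩ := hsurj (Finset.mem_coe.2 (Finset.mem_range.2 hb))
      rw [Finset.mem_coe, Finset.mem_filter] at hx
      exact ⟨x, fun _ => ⟨hx.1, hx.2, hxb⟩⟩
    · exact ⟨(0, 0), fun hb' => absurd hb' hb⟩
  choose H hH using hex
  refine ⟨fun b => if S (H b) / (p + 1) = 2 * b then 1 else 0, ?_, ?_, ?_⟩
  · intro b
    split_ifs <;> omega
  · refine ⟨H, ?_, ?_⟩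
    · intro b hb b' hb' hbb
      rw [Set.mem_Iio] at hb hb'
      rw [← (hH b hb).2.2, ← (hH b' hb').2.2, hbb]
    · intro b hb
      obtain ⟨h1, h2, h3⟩ := hH b hb
      have h2' : 2 ≤ (H b).2 := by rcases h2 with e | e <;> omega
      obtain ⟨g1, g2, g3, g4, g5⟩ := gap_mem hp hG h hbl h1 h2'
      have e : 2 * b + 1 - (if S (H b) / (p + 1) = 2 * b then 1 else 0) = S (H b) / (p + 1) := by
        split_ifs with hc <;> omega
      refine ⟨(h.sub _ h1).1, h2, val_of_mem (by omega) h h1 h2', ?_, ?_⟩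
      · simp only [e]
        exact g1
      · simp only [e]
        exact g2
  · have hgap : ∀ x ∈ G.units p, S x / (p + 1) / 2 < G.B ∧
        2 * (S x / (p + 1) / 2) + (if S (H (S x / (p + 1) / 2)) / (p + 1) =
          2 * (S x / (p + 1) / 2) then 1 else 0) = S x / (p + 1) := by
      intro x hx
      have hxA := hun hx
      obtain ⟨u1, u2, u3, u4⟩ := h80_units hx
      obtain ⟨g1, g2, g3, g4, g5⟩ := gap_mem hp hG h hbl hxA (by omega)
      have hc : S x / (p + 1) / 2 < G.B := by omega
      obtain ⟨h1, h2, h3⟩ := hH _ hc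
      have h4 : S (H (S x / (p + 1) / 2)) / (p + 1) ≠ S x / (p + 1) := by
        refine gap_ne hp hG h hbl h1 h2 hxA (by omega) ?_
        intro he
        rw [he] at h2
        omega
      refine ⟨hc, ?_⟩
      generalize S (H (S x / (p + 1) / 2)) / (p + 1) = g at h3 h4 ⊢
      generalize S x / (p + 1) = k at h3 h4 ⊢
      split_ifs with hc <;> omega
    refine ⟨fun x => S x / (p + 1) / 2, ?_, ?_⟩
    · intro x hx
      obtain ⟨hc, he⟩ := hgap x hx
      obtain ⟨u1, u2, u3, u4⟩ := h80_units hx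
      obtain ⟨g1, g2, g3, g4, g5⟩ := gap_mem hp hG h hbl (hun hx) (by omega)
      simp only [he]
      exact ⟨hc, g1, g2⟩
    · intro c hc
      refine (Finset.card_le_card_of_injOn (t := range p) (fun x => S x % (p + 1)) ?_ ?_).trans
        (Finset.card_range p).le
      · intro x hx
        rw [Finset.mem_coe, Finset.mem_filter] at hx
        obtain ⟨u1, u2, u3, u4⟩ := h80_units hx.1
        obtain ⟨g1, g2, g3, g4, g5⟩ := gap_mem hp hG h hbl (hun hx.1) (by omega)
        rw [Finset.mem_coe, Finset.mem_range]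
        exact g4
      · intro x hx y hy hxy
        rw [Finset.mem_coe, Finset.mem_filter] at hx hy
        by_contra hne
        have e1 := (hgap x hx.1).2
        have e2 := (hgap y hy.1).2
        dsimp only at hxy
        obtain ⟨hx1, hx2⟩ := hx
        obtain ⟨hy1, hy2⟩ := hy
        dsimp only at hx2 hy2
        rw [hx2] at e1
        rw [hy2] at e2
        have e3 : S x / (p + 1) = S y / (p + 1) := by rw [← e1, ← e2]
        have e4 : S x = S y := by
          rw [← Nat.div_add_mod (S x) (p + 1), ← Nat.div_add_mod (S y) (p + 1), e3, hxy]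
        have h1 := h.dis x (hun hx1) y (hun hy1) hne
        have h2 := h80_len_pos hp x.2
        have h3 := h80_len_pos hp y.2
        omega

end Pool.Agent.Helper69.TwoLen.Prog
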