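import Pool.Agent.Helper69.TwoLen.A3

/-!
# Block TL-A6: gap-level solutions give schedules

`exists_rank`: e.g. `ρ x` = number of `y ∈ X` with `β y = β x` before `x` in some linear order (or
choose for every `c` an injection of the fibre into `Fin p`).
`onTime_of_gapSol`: `A` = all blockers `(b, i)`, `b < B`, `i < 2`, all of `units`, and the `H b`,
`b < B`. Start times: blockers `(2b + i)(p+1) + p`; `H b`: `(2b + 1 - z b)(p+1)`; unit job `x`:
`(2 β x + z (β x))(p+1) + ρ x` with `ρ x < p` from `exists_rank`. Every job lies in one gap `g`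
(blockers: at the time `g(p+1)+p` behind it), jobs in different gaps do not overlap, in the same
gap: a `p`-gap `2b+1-z b` is not of the form `2c + z c`, different `H b` have different gaps, unit
jobs with the same gap have the same `β`, hence different `ρ`. Windows: `r = lo (p+1)`,
`d = hi (p+1) + p` by validity. Number: `2B + pB + B` (`card_units`, injectivity of `H`; the three
sets are disjoint since the slots are `< 2`, `≥ 4`, and `2, 3`).
-/

set_option autoImplicit false

namespace Pool.Agent.Helper69.TwoLen.Prog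

open Finset

variable {G : Prog} {p : ℕ}

private theorem rank_fin94 {ι : Type*} [DecidableEq ι] (F : Finset ι) :
    ∃ f : ι → ℕ, (∀ x ∈ F, f x < F.card) ∧ ∀ x ∈ F, ∀ y ∈ F, f x = f y → x = y := by
  refine ⟨fun x => if h : x ∈ F then ((F.equivFin ⟨x, h⟩ : Fin F.card) : ℕ) else 0, ?_, ?_⟩
  · intro x hx
    simp only [hx, dif_pos]
    exact (F.equivFin ⟨x, hx⟩).2
  · intro x hx y hy h
    simp only [hx, hy, dif_pos] at h
    have h1 := F.equivFin.injective (Fin.ext h)
    exact congrArg Subtype.val h1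

theorem exists_rank {ι : Type*} [DecidableEq ι] (X : Finset ι) (β : ι → ℕ) (n p : ℕ)
    (hβ : ∀ x ∈ X, β x < n) (h : ∀ c < n, (X.filter fun x => β x = c).card ≤ p) :
    ∃ ρ : ι → ℕ, (∀ x ∈ X, ρ x < p) ∧ ∀ x ∈ X, ∀ y ∈ X, β x = β y → ρ x = ρ y → x = y := by
  have h1 : ∀ c : ℕ, ∃ f : ι → ℕ, (∀ x ∈ X.filter (fun x => β x = c), f x < (X.filter fun x => β x = c).card) ∧
      ∀ x ∈ X.filter (fun x => β x = c), ∀ y ∈ X.filter (fun x => β x = c), f x = f y → x = y :=
    fun c => rank_fin94 _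
  choose f hf1 hf2 using h1
  refine ⟨fun x => f (β x) x, fun x hx => ?_, fun x hx y hy hxy hr => ?_⟩
  · exact (hf1 (β x) x (mem_filter.2 ⟨hx, rfl⟩)).trans_le (h _ (hβ x hx))
  · refine hf2 (β x) x (mem_filter.2 ⟨hx, rfl⟩) y (mem_filter.2 ⟨hy, hxy.symm⟩) ?_
    have h2 : f (β x) x = f (β y) y := hr
    rw [h2, hxy]

theorem onTime_of_gapSol (hp : 2 ≤ p) (hG : G.Good p) {z : ℕ → ℕ} (h : G.GapSol p z) :
    ∃ (A : Finset (ℕ × ℕ)) (S : ℕ × ℕ → ℕ), G.OnTime p A S ∧ (p + 3) * G.B ≤ A.card := by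
  classical
  obtain ⟨hz, ⟨H, hinj, hH⟩, ⟨β, hβ, hcard⟩⟩ := h
  obtain ⟨ρ, hρ1, hρ2⟩ := exists_rank (G.units p) β G.B p (fun x hx => (hβ x hx).1) hcard
  obtain ⟨Hi, hHi⟩ : ∃ Hi : ℕ × ℕ → ℕ, ∀ b < G.B, Hi (H b) = b :=
    ⟨Function.invFunOn H (Set.Iio G.B), fun b hb => hinj.leftInvOn_invFunOn hb⟩
  obtain ⟨g, hg⟩ : ∃ g : ℕ × ℕ → ℕ, g = fun x => if x.2 < 2 then 2 * x.1 + x.2 else
      if x.2 < 4 then 2 * Hi x + 1 - z (Hi x) else 2 * β x + z (β x) := ⟨_, rfl⟩
  obtain ⟨o, ho⟩ : ∃ o : ℕ × ℕ → ℕ, o = fun x => if x.2 < 2 then p else if x.2 < 4 then 0 else ρ x := ⟨_, rfl⟩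
  have hunits : ∀ x ∈ G.units p, x.1 < G.B ∧ 4 ≤ x.2 ∧ x.2 < p + 8 ∧ G.val p x.1 x.2 := by
    intro x hx
    unfold units at hx
    rw [mem_filter, mem_product, mem_range, mem_Ico] at hx
    exact ⟨hx.1.1, hx.1.2.1, hx.1.2.2, hx.2⟩
  -- values
  have v1 : ∀ x : ℕ × ℕ, x.2 < 2 → g x = 2 * x.1 + x.2 ∧ o x = p ∧ len p x.2 = 1 := by
    intro x hx
    rw [hg, ho]
    simp only [hx, if_true]
    refine ⟨trivial, trivial, ?_⟩
    unfold len
    rw [if_neg (by omega)]
  have v2 : ∀ b < G.B, g (H b) = 2 * b + 1 - z b ∧ o (H b) = 0 ∧ len p (H b).2 = p := by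
    intro b hb
    obtain ⟨h1, h2, h3, h4, h5⟩ := hH b hb
    rw [hg, ho]
    simp only []
    rw [if_neg (by omega), if_pos (by omega), if_neg (by omega), if_pos (by omega), hHi b hb]
    refine ⟨rfl, rfl, ?_⟩
    unfold len
    rw [if_pos h2]
  have v3 : ∀ x ∈ G.units p, g x = 2 * β x + z (β x) ∧ o x = ρ x ∧ len p x.2 = 1 := by
    intro x hx
    obtain ⟨h1, h2, h3, h4⟩ := hunits x hx
    rw [hg, ho]
    simp only []
    rw [if_neg (by omega), if_neg (by omega), if_neg (by omega), if_neg (by omega)]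
    refine ⟨rfl, rfl, ?_⟩
    unfold len
    rw [if_neg (by omega)]
  obtain ⟨A, hA⟩ : ∃ A : Finset (ℕ × ℕ), A = (range G.B ×ˢ range 2) ∪ (G.units p ∪ (range G.B).image H) := ⟨_, rfl⟩
  have hmem : ∀ x ∈ A, (x.1 < G.B ∧ x.2 < 2) ∨ x ∈ G.units p ∨ ∃ b < G.B, x = H b := by
    intro x hx
    rw [hA, mem_union, mem_union, mem_product, mem_range, mem_range, mem_image] at hx
    rcases hx with h1 | h1 | ⟨b, hb, rfl⟩
    · exact Or.inl h1
    · exact Or.inr (Or.inl h1)
    · exact Or.inr (Or.inr ⟨b, mem_range.1 hb, rfl⟩)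
  -- the jobs which are not blockers
  have hnb : ∀ x ∈ A, 2 ≤ x.2 → G.val p x.1 x.2 ∧ G.lo x.1 x.2 ≤ g x ∧ g x ≤ G.hi x.1 x.2 ∧
      o x + len p x.2 ≤ p := by
    intro x hx hx2
    rcases hmem x hx with ⟨-, h1⟩ | h1 | ⟨b, hb, rfl⟩
    · omega
    · obtain ⟨h2, h3, h4⟩ := v3 x h1
      obtain ⟨-, h5, h6⟩ := hβ x h1
      have h7 := hρ1 x h1
      rw [h2, h3, h4]
      exact ⟨(hunits x h1).2.2.2, h5, h6, by omega⟩
    · obtain ⟨h2, h3, h4⟩ := v2 b hb
      obtain ⟨-, -, h5, h6, h7⟩ := hH b hb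
      rw [h2, h3, h4]
      exact ⟨h5, h6, h7, by omega⟩
  have hlen : ∀ x ∈ A, o x + len p x.2 ≤ p + 1 := by
    intro x hx
    rcases Nat.lt_or_ge x.2 2 with h1 | h1
    · obtain ⟨-, h2, h3⟩ := v1 x h1
      omega
    · have := (hnb x hx h1).2.2.2
      omega
  -- same gap
  have hsame : ∀ x ∈ A, ∀ y ∈ A, x ≠ y → g x = g y →
      o x + len p x.2 ≤ o y ∨ o y + len p y.2 ≤ o x := by
    intro x hx y hy hxy hgg
    rcases Nat.lt_or_ge x.2 2 with h1 | h1
    · obtain ⟨h2, h3, h4⟩ := v1 x h1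
      rcases Nat.lt_or_ge y.2 2 with h5 | h5
      · obtain ⟨h6, h7, h8⟩ := v1 y h5
        exfalso
        refine hxy (Prod.ext ?_ ?_) <;> omega
      · right
        have := (hnb y hy h5).2.2.2
        omega
    · rcases Nat.lt_or_ge y.2 2 with h5 | h5
      · obtain ⟨h6, h7, h8⟩ := v1 y h5
        left
        have := (hnb x hx h1).2.2.2
        omega
      · rcases hmem x hx with ⟨-, h6⟩ | h6 | ⟨b, hb, rfl⟩
        · omega
        · obtain ⟨h7, h8, h9⟩ := v3 x h6
          rcases hmem y hy with ⟨-, h10⟩ | h10 | ⟨c, hc, rfl⟩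
          · omega
          · obtain ⟨h11, h12, h13⟩ := v3 y h10
            have e1 : β x = β y := by
              have := hz (β x)
              have := hz (β y)
              omega
            have e2 : ρ x ≠ ρ y := fun e => hxy (hρ2 x h6 y h10 e1 e)
            omega
          · obtain ⟨h11, h12, h13⟩ := v2 c hc
            exfalso
            have := hz (β x)
            have := hz c
            have e1 : β x = c := by omega
            rw [e1] at h7
            omega
        · obtain ⟨h7, h8, h9⟩ := v2 b hb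
          rcases hmem y hy with ⟨-, h10⟩ | h10 | ⟨c, hc, rfl⟩
          · omega
          · obtain ⟨h11, h12, h13⟩ := v3 y h10
            exfalso
            have := hz (β y)
            have := hz b
            have e1 : β y = b := by omega
            rw [e1] at h11
            omega
          · obtain ⟨h11, h12, h13⟩ := v2 c hc
            exfalso
            have := hz b
            have := hz c
            have e1 : b = c := by omega
            exact hxy (by rw [e1])
  have hstep : ∀ x ∈ A, ∀ y ∈ A, g x < g y → g x * (p + 1) + o x + len p x.2 ≤ g y * (p + 1) + o y := by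
    intro x hx y hy hlt
    have h1 : (g x + 1) * (p + 1) ≤ g y * (p + 1) := Nat.mul_le_mul_right _ hlt
    have h2 := hlen x hx
    have h3 : (g x + 1) * (p + 1) = g x * (p + 1) + (p + 1) := by ring
    omega
  refine ⟨A, fun x => g x * (p + 1) + o x, ⟨?_, ?_, ?_⟩, ?_⟩
  · intro x hx
    rcases hmem x hx with ⟨h1, h2⟩ | h1 | ⟨b, hb, rfl⟩
    · exact ⟨h1, by omega⟩
    · exact ⟨(hunits x h1).1, (hunits x h1).2.2.1⟩
    · obtain ⟨h1, h2, -⟩ := hH b hb
      exact ⟨h1, by omega⟩
  · intro x hx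
    rcases Nat.lt_or_ge x.2 2 with h1 | h1
    · obtain ⟨h2, h3, h4⟩ := v1 x h1
      unfold r d
      rw [if_pos h1, if_pos h1, h2, h3, h4]
      exact ⟨le_refl _, le_refl _⟩
    · obtain ⟨h2, h3, h4, h5⟩ := hnb x hx h1
      unfold r d
      have h8 : ¬ x.2 < 2 := by omega
      rw [if_neg h8, if_neg h8, if_pos h2, if_pos h2]
      have h6 : G.lo x.1 x.2 * (p + 1) ≤ g x * (p + 1) := Nat.mul_le_mul_right _ h3
      have h7 : g x * (p + 1) ≤ G.hi x.1 x.2 * (p + 1) := Nat.mul_le_mul_right _ h4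
      constructor <;> omega
  · intro x hx y hy hxy
    rcases lt_trichotomy (g x) (g y) with h1 | h1 | h1
    · left
      exact hstep x hx y hy h1
    · have h2 := hsame x hx y hy hxy h1
      rw [h1]
      omega
    · right
      exact hstep y hy x hx h1
  · rw [hA]
    have d1 : Disjoint (G.units p) ((range G.B).image H) := by
      rw [Finset.disjoint_left]
      intro x hx hx'
      obtain ⟨b, hb, rfl⟩ := mem_image.1 hx'
      have h1 := (hunits _ hx).2.1
      have h2 := (hH b (mem_range.1 hb)).2.1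
      omega
    have d2 : Disjoint (range G.B ×ˢ range 2) (G.units p ∪ (range G.B).image H) := by
      rw [Finset.disjoint_left]
      intro x hx hx'
      rw [mem_product, mem_range, mem_range] at hx
      rcases mem_union.1 hx' with h1 | h1
      · have h2 := (hunits _ h1).2.1
        omega
      · obtain ⟨b, hb, rfl⟩ := mem_image.1 h1
        have h2 := (hH b (mem_range.1 hb)).2.1
        omega
    have h1 : ((range G.B).image H).card = G.B := by
      rw [card_image_of_injOn, card_range]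
      intro b hb c hc hbc
      exact hinj (by simpa using hb) (by simpa using hc) hbc
    rw [card_union_of_disjoint d2, card_union_of_disjoint d1, h1, card_units hG, card_product, card_range,
      card_range]
    apply le_of_eq
    ring

end Pool.Agent.Helper69.TwoLen.Prog
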