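import Pool.Agent.Helper69.TwoLen.A2

/-!
# Block TL-A7: unit arcs, soundness

Suppose `z C = 0`, `z D = 1` for an arc `C < D = u i C`. By `card_window` there are at least
`p (D - C - 1) + 1` jobs in `units` with window inside `[2C+1, 2D]`. Let `β` be the function of `un`;
for such a job `x`: `2C+1 ≤ 2 β x + z (β x) ≤ 2D`; `β x ≠ C` since `2C + z C = 2C`, `β x ≠ D`
since `2D + z D = 2D+1`; so `C < β x < D`. Every fibre of `β` has at most `p` elements:
`Finset.card_le_mul_card_image` or `Finset.card_eq_sum_card_fiberwise`: at most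
`p (D - C - 1)` jobs. Contradiction.
-/

set_option autoImplicit false

namespace Pool.Agent.Helper69.TwoLen.Prog

open Finset

variable {G : Prog} {p : ℕ}

theorem arc_of_gapSol (hG : G.Good p) {z : ℕ → ℕ} (h : G.GapSol p z) {i C : ℕ} (hi : i < 2)
    (hC : C < G.B) (hD : C < G.u i C) : z (G.u i C) ≤ z C := by
  by_contra hcon
  have h1 := h.le_one C
  have h2 := h.le_one (G.u i C)
  have hzC : z C = 0 := by omega
  have hzD : z (G.u i C) = 1 := by omega
  have hDB : G.u i C < G.B := hG.u_lt i hi C hC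
  obtain ⟨β, hβ1, hβ2⟩ := h.un
  have hw := card_window hG hi hC hD
  set X := (G.units p).filter fun x => 2 * C + 1 ≤ G.lo x.1 x.2 ∧
      G.hi x.1 x.2 ≤ 2 * G.u i C with hX
  have hmaps : ∀ x ∈ X, β x ∈ Finset.Ioo C (G.u i C) := by
    intro x hx
    rw [hX, Finset.mem_filter] at hx
    obtain ⟨hx1, hx2, hx3⟩ := hx
    obtain ⟨hb1, hb2, hb3⟩ := hβ1 x hx1
    have hz1 := h.le_one (β x)
    have hne1 : β x ≠ C := by
      intro he
      rw [he, hzC] at hb2
      omega
    have hne2 : β x ≠ G.u i C := by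
      intro he
      rw [he, hzD] at hb3
      omega
    rw [Finset.mem_Ioo]
    omega
  have hfib : ∀ b ∈ Finset.Ioo C (G.u i C), (X.filter fun x => β x = b).card ≤ p := by
    intro b hb
    rw [Finset.mem_Ioo] at hb
    refine le_trans (Finset.card_le_card ?_) (hβ2 b (by omega))
    intro x hx
    rw [Finset.mem_filter] at hx ⊢
    exact ⟨(Finset.mem_filter.mp hx.1).1, hx.2⟩
  have hle := Finset.card_le_mul_card_image_of_maps_to hmaps p hfib
  rw [Nat.card_Ioo] at hle
  omega

end Pool.Agent.Helper69.TwoLen.Prog
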