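import Pool.Agent.Helper69.TwoLen.A8

/-!
# Block TL-A9: clusters, soundness

`H_special`: let `ty b ≥ 2`, `z b + 2 ≠ ty b`; so `z b = 1 - s` with `s = ty b - 2`, and the gap used
by `H b = (b', i)` is `2b + 1 - z b = 2b + s`, the special gap. `i = 2`: `ty b' = 1` is impossible by
`ty_H`; otherwise the window is one gap of `b'`, so `b' = b` and it is `2b + 1` if `ty b = 2` and
`2b` if `ty b = 3`: not the gap `2b + s`. So `i = 3`; `ty b' = 0` would give `b' = b`. So
`nx b' = 1` and `2b' ≤ 2b + s ≤ 2(b'+1)+1`: `b' = b` or `b' + 1 = b`.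
`clu_of_isH`: let `b` have type `≥ 2` and suppose no `c` as in the conclusion exists. Let `b₀ ≤ b`
be minimal such that `nx t = 1` for all `b₀ ≤ t < b` (`Nat.find`). Then `b₀ = 0` or `nx (b₀ - 1) ≠ 1`.
Claim: for all `n`: `b₀ + n < B`, `nx t = 1` for `b₀ ≤ t ≤ b₀ + n` and `H (b₀ + n) = (b₀ + n, 3)`
(contradiction for `n = B`). Induction on `n`: `c = b₀ + n` is connected with `b` and `< B` (for
`n = 0` since `b₀ ≤ b < B`, otherwise by `link` for `c - 1`), of type `≥ 2` (`link`, or `c = b`), so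
`z c + 2 ≠ ty c`; by `H_special` the host of `H c` is `c` or `c - 1`, with `nx (host) = 1`. Host
`c - 1`: for `n = 0` excluded as `nx (b₀ - 1) ≠ 1`; for `n > 0` excluded by injectivity of `H`.
-/

set_option autoImplicit false

namespace Pool.Agent.Helper69.TwoLen.Prog

open Finset

variable {G : Prog} {p : ℕ} {z : ℕ → ℕ} {H : ℕ → ℕ × ℕ}

theorem H_special (hG : G.Good p) (hz : ∀ b, z b ≤ 1) (hH : G.IsH p z H) {b : ℕ} (hb : b < G.B)
    (hty : 2 ≤ G.ty b) (hne : z b + 2 ≠ G.ty b) :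
    (H b).2 = 3 ∧ G.nx (H b).1 = 1 ∧ ((H b).1 = b ∨ (H b).1 + 1 = b) := by
  have h3 : G.ty b ≤ 3 := hG.ty_le b hb
  have hzb := hz b
  have htyH := ty_H hG hz hH hb (by omega)
  obtain ⟨hB', h23, hval, hlo, hhi⟩ := hH.2 b hb
  obtain ⟨b', hb'⟩ : ∃ x, x = (H b).1 := ⟨_, rfl⟩
  obtain ⟨i, hi'⟩ : ∃ x, x = (H b).2 := ⟨_, rfl⟩
  rw [← hb'] at hB' htyH
  rw [← hb', ← hi'] at hval hlo hhi ⊢
  rw [← hi'] at h23 htyH
  rcases h23 with h2 | h2
  · exfalso
    subst h2
    have hn1 := htyH rfl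
    simp only [lo, hi, if_true, if_neg hn1] at hlo hhi
    by_cases h : G.ty b' = 2
    · rw [if_pos h] at hlo hhi
      have hbb : b' = b := by omega
      subst hbb
      omega
    · rw [if_neg h] at hlo hhi
      have hbb : b' = b := by omega
      subst hbb
      omega
  · subst h2
    have h32 : ¬ (3 : ℕ) = 2 := by decide
    simp only [lo, hi, if_true, if_neg h32] at hlo hhi
    rcases hval with h | ⟨-, h | h⟩ | ⟨h | h, -⟩ | ⟨h | h, -⟩ | ⟨h, -⟩
    · omega
    · exfalso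
      rw [if_pos h] at hlo hhi
      have hbb : b' = b := by omega
      subst hbb
      omega
    · obtain ⟨h1, h4, h5⟩ := hG.link b' hB' h
      have h6 := hG.ty_le (b' + 1) h1
      have h0 : ¬ G.ty b' = 0 := by omega
      rw [if_neg h0] at hlo hhi
      refine ⟨rfl, h, ?_⟩
      omega
    · omega
    · omega
    · omega
    · omega
    · omega

theorem clu_of_isH (hG : G.Good p) (hz : ∀ b, z b ≤ 1) (hH : G.IsH p z H) {b : ℕ} (hb : b < G.B)
    (hty : 2 ≤ G.ty b) : ∃ c < G.B, z c + 2 = G.ty c ∧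
      ((b ≤ c ∧ ∀ t, b ≤ t → t < c → G.nx t = 1) ∨ (c ≤ b ∧ ∀ t, c ≤ t → t < b → G.nx t = 1)) := by
  by_contra hcon
  push Not at hcon
  classical
  have hex : ∃ b₀, b₀ ≤ b ∧ ∀ t, b₀ ≤ t → t < b → G.nx t = 1 :=
    ⟨b, le_rfl, fun t h1 h2 => absurd h1 (by omega)⟩
  obtain ⟨b₀, hb₀⟩ : ∃ x, x = Nat.find hex := ⟨_, rfl⟩
  obtain ⟨h1, h2⟩ := Nat.find_spec hex
  have hmin : ∀ k, k < b₀ → ¬ (k ≤ b ∧ ∀ t, k ≤ t → t < b → G.nx t = 1) := fun k hk =>
    Nat.find_min hex (hb₀ ▸ hk)
  rw [← hb₀] at h1 h2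
  -- the block before `b₀` is not linked
  have hprev : ∀ k, k + 1 = b₀ → G.nx k ≠ 1 := by
    intro k hk hnx
    refine hmin k (by omega) ⟨by omega, fun t ht1 ht2 => ?_⟩
    rcases Nat.eq_or_lt_of_le ht1 with h | h
    · rw [← h]; exact hnx
    · exact h2 t (by omega) ht2
  -- no block connected with `b` has its special value
  have hno : ∀ c, c < G.B → b₀ ≤ c → (∀ t, b₀ ≤ t → t < c → G.nx t = 1) → z c + 2 ≠ G.ty c := by
    intro c hc hc1 hc2 heq
    obtain ⟨hA, hB⟩ := hcon c hc heq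
    rcases Nat.lt_or_ge c b with h | h
    · obtain ⟨t, ht1, ht2, ht3⟩ := hB (by omega)
      exact ht3 (h2 t (by omega) ht2)
    · obtain ⟨t, ht1, ht2, ht3⟩ := hA h
      exact ht3 (hc2 t (by omega) ht2)
  -- types
  have htyc : ∀ c, b₀ ≤ c → (∀ t, b₀ ≤ t → t < c → G.nx t = 1) → 2 ≤ G.ty c := by
    intro c hc1 hc2
    rcases Nat.lt_trichotomy c b with h | h | h
    · exact (hG.link c (by omega) (h2 c hc1 h)).2.1
    · rw [h]; exact hty
    · obtain ⟨k, rfl⟩ : ∃ k, c = k + 1 := ⟨c - 1, by omega⟩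
      by_cases hk : k < G.B
      · exact (hG.link k hk (hc2 k (by omega) (by omega))).2.2
      · -- impossible: some block between `b` and `k` has no successor
        exfalso
        have hBpos : b ≤ G.B - 1 := by omega
        have := hG.link (G.B - 1) (by omega) (hc2 (G.B - 1) (by omega) (by omega))
        omega
  have key : ∀ n, b₀ + n < G.B ∧ (∀ t, b₀ ≤ t → t ≤ b₀ + n → G.nx t = 1) ∧
      H (b₀ + n) = (b₀ + n, 3) := by
    intro n
    induction n with
    | zero =>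
      have hlt : b₀ + 0 < G.B := by omega
      have hvac : ∀ t, b₀ ≤ t → t < b₀ + 0 → G.nx t = 1 := fun t a1 a2 => absurd a1 (by omega)
      obtain ⟨g1, g2, g3⟩ := H_special hG hz hH hlt (htyc _ (by omega) hvac)
        (hno _ hlt (by omega) hvac)
      have g4 : (H (b₀ + 0)).1 = b₀ + 0 := by
        rcases g3 with g | g
        · exact g
        · exact absurd g2 (hprev _ g)
      refine ⟨hlt, fun t a1 a2 => ?_, Prod.ext g4 g1⟩
      have : t = b₀ + 0 := by omega
      rw [this, ← g4]; exact g2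
    | succ n ih =>
      obtain ⟨k1, k2, k3⟩ := ih
      have hlt : b₀ + (n + 1) < G.B := by
        have := (hG.link (b₀ + n) k1 (k2 _ (by omega) le_rfl)).1
        omega
      have hvac : ∀ t, b₀ ≤ t → t < b₀ + (n + 1) → G.nx t = 1 := fun t a1 a2 =>
        k2 t a1 (by omega)
      obtain ⟨g1, g2, g3⟩ := H_special hG hz hH hlt (htyc _ (by omega) hvac)
        (hno _ hlt (by omega) hvac)
      have g4 : (H (b₀ + (n + 1))).1 = b₀ + (n + 1) := by
        rcases g3 with g | g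
        · exact g
        · exfalso
          have e : H (b₀ + (n + 1)) = H (b₀ + n) := by
            rw [k3]
            exact Prod.ext (by omega) g1
          have := hH.1 (Set.mem_Iio.2 hlt) (Set.mem_Iio.2 k1) e
          omega
      refine ⟨hlt, fun t a1 a2 => ?_, Prod.ext g4 g1⟩
      rcases Nat.eq_or_lt_of_le a2 with h | h
      · rw [h, ← g4]; exact g2
      · exact k2 t a1 (by omega)
  have := (key G.B).1
  omega

end Pool.Agent.Helper69.TwoLen.Prog
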