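import Pool.Agent.Helper69.TwoLen.A1
import Pool.Agent.Helper69.TwoLen.A5
import Pool.Agent.Helper69.TwoLen.A6
import Pool.Agent.Helper69.TwoLen.A7
import Pool.Agent.Helper69.TwoLen.A9
import Pool.Agent.Helper69.TwoLen.A10
import Pool.Agent.Helper69.TwoLen.A11

/-!
# Theorem A
-/

set_option autoImplicit false

namespace Pool.Agent.Helper69.TwoLen.Prog

open Finset

variable {G : Prog} {p : ℕ}

theorem gapSol_iff_sol (hG : G.Good p) (z : ℕ → ℕ) : G.GapSol p z ↔ G.Sol z := by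
  constructor
  · intro h
    obtain ⟨H, hH⟩ := h.pj
    exact ⟨h.le_one, fun i hi b hb hlt => arc_of_gapSol hG h hi hb hlt,
      fun b hb hJ hlt => jarc_of_isH hG h.le_one hH hb hJ hlt,
      fun b hb hty => clu_of_isH hG h.le_one hH hb hty⟩
  · intro h
    exact ⟨h.le_one, exists_isH hG h, exists_beta hG h⟩

/-- **Theorem A**. -/
theorem feas_iff (hp : 2 ≤ p) (hG : G.Good p) :
    Feas (G.B * (p + 8)) (5 * G.B) (P p) (G.R p) (G.D p) ↔ ∃ z, G.Sol z := by
  rw [feas_iff_onTime]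
  constructor
  · rintro ⟨A, S, h, hA⟩
    obtain ⟨z, hz⟩ := gapSol_of_onTime hp hG h hA
    exact ⟨z, (gapSol_iff_sol hG z).1 hz⟩
  · rintro ⟨z, hz⟩
    exact onTime_of_gapSol hp hG ((gapSol_iff_sol hG z).2 hz)

end Pool.Agent.Helper69.TwoLen.Prog
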