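import Pool.Agent.Helper69.TwoLen.PB1

/-!
# Block TL-B3: at most three unit arcs at every block

For `i < 2` the function `u i` is injective on the blocks `a` with `a < u i a` (it has an explicit
inverse: `v0 b`, by the kind of `b`: `4 ↦ b-4`, `2, 10, 12, 15, 21, 25, 27 ↦ b-1`, `16 ↦ b-10`,
`13 ↦ b-6`, `22 ↦ b-3`, `5 ↦ A (ph b, wire b)`; `v1 b`: `5 ↦ b-5`, `4 ↦ b-1`, `17 ↦ b-11`,
`16 ↦ b-9`, `13 ↦ b-5`, `18 ↦ A (ph b, wire b)`, where `A (0, w) = N-1-w` and
`A (j+1, w) = grp N j w 3`). So for `i < 2` at most one `a` has `a < b ∧ u i a = b`. If there is one for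
`i = 1` then `b` has one of the kinds `4, 5, 13, 16, 17, 18`, at which no arc starts. So
`deg b ≤ 3` if there is none for `i = 1` (two outgoing, one incoming) and `deg b ≤ 2` otherwise.
-/

set_option autoImplicit false

namespace Pool.Agent.Helper69.TwoLen

variable {N m : ℕ} {lit : ℕ → ℕ → Prop}

private theorem cell_add52 (N j w k d : ℕ) : cell N j w k + d = cell N j w (k + d) := by
  rw [cell_eq, cell_eq]; omega

private theorem grp_add52 (N j w k d : ℕ) : grp N j w k + d = grp N j w (k + d) := by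
  rw [grp_eq, grp_eq]; omega

private def AA52 (N j w : ℕ) : ℕ := if j = 0 then N - 1 - w else grp N (j - 1) w 3

private def v052 (N c : ℕ) : ℕ :=
  if kind N c = 4 then c - 4
  else if kind N c = 2 ∨ kind N c = 10 ∨ kind N c = 12 ∨ kind N c = 15 ∨ kind N c = 21 ∨
    kind N c = 25 ∨ kind N c = 27 then c - 1
  else if kind N c = 16 then c - 10
  else if kind N c = 13 then c - 6
  else if kind N c = 22 then c - 3
  else AA52 N (ph N c) (wire N c)

private def v152 (N c : ℕ) : ℕ :=
  if kind N c = 5 then c - 5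
  else if kind N c = 4 then c - 1
  else if kind N c = 17 then c - 11
  else if kind N c = 16 then c - 9
  else if kind N c = 13 then c - 5
  else AA52 N (ph N c) (wire N c)

private theorem key052 {a : ℕ} (ha : a < N + m * (23 * N + 4)) (h : a < u0 N m a) :
    v052 N (u0 N m a) = a := by
  rcases block_cases ha with h1 | ⟨j, hj, ⟨k, hk, rfl⟩ | ⟨w, hw, k, hk, rfl⟩ | ⟨k, hk, rfl⟩ | ⟨w, hw, k, hk, rfl⟩⟩
  · have e : u0 N m a = cell N 0 (N - 1 - a) 5 := by
      simp [u0, kind_ini h1, wire_ini h1]
    have hw : N - 1 - a < N := by omega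
    rw [e]
    simp only [v052, kind_cell hw (show 5 < 19 by norm_num), ph_cell hw (show 5 < 19 by norm_num),
      wire_cell hw (show 5 < 19 by norm_num), AA52]
    simp
    omega
  · have hk' := kind_st (N := N) (j := j) hk
    unfold u0 at h ⊢
    rw [hk'] at h ⊢
    interval_cases k
    · simp at h ⊢
      simp [v052, kind_st (N := N) (j := j) (show 1 < 2 by norm_num)]
    · simp at h
  · have hk' := kind_cell (j := j) hw hk
    unfold u0 at h ⊢
    rw [hk'] at h ⊢
    interval_cases k <;> simp at h ⊢ <;> rw [cell_add52] <;> simp [v052, kind_cell hw] <;> rw [cell_eq, cell_eq] <;> omega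
  · have hk' := kind_en (N := N) (j := j) hk
    unfold u0 at h ⊢
    rw [hk'] at h ⊢
    interval_cases k
    · simp at h ⊢
      have e := kind_en (N := N) (j := j) (show 1 < 2 by norm_num)
      rw [← add_assoc] at e
      simp [v052, e]
    · simp at h
  · have hk' := kind_grp (j := j) hw hk
    have hw' := wire_grp (j := j) hw hk
    have hp' := ph_grp (j := j) hw hk
    unfold u0 at h ⊢
    rw [hk', hw', hp'] at h ⊢
    interval_cases k
    · simp at h ⊢
      rw [grp_add52]
      simp [v052, kind_grp hw]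
      rw [grp_eq, grp_eq]; omega
    · simp at h ⊢
      rw [grp_add52]
      simp [v052, kind_grp hw]
      rw [grp_eq, grp_eq]; omega
    · simp at h
    · by_cases h3 : j + 1 < m
      · simp [h3]
        simp [v052, kind_cell hw, ph_cell hw, wire_cell hw, AA52]
      · simp [h3] at h

private theorem key152 {a : ℕ} (ha : a < N + m * (23 * N + 4)) (h : a < u1 N m lit a) :
    v152 N (u1 N m lit a) = a ∧ (kind N (u1 N m lit a) = 4 ∨ kind N (u1 N m lit a) = 5 ∨
      kind N (u1 N m lit a) = 13 ∨ kind N (u1 N m lit a) = 16 ∨ kind N (u1 N m lit a) = 17 ∨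
      kind N (u1 N m lit a) = 18) := by
  rcases block_cases ha with h1 | ⟨j, hj, ⟨k, hk, rfl⟩ | ⟨w, hw, k, hk, rfl⟩ | ⟨k, hk, rfl⟩ | ⟨w, hw, k, hk, rfl⟩⟩
  · have e : u1 N m lit a = cell N 0 (N - 1 - a) 18 := by
      simp [u1, kind_ini h1, wire_ini h1]
    have hw : N - 1 - a < N := by omega
    rw [e]
    simp only [v152, kind_cell hw (show 18 < 19 by norm_num), ph_cell hw (show 18 < 19 by norm_num),
      wire_cell hw (show 18 < 19 by norm_num), AA52]
    simp
    omega
  · have hk' := kind_st (N := N) (j := j) hk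
    unfold u1 at h
    rw [hk'] at h
    interval_cases k <;> simp at h
  · have hk' := kind_cell (j := j) hw hk
    unfold u1 at h ⊢
    rw [hk', wire_cell hw hk, ph_cell hw hk] at h ⊢
    by_cases hl : lit w j
    · interval_cases k <;> simp [hl] at h ⊢ <;> rw [cell_add52] <;> simp [v152, kind_cell hw] <;> rw [cell_eq, cell_eq] <;> omega
    · interval_cases k <;> simp [hl] at h ⊢ <;> rw [cell_add52] <;> simp [v152, kind_cell hw] <;> rw [cell_eq, cell_eq] <;> omega
  · have hk' := kind_en (N := N) (j := j) hk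
    unfold u1 at h
    rw [hk'] at h
    interval_cases k <;> simp at h
  · have hk' := kind_grp (j := j) hw hk
    have hw' := wire_grp (j := j) hw hk
    have hp' := ph_grp (j := j) hw hk
    unfold u1 at h ⊢
    rw [hk', hw', hp'] at h ⊢
    interval_cases k
    · simp at h
    · simp at h
    · simp at h
    · by_cases h3 : j + 1 < m
      · simp [h3]
        simp [v152, kind_cell hw, ph_cell hw, wire_cell hw, AA52]
      · simp [h3] at h

theorem u_inj {i a a' : ℕ} (hi : i < 2) (ha : a < N + m * (23 * N + 4))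
    (ha' : a' < N + m * (23 * N + 4)) (h : a < (prog N m lit).u i a)
    (h' : a' < (prog N m lit).u i a') (he : (prog N m lit).u i a = (prog N m lit).u i a') :
    a = a' := by
  interval_cases i
  · change a < u0 N m a at h
    change a' < u0 N m a' at h'
    change u0 N m a = u0 N m a' at he
    rw [← key052 ha h, he, key052 ha' h']
  · change a < u1 N m lit a at h
    change a' < u1 N m lit a' at h'
    change u1 N m lit a = u1 N m lit a' at he
    rw [← (key152 ha h).1, he, (key152 ha' h').1]

theorem no_out {i a : ℕ} (hi : i < 2) (ha : a < N + m * (23 * N + 4))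
    (h : a < (prog N m lit).u 1 a) :
    ¬ (prog N m lit).u 1 a < (prog N m lit).u i ((prog N m lit).u 1 a) := by
  change a < u1 N m lit a at h
  obtain ⟨-, h1⟩ := key152 ha h
  change ¬ u1 N m lit a < (prog N m lit).u i (u1 N m lit a)
  obtain ⟨c, hc⟩ : ∃ c, c = u1 N m lit a := ⟨_, rfl⟩
  rw [← hc] at h1 ⊢
  interval_cases i
  · change ¬ c < u0 N m c
    rcases h1 with h1 | h1 | h1 | h1 | h1 | h1 <;> simp [u0, h1]
  · change ¬ c < u1 N m lit c
    rcases h1 with h1 | h1 | h1 | h1 | h1 | h1 <;> simp [u1, h1]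

private theorem sum_le52 {i b : ℕ} (hi : i < 2) :
    (∑ a ∈ Finset.range (N + m * (23 * N + 4)), if a < b ∧ (prog N m lit).u i a = b then 1 else 0) ≤ 1 := by
  rw [Finset.sum_boole, Nat.cast_id, Finset.card_le_one]
  intro a ha a' ha'
  rw [Finset.mem_filter, Finset.mem_range] at ha ha'
  refine u_inj (lit := lit) hi ha.1 ha'.1 ?_ ?_ ?_
  · rw [ha.2.2]; exact ha.2.1
  · rw [ha'.2.2]; exact ha'.2.1
  · rw [ha.2.2, ha'.2.2]

theorem prog_deg {b : ℕ} (hb : b < N + m * (23 * N + 4)) : (prog N m lit).deg b ≤ 3 := by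
  have hB : (prog N m lit).B = N + m * (23 * N + 4) := rfl
  unfold Prog.deg
  rw [Finset.sum_range_succ, Finset.sum_range_one, hB]
  have s0 := sum_le52 (N := N) (m := m) (lit := lit) (b := b) (show 0 < 2 by norm_num)
  have s1 := sum_le52 (N := N) (m := m) (lit := lit) (b := b) (show 1 < 2 by norm_num)
  by_cases hex : ∃ a, a < N + m * (23 * N + 4) ∧ a < b ∧ (prog N m lit).u 1 a = b
  · obtain ⟨a, ha, hab, hu⟩ := hex
    have n0 := no_out (N := N) (m := m) (lit := lit) (show 0 < 2 by norm_num) ha (by rw [hu]; exact hab)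
    have n1 := no_out (N := N) (m := m) (lit := lit) (show 1 < 2 by norm_num) ha (by rw [hu]; exact hab)
    rw [hu] at n0 n1
    rw [if_neg n0, if_neg n1]
    omega
  · have z1 : (∑ a ∈ Finset.range (N + m * (23 * N + 4)), if a < b ∧ (prog N m lit).u 1 a = b then 1 else 0) = 0 := by
      refine Finset.sum_eq_zero fun a ha => ?_
      rw [if_neg]
      intro h
      exact hex ⟨a, Finset.mem_range.1 ha, h.1, h.2⟩
    rw [z1]
    have t0 : (if b < (prog N m lit).u 0 b then 1 else 0) ≤ 1 := by split_ifs <;> omega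
    have t1 : (if b < (prog N m lit).u 1 b then 1 else 0) ≤ 1 := by split_ifs <;> omega
    omega

end Pool.Agent.Helper69.TwoLen
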