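import Pool.Agent.Helper69.TwoLen.PB4

/-!
# Block TL-B5: the `J`-arcs do not cross

By cases on the two arcs, with `cell_eq`, `grp_eq`, `ee_mono` (`j < j'` implies
`ee N j + (23 N + 4) ≤ ee N j'`) and `omega`. Both arcs are in one phase each, so `j = j'`.
-/

set_option autoImplicit false

namespace Pool.Agent.Helper69.TwoLen

variable {N m : ℕ}

theorem jArc_nc (hN : 0 < N) {a b c d : ℕ} (h1 : JArc N m a c) (h2 : JArc N m b d) (hab : a < b)
    (hbc : b < c) (hcd : c < d) : False := by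
  obtain ⟨j, -, h1⟩ := h1
  obtain ⟨j', -, h2⟩ := h2
  simp only [cell_eq, grp_eq] at h1 h2
  have hjj : j = j' := by
    have e1 : ee N j ≤ a ∧ c < ee N j + (23 * N + 4) := by
      rcases h1 with h1 | ⟨w, hw, h1⟩ | h1 | ⟨w, hw, h1⟩ | ⟨w, hw, h1⟩ <;> omega
    have e2 : ee N j' ≤ b ∧ d < ee N j' + (23 * N + 4) := by
      rcases h2 with h2 | ⟨w, hw, h2⟩ | h2 | ⟨w, hw, h2⟩ | ⟨w, hw, h2⟩ <;> omega
    rcases lt_trichotomy j j' with h | h | h
    · have := ee_mono (N := N) h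
      omega
    · exact h
    · have := ee_mono (N := N) h
      omega
  subst hjj
  rcases h1 with h1 | ⟨w, hw, h1⟩ | h1 | ⟨w, hw, h1⟩ | ⟨w, hw, h1⟩ <;>
    rcases h2 with h2 | ⟨w', hw', h2⟩ | h2 | ⟨w', hw', h2⟩ | ⟨w', hw', h2⟩ <;> omega

end Pool.Agent.Helper69.TwoLen
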