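import Pool.Agent.Helper69.TwoLen.PB4

/-!
# Block TL-B6: solutions give satisfying assignments

Let `z` be a solution. All values of `u0`, `u1`, `jp`, `tp`, `lk` are evaluated with the lemmas of
Kinds.lean. Write `c k = z (cell N j w k)`, `A = z (A(j, w))` with `A(0, w) = N-1-w`,
`A(j+1, w) = grp N j w 3`; `g k = z (grp N j w k)`.
From `arc` (right end ≤ left end): `c 2 ≤ c 1`, `c 4 ≤ c 3`, `c 4 ≤ c 0`, `c 5 ≤ c 0` if `¬ lit w j`,
`c 5 ≤ A`, `c 18 ≤ A`, `c 16 ≤ c 6`, `c 17 ≤ c 6`, `c 16 ≤ c 7`, `c 13 ≤ c 7`, `c 10 ≤ c 9`,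
`c 13 ≤ c 8`, `c 12 ≤ c 11`, `c 15 ≤ c 14`, `g 2 ≤ g 1`, `g 3 ≤ g 0`. From `jarc` (left ≤ right):
`z (ee N j) ≤ c 2` for `w = 0`, `z (cell N j w 14) ≤ z (cell N j (w+1) 2)`, `c 3 ≤ c 10`,
`c 11 ≤ g 2`, `z (cell N j (N-1) 14) ≤ z (ee N j + (2 + 19 N) + 1)`. From `clu` (for one block of the
cluster; the cluster of `b` is found with `nx`: `nx = 1` exactly at the kinds `0, 4, 5, 6, 8, 12, 15,
17, 19`, and `23` at even block numbers): `c 0 = 0 ∨ c 1 = 0`; `c 4 = 1 ∨ c 5 = 1 ∨ c 6 = 0 ∨ c 7 = 0`;
`c 8 = 0 ∨ c 9 = 0`; `c 12 = 1 ∨ c 13 = 1`; `c 15 = 1 ∨ c 16 = 1`; `c 17 = 1 ∨ c 18 = 1`;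
`g 0 = 0 ∨ g 1 = 0`; `z (N-1-2i) = 0 ∨ z (N-1-(2i+1)) = 0`; `z (ee N j + 1) = 1` (kind 25, type 3);
`z (ee N j + (2 + 19 N)) = 0` (kind 26, type 2); also `z (ee N j + 1) ≤ z (ee N j)` and
`z (ee N j + (2+19N) + 1) ≤ z (ee N j + (2+19N))` from `arc`.
(1) `A = 0` implies `g 3 = 0`: `c 5 = 0`, `c 18 = 0`, `c 17 = 1`, `c 6 = 1`; so `c 4 = 1` or `c 7 = 0`.
`c 4 = 1`: `c 3 = c 10 = c 9 = 1`, `c 8 = 0`, `c 13 = 0`; `c 7 = 0`: `c 13 = 0`. Then `c 12 = 1`,
`c 11 = 1`, `g 2 = 1`, `g 1 = 1`, `g 0 = 0`, `g 3 = 0`. So `z (A(j+1, w)) ≤ z (A(j, w))`.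
(2) If `c 2 = 1` and (`¬ lit w j` or `A = 0`) then `c 14 = 1`: `c 1 = 1`, `c 0 = 0`, `c 4 = 0`,
`c 5 = 0`, so `c 6 = 0` or `c 7 = 0`; `c 16 = 0`, `c 15 = 1`, `c 14 = 1`.
(3) For every clause `j < m` there is a wire `w < N` with `lit w j` and `z (A(j, w)) = 1` (otherwise by (2)
and the `J`-arcs `c 14 = 1` for all `w`, so `z` of the kind 27 block is 1, but it is `0`; `N > 0`), so
by (1) `z (N-1-w) = 1`. (4) `a i := z (N-1-(2i+1))`: `w = 2i+s`; if `s = 1` then `a i = 1`; if
`s = 0` then `z (N-1-2i) = 1`, so `a i = 0`.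
-/

set_option autoImplicit false

namespace Pool.Agent.Helper69.TwoLen

variable {n m : ℕ} {lit : ℕ → ℕ → Prop}

private theorem cell_add69 {N j w k d : ℕ} : cell N j w k + d = cell N j w (k + d) := by
  unfold cell
  ring

private theorem cell_lt69 {N m j w k : ℕ} (hj : j < m) (hw : w < N) (hk : k < 19) :
    cell N j w k < N + m * (23 * N + 4) := by
  have := ee_mono (N := N) hj
  rw [B_eq, cell_eq]
  omega

private theorem grp_lt69 {N m j w k : ℕ} (hj : j < m) (hw : w < N) (hk : k < 4) :
    grp N j w k < N + m * (23 * N + 4) := by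
  have := ee_mono (N := N) hj
  rw [B_eq, grp_eq]
  omega

private theorem run69 {G : Prog} {z : ℕ → ℕ} (h : G.Sol z) {b ℓ : ℕ} (hb : b < G.B)
    (h2 : 2 ≤ G.ty b) (hp : b = 0 ∨ G.nx (b - 1) ≠ 1) (hl : G.nx (b + ℓ) ≠ 1) :
    ∃ i ≤ ℓ, z (b + i) + 2 = G.ty (b + i) := by
  obtain ⟨c, -, hc, h3⟩ := h.clu b hb h2
  rcases h3 with ⟨h3, h4⟩ | ⟨h3, h4⟩
  · have : c ≤ b + ℓ := by
      by_contra hcon
      exact hl (h4 (b + ℓ) (by omega) (by omega))
    refine ⟨c - b, by omega, ?_⟩
    rw [Nat.add_sub_cancel' h3]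
    exact hc
  · rcases Nat.lt_or_ge c b with h5 | h5
    · exfalso
      rcases hp with hp | hp
      · omega
      · exact hp (h4 (b - 1) (by omega) (by omega))
    · have : c = b := le_antisymm h3 h5
      subst this
      exact ⟨0, by omega, hc⟩

/-- All constraints of a cell. -/
private theorem cell_facts69 {N : ℕ} {z : ℕ → ℕ} (h : (prog N m lit).Sol z) {j w : ℕ} (hj : j < m)
    (hw : w < N) {c : ℕ → ℕ} (hc : ∀ k, c k = z (cell N j w k)) :
    c 2 ≤ c 1 ∧ c 4 ≤ c 3 ∧ c 4 ≤ c 0 ∧ (¬ lit w j → c 5 ≤ c 0) ∧ c 16 ≤ c 6 ∧ c 17 ≤ c 6 ∧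
      c 16 ≤ c 7 ∧ c 13 ≤ c 7 ∧ c 10 ≤ c 9 ∧ c 13 ≤ c 8 ∧ c 12 ≤ c 11 ∧ c 15 ≤ c 14 ∧
      c 3 ≤ c 10 ∧ c 11 ≤ z (grp N j w 2) ∧
      (c 0 = 0 ∨ c 1 = 0) ∧ (c 4 = 1 ∨ c 5 = 1 ∨ c 6 = 0 ∨ c 7 = 0) ∧ (c 8 = 0 ∨ c 9 = 0) ∧
      (c 12 = 1 ∨ c 13 = 1) ∧ (c 15 = 1 ∨ c 16 = 1) ∧ (c 17 = 1 ∨ c 18 = 1) := by
  have hk : ∀ k < 19, kind N (cell N j w k) = k := fun k hk => kind_cell hw hk
  have hph : ∀ k < 19, ph N (cell N j w k) = j := fun k hk => ph_cell hw hk
  have hwi : ∀ k < 19, wire N (cell N j w k) = w := fun k hk => wire_cell hw hk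
  have hlt : ∀ k < 19, cell N j w k < (prog N m lit).B := fun k hk => cell_lt69 hj hw hk
  have a0 : ∀ k < 19, ∀ d, 0 < d → u0 N m (cell N j w k) = cell N j w k + d →
      c (k + d) ≤ c k := by
    intro k hk d hd hu
    have h1 : (prog N m lit).u 0 (cell N j w k) = cell N j w (k + d) := by
      rw [← cell_add69, ← hu]
      rfl
    have h2 := h.arc 0 (by norm_num) (cell N j w k) (hlt k hk) (by rw [h1, ← cell_add69]; omega)
    rw [h1] at h2
    rw [hc, hc]
    exact h2
  have a1 : ∀ k < 19, ∀ d, 0 < d → u1 N m lit (cell N j w k) = cell N j w k + d →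
      c (k + d) ≤ c k := by
    intro k hk d hd hu
    have h1 : (prog N m lit).u 1 (cell N j w k) = cell N j w (k + d) := by
      rw [← cell_add69, ← hu]
      rfl
    have h2 := h.arc 1 (by norm_num) (cell N j w k) (hlt k hk) (by rw [h1, ← cell_add69]; omega)
    rw [h1] at h2
    rw [hc, hc]
    exact h2
  have hty : ∀ k, (prog N m lit).ty (cell N j w k) = tp N (cell N j w k) := fun k => rfl
  have hnx : ∀ k, (prog N m lit).nx (cell N j w k) = lk N (cell N j w k) := fun k => rfl
  have hrun : ∀ k < 19, ∀ ℓ, k + ℓ < 19 → 2 ≤ tp N (cell N j w k) →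
      (prog N m lit).nx (cell N j w k - 1) ≠ 1 → lk N (cell N j w (k + ℓ)) ≠ 1 →
      ∃ i ≤ ℓ, c (k + i) + 2 = tp N (cell N j w (k + i)) := by
    intro k hk ℓ hℓ h2 hp hl
    obtain ⟨i, hi, h3⟩ := run69 h (hlt k hk) h2 (Or.inr hp) (ℓ := ℓ) (by
      rw [cell_add69]
      exact hl)
    refine ⟨i, hi, ?_⟩
    rw [cell_add69] at h3
    rw [hc]
    exact h3
  have hprev : ∀ k, 0 < k → cell N j w k - 1 = cell N j w (k - 1) := by
    intro k hk
    unfold cell
    omega
  have hle : ∀ k, c k ≤ 1 := fun k => by rw [hc]; exact h.le_one _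
  refine ⟨?_, ?_, ?_, ?_, ?_, ?_, ?_, ?_, ?_, ?_, ?_, ?_, ?_, ?_, ?_, ?_, ?_, ?_, ?_, ?_⟩
  · exact a0 1 (by norm_num) 1 (by norm_num) (by simp [u0, hk])
  · exact a1 3 (by norm_num) 1 (by norm_num) (by simp [u1, hk])
  · exact a0 0 (by norm_num) 4 (by norm_num) (by simp [u0, hk])
  · intro hlit
    exact a1 0 (by norm_num) 5 (by norm_num) (by simp [u1, hk, hwi, hph, hlit])
  · exact a0 6 (by norm_num) 10 (by norm_num) (by simp [u0, hk])
  · exact a1 6 (by norm_num) 11 (by norm_num) (by simp [u1, hk])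
  · exact a1 7 (by norm_num) 9 (by norm_num) (by simp [u1, hk])
  · exact a0 7 (by norm_num) 6 (by norm_num) (by simp [u0, hk])
  · exact a0 9 (by norm_num) 1 (by norm_num) (by simp [u0, hk])
  · exact a1 8 (by norm_num) 5 (by norm_num) (by simp [u1, hk])
  · exact a0 11 (by norm_num) 1 (by norm_num) (by simp [u0, hk])
  · exact a0 14 (by norm_num) 1 (by norm_num) (by simp [u0, hk])
  · have h1 : (prog N m lit).J (cell N j w 3) = cell N j w 10 := by
      show jp N (cell N j w 3) = _
      simp [jp, hk, cell_add69]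
    have h2 := h.jarc (cell N j w 3) (hlt 3 (by norm_num)) (by
      show tp N (cell N j w 3) = 1
      simp [tp, hk]) (by rw [h1]; unfold cell; omega)
    rw [h1] at h2
    rw [hc, hc]
    exact h2
  · have h1 : (prog N m lit).J (cell N j w 11) = grp N j w 2 := by
      show jp N (cell N j w 11) = _
      simp [jp, hk, hph, hwi]
    have h2 := h.jarc (cell N j w 11) (hlt 11 (by norm_num)) (by
      show tp N (cell N j w 11) = 1
      simp [tp, hk]) (by rw [h1]; unfold cell grp; omega)
    rw [h1] at h2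
    rw [hc]
    exact h2
  · obtain ⟨i, hi, h1⟩ := hrun 0 (by norm_num) 1 (by norm_num) (by simp [tp, hk]) (by
      rcases Nat.eq_zero_or_pos w with h0 | h0
      · subst h0
        have e : cell N j 0 0 - 1 = ee N j + 1 := by
          rw [cell_eq]
          omega
        rw [e]
        show lk N (ee N j + 1) ≠ 1
        simp [lk, kind_st (N := N) (j := j) (k := 1) (by norm_num)]
      · have e : cell N j w 0 - 1 = cell N j (w - 1) 18 := by
          unfold cell
          omega
        rw [e]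
        show lk N (cell N j (w - 1) 18) ≠ 1
        have : kind N (cell N j (w - 1) 18) = 18 := kind_cell (by omega) (by norm_num)
        simp [lk, this]) (by simp [lk, hk])
    have h3 : i = 0 ∨ i = 1 := by omega
    rcases h3 with rfl | rfl
    · simp only [tp, hk 0 (by norm_num)] at h1
      left
      simpa using h1
    · simp [tp, hk] at h1
      right
      exact h1
  · obtain ⟨i, hi, h1⟩ := hrun 4 (by norm_num) 3 (by norm_num) (by simp [tp, hk]) (by
      rw [hprev 4 (by norm_num)]
      show lk N (cell N j w 3) ≠ 1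
      simp [lk, hk]) (by simp [lk, hk])
    have h3 : i = 0 ∨ i = 1 ∨ i = 2 ∨ i = 3 := by omega
    rcases h3 with rfl | rfl | rfl | rfl <;> simp [tp, hk] at h1 <;> omega
  · obtain ⟨i, hi, h1⟩ := hrun 8 (by norm_num) 1 (by norm_num) (by simp [tp, hk]) (by
      rw [hprev 8 (by norm_num)]
      show lk N (cell N j w 7) ≠ 1
      simp [lk, hk]) (by simp [lk, hk])
    have h3 : i = 0 ∨ i = 1 := by omega
    rcases h3 with rfl | rfl <;> simp [tp, hk] at h1 <;> omega
  · obtain ⟨i, hi, h1⟩ := hrun 12 (by norm_num) 1 (by norm_num) (by simp [tp, hk]) (by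
      rw [hprev 12 (by norm_num)]
      show lk N (cell N j w 11) ≠ 1
      simp [lk, hk]) (by simp [lk, hk])
    have h3 : i = 0 ∨ i = 1 := by omega
    rcases h3 with rfl | rfl <;> simp [tp, hk] at h1 <;> omega
  · obtain ⟨i, hi, h1⟩ := hrun 15 (by norm_num) 1 (by norm_num) (by simp [tp, hk]) (by
      rw [hprev 15 (by norm_num)]
      show lk N (cell N j w 14) ≠ 1
      simp [lk, hk]) (by simp [lk, hk])
    have h3 : i = 0 ∨ i = 1 := by omega
    rcases h3 with rfl | rfl <;> simp [tp, hk] at h1 <;> omega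
  · obtain ⟨i, hi, h1⟩ := hrun 17 (by norm_num) 1 (by norm_num) (by simp [tp, hk]) (by
      rw [hprev 17 (by norm_num)]
      show lk N (cell N j w 16) ≠ 1
      simp [lk, hk]) (by simp [lk, hk])
    have h3 : i = 0 ∨ i = 1 := by omega
    rcases h3 with rfl | rfl <;> simp [tp, hk] at h1 <;> omega

/-- All constraints of a group. -/
private theorem grp_facts69 {N : ℕ} {z : ℕ → ℕ} (h : (prog N m lit).Sol z) {j w : ℕ} (hj : j < m)
    (hw : w < N) {g : ℕ → ℕ} (hg : ∀ k, g k = z (grp N j w k)) :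
    g 2 ≤ g 1 ∧ g 3 ≤ g 0 ∧ (g 0 = 0 ∨ g 1 = 0) := by
  have hk : ∀ k < 4, kind N (grp N j w k) = 19 + k := fun k hk => kind_grp hw hk
  have hlt : ∀ k < 4, grp N j w k < (prog N m lit).B := fun k hk => grp_lt69 hj hw hk
  have hadd : ∀ k d, grp N j w k + d = grp N j w (k + d) := by
    intro k d
    unfold grp
    ring
  refine ⟨?_, ?_, ?_⟩
  · have h1 : (prog N m lit).u 0 (grp N j w 1) = grp N j w 2 := by
      show u0 N m (grp N j w 1) = _
      simp [u0, hk, hadd]
    have h2 := h.arc 0 (by norm_num) (grp N j w 1) (hlt 1 (by norm_num)) (by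
      rw [h1]; unfold grp; omega)
    rw [h1] at h2
    rw [hg, hg]
    exact h2
  · have h1 : (prog N m lit).u 0 (grp N j w 0) = grp N j w 3 := by
      show u0 N m (grp N j w 0) = _
      simp [u0, hk, hadd]
    have h2 := h.arc 0 (by norm_num) (grp N j w 0) (hlt 0 (by norm_num)) (by
      rw [h1]; unfold grp; omega)
    rw [h1] at h2
    rw [hg, hg]
    exact h2
  · obtain ⟨i, hi, h1⟩ := run69 h (b := grp N j w 0) (ℓ := 1) (hlt 0 (by norm_num)) (by
      show 2 ≤ tp N (grp N j w 0)
      simp [tp, hk]) (Or.inr (by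
        rcases Nat.lt_or_ge (w + 1) N with h0 | h0
        · have e : grp N j w 0 - 1 = grp N j (w + 1) 3 := by
            unfold grp
            omega
          rw [e]
          show lk N (grp N j (w + 1) 3) ≠ 1
          have : kind N (grp N j (w + 1) 3) = 22 := kind_grp h0 (by norm_num)
          simp [lk, this]
        · have e : grp N j w 0 - 1 = ee N j + (2 + 19 * N + 1) := by
            rw [grp_eq]
            omega
          rw [e]
          show lk N (ee N j + (2 + 19 * N + 1)) ≠ 1
          simp [lk, kind_en (N := N) (j := j) (k := 1) (by norm_num)])) (by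
      rw [hadd]
      show lk N (grp N j w 1) ≠ 1
      simp [lk, hk])
    have h3 : i = 0 ∨ i = 1 := by omega
    rw [hadd, ← hg] at h1
    have h1' : g (0 + i) + 2 = tp N (grp N j w (0 + i)) := h1
    rcases h3 with rfl | rfl <;> simp [tp, hk] at h1' <;> omega

/-- The block of the vertical wire `w` above the phase `j`. -/
private def AA69 (N j w : ℕ) : ℕ := if j = 0 then N - 1 - w else grp N (j - 1) w 3

private theorem A_facts69 {N : ℕ} {z : ℕ → ℕ} (h : (prog N m lit).Sol z) {j w : ℕ} (hj : j < m)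
    (hw : w < N) : z (cell N j w 5) ≤ z (AA69 N j w) ∧ z (cell N j w 18) ≤ z (AA69 N j w) := by
  have hB : (prog N m lit).B = N + m * (23 * N + 4) := rfl
  rcases Nat.eq_zero_or_pos j with h0 | h0
  · subst h0
    have hA : AA69 N 0 w = N - 1 - w := by simp [AA69]
    rw [hA]
    have hk : kind N (N - 1 - w) = 23 := kind_ini (by omega)
    have hwi : wire N (N - 1 - w) = w := by
      rw [wire_ini (by omega)]
      omega
    constructor
    · have h1 : (prog N m lit).u 0 (N - 1 - w) = cell N 0 w 5 := by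
        show u0 N m (N - 1 - w) = _
        simp [u0, hk, hwi]
      have h2 := h.arc 0 (by norm_num) (N - 1 - w) (by rw [hB]; omega) (by
        rw [h1]; unfold cell; omega)
      rw [h1] at h2
      exact h2
    · have h1 : (prog N m lit).u 1 (N - 1 - w) = cell N 0 w 18 := by
        show u1 N m lit (N - 1 - w) = _
        simp [u1, hk, hwi]
      have h2 := h.arc 1 (by norm_num) (N - 1 - w) (by rw [hB]; omega) (by
        rw [h1]; unfold cell; omega)
      rw [h1] at h2
      exact h2
  · obtain ⟨j, rfl⟩ : ∃ j', j = j' + 1 := ⟨j - 1, by omega⟩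
    have hA : AA69 N (j + 1) w = grp N j w 3 := by simp [AA69]
    rw [hA]
    have hk : kind N (grp N j w 3) = 22 := kind_grp hw (by norm_num)
    have hwi : wire N (grp N j w 3) = w := wire_grp hw (by norm_num)
    have hph : ph N (grp N j w 3) = j := ph_grp hw (by norm_num)
    have hlt : ∀ k, grp N j w 3 < cell N (j + 1) w k := by
      intro k
      rw [cell_eq, grp_eq, ee_succ]
      omega
    constructor
    · have h1 : (prog N m lit).u 0 (grp N j w 3) = cell N (j + 1) w 5 := by
        show u0 N m (grp N j w 3) = _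
        simp [u0, hk, hwi, hph, hj]
      have h2 := h.arc 0 (by norm_num) (grp N j w 3) (grp_lt69 (by omega) hw (by norm_num)) (by
        rw [h1]; exact hlt 5)
      rw [h1] at h2
      exact h2
    · have h1 : (prog N m lit).u 1 (grp N j w 3) = cell N (j + 1) w 18 := by
        show u1 N m lit (grp N j w 3) = _
        simp [u1, hk, hwi, hph, hj]
      have h2 := h.arc 1 (by norm_num) (grp N j w 3) (grp_lt69 (by omega) hw (by norm_num)) (by
        rw [h1]; exact hlt 18)
      rw [h1] at h2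
      exact h2

/-- The vertical wires. -/
private theorem vert69 {N : ℕ} {z : ℕ → ℕ} (h : (prog N m lit).Sol z) {j w : ℕ} (hj : j < m)
    (hw : w < N) : z (AA69 N (j + 1) w) ≤ z (AA69 N j w) := by
  have hle : ∀ b, z b ≤ 1 := h.le_one
  have hA : AA69 N (j + 1) w = grp N j w 3 := by simp [AA69]
  rw [hA]
  have h1 := cell_facts69 h hj hw (c := fun k => z (cell N j w k)) (fun k => rfl)
  have h2 := grp_facts69 h hj hw (g := fun k => z (grp N j w k)) (fun k => rfl)
  have h3 := A_facts69 h hj hw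
  obtain ⟨f1, f2, f3, -, f5, f6, f7, f8, f9, f10, f11, f12, f13, f14, f15, f16, f17, f18, f19,
    f20⟩ := h1
  have e1 := hle (cell N j w 3)
  have e2 := hle (cell N j w 17)
  have e3 := hle (cell N j w 10)
  have e4 := hle (cell N j w 9)
  have e5 := hle (grp N j w 2)
  have e6 := hle (grp N j w 1)
  have e7 := hle (grp N j w 3)
  have e8 := hle (cell N j w 6)
  have e9 := hle (cell N j w 11)
  omega

/-- The horizontal signal. -/
private theorem horiz69 {N : ℕ} {z : ℕ → ℕ} (h : (prog N m lit).Sol z) {j w : ℕ} (hj : j < m)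
    (hw : w < N) (h1 : z (cell N j w 2) = 1) (h2 : ¬ lit w j ∨ z (AA69 N j w) = 0) :
    z (cell N j w 14) = 1 := by
  have hle : ∀ b, z b ≤ 1 := h.le_one
  have h1' := cell_facts69 h hj hw (c := fun k => z (cell N j w k)) (fun k => rfl)
  have h3 := A_facts69 h hj hw
  obtain ⟨f1, f2, f3, f4, f5, f6, f7, f8, f9, f10, f11, f12, f13, f14, f15, f16, f17, f18, f19,
    f20⟩ := h1'
  have e1 := hle (cell N j w 1)
  have e2 := hle (cell N j w 14)
  have h5 : z (cell N j w 5) = 0 := by
    rcases h2 with h2 | h2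
    · have := f4 h2
      omega
    · omega
  omega

theorem sol_sound (hn : 0 < n) {z : ℕ → ℕ} (h : (prog (2 * n) m lit).Sol z) :
    ∃ a : ℕ → ℕ, (∀ i, a i ≤ 1) ∧ ∀ j < m, ∃ i < n, lit (2 * i + a i) j := by
  have hle : ∀ b, z b ≤ 1 := h.le_one
  obtain ⟨N, hN⟩ : ∃ N, N = 2 * n := ⟨_, rfl⟩
  rw [← hN] at h
  have hB : (prog N m lit).B = N + m * (23 * N + 4) := rfl
  -- `z` decreases along the vertical wires
  have hvert : ∀ j ≤ m, ∀ w < N, z (AA69 N j w) ≤ z (N - 1 - w) := by
    intro j
    induction j with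
    | zero =>
      intro _ w _
      simp [AA69]
    | succ j ih =>
      intro hj w hw
      exact (vert69 h (by omega) hw).trans (ih (by omega) w hw)
  -- every clause has a true literal
  have hcl : ∀ j < m, ∃ w < N, lit w j ∧ z (AA69 N j w) = 1 := by
    intro j hj
    by_contra hcon
    push Not at hcon
    have hor : ∀ w < N, ¬ lit w j ∨ z (AA69 N j w) = 0 := by
      intro w hw
      by_cases hl : lit w j
      · right
        have h1 := hcon w hw hl
        have h2 := hle (AA69 N j w)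
        omega
      · exact Or.inl hl
    have hlt : ∀ x < 23 * N + 4, ee N j + x < (prog N m lit).B := by
      intro x hx
      have := ee_mono (N := N) hj
      rw [hB, B_eq]
      omega
    -- the start
    have hst0 : kind N (ee N j) = 24 := by
      have := kind_st (N := N) (j := j) (k := 0) (by norm_num)
      simpa using this
    have hst1 : kind N (ee N j + 1) = 25 := kind_st (by norm_num)
    have hF : z (ee N j + 1) = 1 := by
      obtain ⟨i, hi, h1⟩ := run69 h (b := ee N j + 1) (ℓ := 0) (hlt 1 (by omega)) (by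
        show 2 ≤ tp N (ee N j + 1)
        simp [tp, hst1]) (Or.inr (by
          rw [Nat.add_sub_cancel]
          show lk N (ee N j) ≠ 1
          simp [lk, hst0])) (by
        show lk N (ee N j + 1 + 0) ≠ 1
        simp [lk, hst1])
      obtain rfl : i = 0 := by omega
      have h2 : z (ee N j + 1) + 2 = tp N (ee N j + 1) := h1
      simp [tp, hst1] at h2
      omega
    have hS : z (ee N j) = 1 := by
      have h1 : (prog N m lit).u 0 (ee N j) = ee N j + 1 := by
        show u0 N m (ee N j) = _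
        simp [u0, hst0]
      have h2 := h.arc 0 (by norm_num) (ee N j) (hlt 0 (by omega)) (by rw [h1]; omega)
      rw [h1] at h2
      have := hle (ee N j)
      omega
    -- the signal
    have hsig : ∀ w < N, z (cell N j w 2) = 1 ∧ z (cell N j w 14) = 1 := by
      intro w
      induction w with
      | zero =>
        intro hw
        have h1 : (prog N m lit).J (ee N j) = cell N j 0 2 := by
          show jp N (ee N j) = _
          rw [cell_eq]
          simp [jp, hst0]
        have h2 := h.jarc (ee N j) (hlt 0 (by omega)) (by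
          show tp N (ee N j) = 1
          simp [tp, hst0]) (by rw [h1, cell_eq]; omega)
        rw [h1] at h2
        have h3 := hle (cell N j 0 2)
        have h4 : z (cell N j 0 2) = 1 := by omega
        exact ⟨h4, horiz69 h hj hw h4 (hor 0 hw)⟩
      | succ w ih =>
        intro hw
        have ih := ih (by omega)
        have hk : kind N (cell N j w 14) = 14 := kind_cell (by omega) (by norm_num)
        have hwi : wire N (cell N j w 14) = w := wire_cell (by omega) (by norm_num)
        have h1 : (prog N m lit).J (cell N j w 14) = cell N j (w + 1) 2 := by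
          show jp N (cell N j w 14) = _
          simp only [jp, hk, hwi]
          norm_num [hw]
          unfold cell
          ring
        have h2 := h.jarc (cell N j w 14) (cell_lt69 hj (by omega) (by norm_num)) (by
          show tp N (cell N j w 14) = 1
          simp [tp, hk]) (by rw [h1, cell_eq, cell_eq]; omega)
        rw [h1] at h2
        have h3 := hle (cell N j (w + 1) 2)
        have h4 : z (cell N j (w + 1) 2) = 1 := by omega
        exact ⟨h4, horiz69 h hj hw h4 (hor _ hw)⟩
    -- the end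
    have hen0 : kind N (ee N j + (2 + 19 * N)) = 26 := by
      have := kind_en (N := N) (j := j) (k := 0) (by norm_num)
      simpa using this
    have hen1 : kind N (ee N j + (2 + 19 * N) + 1) = 27 := by
      have := kind_en (N := N) (j := j) (k := 1) (by norm_num)
      rw [add_assoc]
      exact this
    have hF' : z (ee N j + (2 + 19 * N)) = 0 := by
      obtain ⟨i, hi, h1⟩ := run69 h (b := ee N j + (2 + 19 * N)) (ℓ := 0) (hlt _ (by omega)) (by
        show 2 ≤ tp N (ee N j + (2 + 19 * N))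
        simp [tp, hen0]) (Or.inr (by
          have e : ee N j + (2 + 19 * N) - 1 = cell N j (N - 1) 18 := by
            rw [cell_eq]
            omega
          rw [e]
          show lk N (cell N j (N - 1) 18) ≠ 1
          have : kind N (cell N j (N - 1) 18) = 18 := kind_cell (by omega) (by norm_num)
          simp [lk, this])) (by
        show lk N (ee N j + (2 + 19 * N) + 0) ≠ 1
        simp [lk, hen0])
      obtain rfl : i = 0 := by omega
      have h2 : z (ee N j + (2 + 19 * N)) + 2 = tp N (ee N j + (2 + 19 * N)) := h1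
      simp only [tp, hen0] at h2
      simpa using h2
    have hT : z (ee N j + (2 + 19 * N) + 1) = 0 := by
      have h1 : (prog N m lit).u 0 (ee N j + (2 + 19 * N)) = ee N j + (2 + 19 * N) + 1 := by
        show u0 N m (ee N j + (2 + 19 * N)) = _
        simp [u0, hen0]
      have h2 := h.arc 0 (by norm_num) (ee N j + (2 + 19 * N)) (hlt _ (by omega)) (by
        rw [h1]; omega)
      rw [h1] at h2
      omega
    have hk : kind N (cell N j (N - 1) 14) = 14 := kind_cell (by omega) (by norm_num)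
    have hwi : wire N (cell N j (N - 1) 14) = N - 1 := wire_cell (by omega) (by norm_num)
    have h1 : (prog N m lit).J (cell N j (N - 1) 14) = ee N j + (2 + 19 * N) + 1 := by
      show jp N (cell N j (N - 1) 14) = _
      simp only [jp, hk, hwi]
      rw [if_neg (by norm_num), if_neg (by norm_num), if_neg (by norm_num), if_neg (by norm_num),
        if_pos trivial, if_neg (by omega), cell_eq]
      omega
    have h2 := h.jarc (cell N j (N - 1) 14) (cell_lt69 hj (by omega) (by norm_num)) (by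
      show tp N (cell N j (N - 1) 14) = 1
      simp [tp, hk]) (by rw [h1, cell_eq]; omega)
    rw [h1, hT, (hsig (N - 1) (by omega)).2] at h2
    omega
  -- the initial pairs
  have hini : ∀ i < n, z (N - 1 - 2 * i) = 0 ∨ z (N - 1 - (2 * i + 1)) = 0 := by
    intro i hi
    have hk : ∀ b < N, kind N b = 23 := fun b hb => kind_ini hb
    obtain ⟨b, hb⟩ : ∃ b, b = N - 1 - (2 * i + 1) := ⟨_, rfl⟩
    have hb1 : b + 1 < N := by omega
    have hb2 : b % 2 = 0 := by omega
    obtain ⟨l, hl, h1⟩ := run69 h (b := b) (ℓ := 1) (by rw [hB]; omega) (by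
      show 2 ≤ tp N b
      simp [tp, hk b (by omega)]) (by
        rcases Nat.eq_zero_or_pos b with h0 | h0
        · exact Or.inl h0
        · right
          show lk N (b - 1) ≠ 1
          have : (b - 1) % 2 = 1 := by omega
          simp [lk, hk (b - 1) (by omega), this]) (by
      show lk N (b + 1) ≠ 1
      have : (b + 1) % 2 = 1 := by omega
      simp [lk, hk (b + 1) (by omega), this])
    have h3 : l = 0 ∨ l = 1 := by omega
    have h1' : z (b + l) + 2 = tp N (b + l) := h1
    rcases h3 with rfl | rfl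
    · right
      simp only [add_zero, tp, hk b (by omega)] at h1'
      rw [← hb]
      simpa using h1'
    · left
      simp only [tp, hk (b + 1) hb1] at h1'
      have e : N - 1 - 2 * i = b + 1 := by omega
      rw [e]
      simpa using h1'
  refine ⟨fun i => z (N - 1 - (2 * i + 1)), fun i => hle _, fun j hj => ?_⟩
  obtain ⟨w, hw, hl, hz⟩ := hcl j hj
  have h1 := hvert j hj.le w hw
  have h2 := hle (N - 1 - w)
  have h3 : z (N - 1 - w) = 1 := by omega
  refine ⟨w / 2, by omega, ?_⟩
  have h4 := hini (w / 2) (by omega)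
  simp only
  rcases Nat.mod_two_eq_zero_or_one w with h5 | h5
  · have e : 2 * (w / 2) = w := by omega
    rw [e] at h4 ⊢
    have h6 : z (N - 1 - (w + 1)) = 0 := by omega
    rw [h6]
    exact hl
  · have e : 2 * (w / 2) + 1 = w := by omega
    rw [e, h3, e]
    exact hl

end Pool.Agent.Helper69.TwoLen
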