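import Pool.Agent.Helper69.TwoLen.PB4

/-!
# Block TL-B7: satisfying assignments give solutions

Let `α w = 0` if `w = 2 i + a i` with `i = w / 2` (the true literals), else `1`;
`β j 0 = 1`, `β j (w+1) = 0` if `lit w j` and `α w = 0`, else `β j w`. So `β j N = 0` for
`j < m` (`β j w = 0` iff there is a `w' < w` with `lit w' j`, `α w' = 0`).
`z b` by the kind, phase `j` and wire `w` of `b`, with `x = α w`, `s = β j w`, `y = β j (w+1)` (so
`y ≤ s`, and `y < s` only if `lit w j`, `x = 0`):
kinds `0: 1-s, 1: s, 2: s, 3: x, 4: [x=1, y=0], 5: [x=0, y=0], 6: 0 iff x=0, y=1, 7: 0 iff x=1, y=1,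
8: 1-x, 9: x, 10: x, 11: x, 12: x, 13: 1-x, 14: y, 15: y, 16: 1-y, 17: x, 18: 1-x;
19: 1-x, 20: x, 21: x, 22: 1-x; 23: 1-x; 24: 1, 25: 1, 26: 0, 27: 0`; `z b = 0` for `b ≥ B`.
All constraints are checked with `block_cases` and the lemmas of Kinds.lean; `arc`: the right end has
`z ≤` that of the left end: `2 ≤ 1, 4 ≤ 3, 4 ≤ 0 (x = 1, y = 0 implies s = 0), 5 ≤ 0 if ¬ lit, 5 ≤ A,
18 ≤ A (A(j, w) has z = 1 - x in all phases), 16 ≤ 6, 17 ≤ 6 (x = 1 implies 6: 1), 16 ≤ 7, 13 ≤ 7,
10 ≤ 9, 13 ≤ 8, 12 ≤ 11, 15 ≤ 14, 21 ≤ 20, 22 ≤ 19, 25 ≤ 24, 27 ≤ 26`; `jarc`: `1 = β j 0` at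
`cell N j 0 2`; `y` at `cell N j w 14` is `s` at `cell N j (w+1) 2`; `3 ≤ 10`, `11 ≤ 21`, and
`y = β j N = 0` at `w = N - 1`. `clu` (a block of the cluster with `z = ty - 2`; give it for every block
of type `≥ 2`): `{0, 1}`: `1 - s = 0` or `s = 0`; `{4, 5, 6, 7}`: the one given by `(x, y)`;
`{8, 9}`, `{12, 13}`, `{15, 16}`, `{17, 18}`, `{19, 20}`; initial `{2i, 2i+1}`: one of the two literals of a
variable is false (`α = 1`, `z = 0`); `{25}`, `{26}`.
-/

set_option autoImplicit false

namespace Pool.Agent.Helper69.TwoLen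

variable {n m : ℕ} {lit : ℕ → ℕ → Prop}

/-- the value of a block, by its kind -/
private def vv61 (x s y : ℕ) : ℕ → ℕ
  | 0 => 1 - s
  | 1 => s
  | 2 => s
  | 3 => x
  | 4 => if x = 1 ∧ y = 0 then 1 else 0
  | 5 => if x = 0 ∧ y = 0 then 1 else 0
  | 6 => if x = 0 ∧ y = 1 then 0 else 1
  | 7 => if x = 1 ∧ y = 1 then 0 else 1
  | 8 => 1 - x
  | 9 => x
  | 10 => x
  | 11 => x
  | 12 => x
  | 13 => 1 - x
  | 14 => y
  | 15 => y
  | 16 => 1 - y
  | 17 => x
  | 18 => 1 - x
  | 19 => 1 - x
  | 20 => x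
  | 21 => x
  | 22 => 1 - x
  | 23 => 1 - x
  | 24 => 1
  | 25 => 1
  | _ => 0

private theorem vv_le61 {x s y k : ℕ} (hx : x ≤ 1) (hs : s ≤ 1) (hy : y ≤ 1) :
    vv61 x s y k ≤ 1 := by
  unfold vv61
  split <;> (try split_ifs) <;> omega

/-- the value of the block `b` -/
private def zz61 (N m : ℕ) (α : ℕ → ℕ) (β : ℕ → ℕ → ℕ) (b : ℕ) : ℕ :=
  if b < N + m * (23 * N + 4) then
    vv61 (α (wire N b)) (β (ph N b) (wire N b)) (β (ph N b) (wire N b + 1)) (kind N b) else 0

section

variable {N j w k : ℕ} {α : ℕ → ℕ} {β : ℕ → ℕ → ℕ}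

private theorem lt_B61 (hj : j < m) (hk : k < 23 * N + 4) : ee N j + k < N + m * (23 * N + 4) := by
  have := ee_mono (N := N) hj
  have h2 : N + m * (23 * N + 4) = ee N m := rfl
  omega

private theorem cell_lt61 (hj : j < m) (hw : w < N) (hk : k < 19) :
    cell N j w k < N + m * (23 * N + 4) := by
  rw [cell_eq]
  exact lt_B61 hj (by omega)

private theorem grp_lt61 (hj : j < m) (hw : w < N) (hk : k < 4) :
    grp N j w k < N + m * (23 * N + 4) := by
  rw [grp_eq]
  exact lt_B61 hj (by omega)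

private theorem zz_cell61 (hj : j < m) (hw : w < N) (hk : k < 19) :
    zz61 N m α β (cell N j w k) = vv61 (α w) (β j w) (β j (w + 1)) k := by
  unfold zz61
  rw [if_pos (cell_lt61 hj hw hk), wire_cell hw hk, ph_cell hw hk, kind_cell hw hk]

private theorem zz_grp61 (hj : j < m) (hw : w < N) (hk : k < 4) :
    zz61 N m α β (grp N j w k) = vv61 (α w) (β j w) (β j (w + 1)) (19 + k) := by
  unfold zz61
  rw [if_pos (grp_lt61 hj hw hk), wire_grp hw hk, ph_grp hw hk, kind_grp hw hk]

private theorem zz_ini61 {b : ℕ} (hb : b < N) :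
    zz61 N m α β b = 1 - α (N - 1 - b) := by
  unfold zz61
  rw [if_pos (by omega), wire_ini hb, kind_ini hb]
  rfl

private theorem zz_st61 (hj : j < m) (hk : k < 2) : zz61 N m α β (ee N j + k) = 1 := by
  unfold zz61
  rw [if_pos (lt_B61 hj (by omega)), kind_st hk]
  interval_cases k <;> rfl

private theorem zz_en61 (hj : j < m) (hk : k < 2) :
    zz61 N m α β (ee N j + (2 + 19 * N + k)) = 0 := by
  unfold zz61
  rw [if_pos (lt_B61 hj (by omega)), kind_en hk]
  interval_cases k <;> rfl

private theorem cell_add61 (c : ℕ) : cell N j w k + c = cell N j w (k + c) := Nat.add_assoc _ _ _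

private theorem grp_add61 (c : ℕ) : grp N j w k + c = grp N j w (k + c) := Nat.add_assoc _ _ _

private theorem clu_range61 {nx : ℕ → ℕ} {base k0 k1 c k : ℕ} (hc : k0 ≤ c) (hc' : c ≤ k1)
    (hk : k0 ≤ k) (hk' : k ≤ k1) (h : ∀ t, k0 ≤ t → t < k1 → nx (base + t) = 1) :
    (base + k ≤ base + c ∧ ∀ t, base + k ≤ t → t < base + c → nx t = 1) ∨
      (base + c ≤ base + k ∧ ∀ t, base + c ≤ t → t < base + k → nx t = 1) := by
  rcases le_total k c with h1 | h1
  · left
    refine ⟨by omega, fun t h2 h3 => ?_⟩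
    have h4 := h (t - base) (by omega) (by omega)
    rwa [Nat.add_sub_cancel' (by omega)] at h4
  · right
    refine ⟨by omega, fun t h2 h3 => ?_⟩
    have h4 := h (t - base) (by omega) (by omega)
    rwa [Nat.add_sub_cancel' (by omega)] at h4

/-- offsets of the first arcs in a cell -/
private def t0_61 : ℕ → ℕ
  | 0 => 4
  | 1 => 1
  | 9 => 1
  | 11 => 1
  | 14 => 1
  | 6 => 10
  | 7 => 6
  | _ => 0

/-- offsets of the second arcs in a cell -/
private def t1_61 : ℕ → ℕ
  | 0 => 5
  | 3 => 1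
  | 6 => 11
  | 7 => 9
  | 8 => 5
  | _ => 0

private theorem u0_cell61 (hw : w < N) (hk : k < 19) (h : cell N j w k < u0 N m (cell N j w k)) :
    u0 N m (cell N j w k) = cell N j w (k + t0_61 k) ∧ t0_61 k ≠ 0 := by
  revert h
  unfold u0
  rw [kind_cell hw hk]
  simp only [cell_add61]
  interval_cases k <;> simp [t0_61]

private theorem u1_cell61 (hw : w < N) (hk : k < 19)
    (h : cell N j w k < u1 N m lit (cell N j w k)) :
    u1 N m lit (cell N j w k) = cell N j w (k + t1_61 k) ∧ t1_61 k ≠ 0 ∧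
      (k = 0 → ¬ lit w j) := by
  revert h
  unfold u1
  rw [kind_cell hw hk, wire_cell hw hk, ph_cell hw hk]
  simp only [cell_add61]
  interval_cases k
  · by_cases hl : lit w j <;> simp [t1_61, hl]
  all_goals simp [t1_61]

end

private theorem arc61 {N : ℕ} {α : ℕ → ℕ} {β : ℕ → ℕ → ℕ} (hm : 0 < m) (hα : ∀ w, α w ≤ 1)
    (hβ : ∀ j w, β j w ≤ 1)
    (hβ1 : ∀ j w, β j (w + 1) = 0 → β j w = 1 → lit w j ∧ α w = 0)
    {i b : ℕ} (hi : i < 2) (hb : b < N + m * (23 * N + 4))
    (hlt : b < (prog N m lit).u i b) :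
    zz61 N m α β ((prog N m lit).u i b) ≤ zz61 N m α β b := by
  rcases block_cases hb with h | ⟨j, hj, ⟨k, hk, rfl⟩ | ⟨w, hw, k, hk, rfl⟩ | ⟨k, hk, rfl⟩ |
    ⟨w, hw, k, hk, rfl⟩⟩
  · -- initial
    have hw : N - 1 - b < N := by omega
    have e0 : (prog N m lit).u 0 b = cell N 0 (N - 1 - b) 5 := by
      change u0 N m b = _
      unfold u0
      rw [kind_ini h, wire_ini h]
      simp
    have e1 : (prog N m lit).u 1 b = cell N 0 (N - 1 - b) 18 := by
      change u1 N m lit b = _
      unfold u1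
      rw [kind_ini h, wire_ini h]
      simp
    have hx := hα (N - 1 - b)
    interval_cases i
    · rw [e0, zz_cell61 hm hw (by omega), zz_ini61 h]
      change (if α (N - 1 - b) = 0 ∧ _ then 1 else 0) ≤ _
      split_ifs <;> omega
    · rw [e1, zz_cell61 hm hw (by omega), zz_ini61 h]
      exact le_rfl
  · -- start
    interval_cases k
    · interval_cases i
      · have e0 : (prog N m lit).u 0 (ee N j + 0) = ee N j + 1 := by
          change u0 N m _ = _
          unfold u0
          rw [kind_st (by omega)]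
          simp
        rw [e0, zz_st61 hj (by omega), zz_st61 hj (by omega)]
      · exfalso
        have e0 : (prog N m lit).u 1 (ee N j + 0) = 0 := by
          change u1 N m lit _ = _
          unfold u1
          rw [kind_st (by omega)]
          simp
        rw [e0] at hlt
        omega
    · exfalso
      have e0 : (prog N m lit).u i (ee N j + 1) = 0 := by
        interval_cases i
        · change u0 N m _ = _
          unfold u0
          rw [kind_st (by omega)]
          simp
        · change u1 N m lit _ = _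
          unfold u1
          rw [kind_st (by omega)]
          simp
      rw [e0] at hlt
      omega
  · -- cell
    have hx := hα w
    have hs := hβ j w
    have hy := hβ j (w + 1)
    have hxy := hβ1 j w
    rw [zz_cell61 hj hw hk]
    interval_cases i
    · obtain ⟨e0, e1⟩ := u0_cell61 (m := m) hw hk hlt
      have e2 : (prog N m lit).u 0 (cell N j w k) = cell N j w (k + t0_61 k) := e0
      have e3 : k + t0_61 k < 19 := by
        interval_cases k <;> simp [t0_61]
      rw [e2, zz_cell61 hj hw e3]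
      generalize α w = x at *
      generalize β j w = s at *
      generalize β j (w + 1) = y at *
      interval_cases k <;> simp only [t0_61, vv61, ne_eq, not_true_eq_false] at e1 ⊢ <;>
        (try split_ifs) <;> omega
    · obtain ⟨e0, e1, e4⟩ := u1_cell61 (m := m) hw hk hlt
      have e2 : (prog N m lit).u 1 (cell N j w k) = cell N j w (k + t1_61 k) := e0
      have e3 : k + t1_61 k < 19 := by
        interval_cases k <;> simp [t1_61]
      rw [e2, zz_cell61 hj hw e3]
      have e5 : k = 0 → ¬ (β j (w + 1) = 0 ∧ β j w = 1) := fun h1 h2 =>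
        e4 h1 (hxy h2.1 h2.2).1
      have e6 : ¬ (β j (w + 1) = 0 ∧ β j w = 1 ∧ α w ≠ 0) := fun h2 =>
        h2.2.2 (hxy h2.1 h2.2.1).2
      clear hxy e4 hβ1
      generalize α w = x at *
      generalize β j w = s at *
      generalize β j (w + 1) = y at *
      interval_cases k <;> simp only [t1_61, vv61, ne_eq, not_true_eq_false] at e1 ⊢ <;>
        (try split_ifs) <;> omega
  · -- end
    interval_cases k
    · interval_cases i
      · have e0 : (prog N m lit).u 0 (ee N j + (2 + 19 * N + 0)) = ee N j + (2 + 19 * N + 1) := by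
          change u0 N m _ = _
          unfold u0
          rw [kind_en (by omega)]
          simp
          omega
        rw [e0, zz_en61 hj (by omega), zz_en61 hj (by omega)]
      · exfalso
        have e0 : (prog N m lit).u 1 (ee N j + (2 + 19 * N + 0)) = 0 := by
          change u1 N m lit _ = _
          unfold u1
          rw [kind_en (by omega)]
          simp
        rw [e0] at hlt
        omega
    · exfalso
      have e0 : (prog N m lit).u i (ee N j + (2 + 19 * N + 1)) = 0 := by
        interval_cases i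
        · change u0 N m _ = _
          unfold u0
          rw [kind_en (by omega)]
          simp
        · change u1 N m lit _ = _
          unfold u1
          rw [kind_en (by omega)]
          simp
      rw [e0] at hlt
      omega
  · -- group
    have hx := hα w
    rw [zz_grp61 hj hw hk]
    interval_cases i
    · have e0 : (prog N m lit).u 0 (grp N j w k) = if k = 0 then grp N j w 3 else
          if k = 1 then grp N j w 2 else if k = 3 ∧ j + 1 < m then cell N (j + 1) w 5 else 0 := by
        change u0 N m _ = _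
        unfold u0
        rw [kind_grp hw hk, wire_grp hw hk, ph_grp hw hk]
        simp only [grp_add61]
        interval_cases k <;> simp
      rw [e0] at hlt ⊢
      split_ifs at hlt ⊢ with h1 h2 h3
      · subst h1
        rw [zz_grp61 hj hw (by omega)]
        exact le_rfl
      · subst h2
        rw [zz_grp61 hj hw (by omega)]
        exact le_rfl
      · rw [h3.1, zz_cell61 h3.2 hw (by omega)]
        change (if α w = 0 ∧ _ then 1 else 0) ≤ 1 - α w
        split_ifs <;> omega
      · omega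
    · have e0 : (prog N m lit).u 1 (grp N j w k) = if k = 3 ∧ j + 1 < m then
          cell N (j + 1) w 18 else 0 := by
        change u1 N m lit _ = _
        unfold u1
        rw [kind_grp hw hk, wire_grp hw hk, ph_grp hw hk]
        interval_cases k <;> simp
      rw [e0] at hlt ⊢
      split_ifs at hlt ⊢ with h3
      · rw [h3.1, zz_cell61 h3.2 hw (by omega)]
        exact le_rfl
      · omega

private theorem jarc61 {N : ℕ} {α : ℕ → ℕ} {β : ℕ → ℕ → ℕ} (hN : 0 < N)
    (hβ0 : ∀ j, β j 0 = 1) (hβN : ∀ j < m, β j N = 0)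
    {b : ℕ} (hb : b < N + m * (23 * N + 4))
    (hty : (prog N m lit).ty b = 1) (hlt : b < (prog N m lit).J b) :
    zz61 N m α β b ≤ zz61 N m α β ((prog N m lit).J b) := by
  have h1 := (jArc_cases hN hb hty).resolve_right fun h' => by
    have := (jArc_spec (lit := lit) hN h').1
    omega
  obtain ⟨j, hj, ⟨h2, h3⟩ | ⟨w, hw, h2, h3⟩ | ⟨h2, h3⟩ | ⟨w, hw, h2, h3⟩ | ⟨w, hw, h2, h3⟩⟩ := h1
  · rw [h3, h2, zz_cell61 hj hN (by omega)]
    have h4 := zz_st61 (m := m) (N := N) (α := α) (β := β) (k := 0) hj (by omega)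
    rw [add_zero] at h4
    rw [h4]
    change 1 ≤ β j 0
    rw [hβ0]
  · rw [h3, h2, zz_cell61 hj (by omega) (by omega), zz_cell61 hj hw (by omega)]
    exact le_rfl
  · rw [h2, zz_cell61 hj (by omega) (by omega)]
    change β j (N - 1 + 1) ≤ _
    rw [Nat.sub_add_cancel hN, hβN j hj]
    exact Nat.zero_le _
  · rw [h3, h2, zz_cell61 hj hw (by omega), zz_cell61 hj hw (by omega)]
    exact le_rfl
  · rw [h3, h2, zz_cell61 hj hw (by omega), zz_grp61 hj hw (by omega)]
    exact le_rfl

/-- types by kinds -/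
private def tyt61 : ℕ → ℕ
  | 22 => 0
  | 2 => 1
  | 3 => 1
  | 10 => 1
  | 11 => 1
  | 14 => 1
  | 21 => 1
  | 24 => 1
  | 27 => 1
  | 0 => 2
  | 1 => 2
  | 6 => 2
  | 7 => 2
  | 8 => 2
  | 9 => 2
  | 19 => 2
  | 20 => 2
  | 23 => 2
  | 26 => 2
  | _ => 3

private theorem tp_cell61 {N j w k : ℕ} (hw : w < N) (hk : k < 19) :
    tp N (cell N j w k) = tyt61 k := by
  unfold tp
  rw [kind_cell hw hk]
  interval_cases k <;> simp [tyt61]

private theorem tp_grp61 {N j w k : ℕ} (hw : w < N) (hk : k < 4) :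
    tp N (grp N j w k) = tyt61 (19 + k) := by
  unfold tp
  rw [kind_grp hw hk]
  interval_cases k <;> simp [tyt61]

private theorem cell_clu61 {N j w k k0 k1 c : ℕ} {α : ℕ → ℕ} {β : ℕ → ℕ → ℕ} (hj : j < m)
    (hw : w < N) (hc : k0 ≤ c) (hc' : c ≤ k1) (hk : k0 ≤ k) (hk' : k ≤ k1) (hk1 : k1 < 19)
    (hnx : ∀ t, k0 ≤ t → t < k1 → lk N (cell N j w t) = 1)
    (hz : vv61 (α w) (β j w) (β j (w + 1)) c + 2 = tyt61 c) :
    ∃ c < N + m * (23 * N + 4),
      zz61 N m α β c + 2 = (prog N m lit).ty c ∧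
      ((cell N j w k ≤ c ∧ ∀ t, cell N j w k ≤ t → t < c → (prog N m lit).nx t = 1) ∨
        (c ≤ cell N j w k ∧ ∀ t, c ≤ t → t < cell N j w k → (prog N m lit).nx t = 1)) := by
  refine ⟨cell N j w c, cell_lt61 hj hw (by omega), ?_, ?_⟩
  · rw [zz_cell61 hj hw (by omega), hz]
    exact (tp_cell61 hw (by omega)).symm
  · have h1 := clu_range61 (nx := (prog N m lit).nx) (base := cell N j w 0) hc hc' hk hk'
      (fun t h2 h3 => by
        rw [cell_add61, zero_add]
        exact hnx t h2 h3)
    simp only [cell_add61, zero_add] at h1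
    exact h1

private theorem clu61 {α : ℕ → ℕ} {β : ℕ → ℕ → ℕ} (hα : ∀ w, α w ≤ 1)
    (hβ : ∀ j w, β j w ≤ 1) (hpair : ∀ i, α (2 * i) = 1 ∨ α (2 * i + 1) = 1)
    {b : ℕ} (hb : b < 2 * n + m * (23 * (2 * n) + 4))
    (hty : 2 ≤ (prog (2 * n) m lit).ty b) : ∃ c < 2 * n + m * (23 * (2 * n) + 4),
      zz61 (2 * n) m α β c + 2 = (prog (2 * n) m lit).ty c ∧
      ((b ≤ c ∧ ∀ t, b ≤ t → t < c → (prog (2 * n) m lit).nx t = 1) ∨
        (c ≤ b ∧ ∀ t, c ≤ t → t < b → (prog (2 * n) m lit).nx t = 1)) := by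
  rcases block_cases hb with h | ⟨j, hj, ⟨k, hk, rfl⟩ | ⟨w, hw, k, hk, rfl⟩ | ⟨k, hk, rfl⟩ |
    ⟨w, hw, k, hk, rfl⟩⟩
  · -- initial
    have htp : ∀ c < 2 * n, (prog (2 * n) m lit).ty c = 2 := fun c hc => by
      change tp (2 * n) c = 2
      unfold tp
      rw [kind_ini hc]
      simp
    have hx : ∀ t, 0 ≤ t → t < 1 → (prog (2 * n) m lit).nx (2 * (b / 2) + t) = 1 := by
      intro t _ ht
      have ht0 : t = 0 := by omega
      subst ht0
      change lk (2 * n) (2 * (b / 2) + 0) = 1
      unfold lk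
      rw [kind_ini (by omega)]
      simp
    have key : ∀ c ≤ 1, α (2 * n - 1 - (2 * (b / 2) + c)) = 1 →
        ∃ c < 2 * n + m * (23 * (2 * n) + 4),
      zz61 (2 * n) m α β c + 2 = (prog (2 * n) m lit).ty c ∧
      ((b ≤ c ∧ ∀ t, b ≤ t → t < c → (prog (2 * n) m lit).nx t = 1) ∨
        (c ≤ b ∧ ∀ t, c ≤ t → t < b → (prog (2 * n) m lit).nx t = 1)) := by
      intro c hc h1
      have h2 : 2 * (b / 2) + c < 2 * n := by omega
      refine ⟨2 * (b / 2) + c, by omega, ?_, ?_⟩
      · rw [zz_ini61 h2, htp _ h2, h1]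
      · have h3 := clu_range61 (nx := (prog (2 * n) m lit).nx) (base := 2 * (b / 2)) (k0 := 0)
          (k1 := 1) (c := c) (k := b % 2) (by omega) hc (by omega) (by omega) hx
        rwa [Nat.div_add_mod] at h3
    rcases hpair (n - 1 - b / 2) with h1 | h1
    · apply key 1 le_rfl
      rw [show 2 * n - 1 - (2 * (b / 2) + 1) = 2 * (n - 1 - b / 2) by omega]
      exact h1
    · apply key 0 (by omega)
      rw [show 2 * n - 1 - (2 * (b / 2) + 0) = 2 * (n - 1 - b / 2) + 1 by omega]
      exact h1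
  · -- start
    have htp : (prog (2 * n) m lit).ty (ee (2 * n) j + k) = tyt61 (24 + k) := by
      change tp (2 * n) _ = _
      unfold tp
      rw [kind_st hk]
      interval_cases k <;> simp [tyt61]
    interval_cases k
    · rw [htp] at hty
      exact absurd hty (by simp [tyt61])
    · refine ⟨_, hb, ?_, Or.inl ⟨le_rfl, fun t h1 h2 => by omega⟩⟩
      rw [zz_st61 hj (by omega), htp]
      rfl
  · -- cell
    have hx := hα w
    have hs := hβ j w
    have hy := hβ j (w + 1)
    have hty' : 2 ≤ tyt61 k := by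
      rw [← tp_cell61 (j := j) hw hk]
      exact hty
    have h1 : k ≤ 1 ∨ (4 ≤ k ∧ k ≤ 7) ∨ (8 ≤ k ∧ k ≤ 9) ∨ (12 ≤ k ∧ k ≤ 13) ∨
        (15 ≤ k ∧ k ≤ 16) ∨ (17 ≤ k ∧ k ≤ 18) := by
      clear hty hb
      interval_cases k <;> simp [tyt61] at hty' ⊢
    have hlk : ∀ t, t < 19 → (t = 0 ∨ t = 4 ∨ t = 5 ∨ t = 6 ∨ t = 8 ∨ t = 12 ∨ t = 15 ∨ t = 17) →
        lk (2 * n) (cell (2 * n) j w t) = 1 := by
      intro t ht h2
      unfold lk
      rw [kind_cell hw ht, if_pos]
      omega
    rcases h1 with h1 | h1 | h1 | h1 | h1 | h1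
    · rcases Nat.eq_zero_or_pos (β j w) with h2 | h2
      · refine cell_clu61 (k0 := 0) (k1 := 1) (c := 1) hj hw (by omega) (by omega) (by omega) h1
          (by omega) (fun t h3 h4 => hlk t (by omega) (by omega)) ?_
        change β j w + 2 = 2
        omega
      · refine cell_clu61 (k0 := 0) (k1 := 1) (c := 0) hj hw (by omega) (by omega) (by omega) h1
          (by omega) (fun t h3 h4 => hlk t (by omega) (by omega)) ?_
        change 1 - β j w + 2 = 2
        omega
    · have h5 : ∀ t, 4 ≤ t → t < 7 → lk (2 * n) (cell (2 * n) j w t) = 1 := fun t h3 h4 =>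
        hlk t (by omega) (by omega)
      rcases Nat.eq_zero_or_pos (α w) with h2 | h2
      · rcases Nat.eq_zero_or_pos (β j (w + 1)) with h3 | h3
        · refine cell_clu61 (k0 := 4) (k1 := 7) (c := 5) hj hw (by omega) (by omega) h1.1 h1.2
            (by omega) h5 ?_
          change (if α w = 0 ∧ β j (w + 1) = 0 then 1 else 0) + 2 = 3
          rw [if_pos ⟨h2, h3⟩]
        · refine cell_clu61 (k0 := 4) (k1 := 7) (c := 6) hj hw (by omega) (by omega) h1.1 h1.2
            (by omega) h5 ?_
          change (if α w = 0 ∧ β j (w + 1) = 1 then 0 else 1) + 2 = 2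
          rw [if_pos ⟨h2, by omega⟩]
      · rcases Nat.eq_zero_or_pos (β j (w + 1)) with h3 | h3
        · refine cell_clu61 (k0 := 4) (k1 := 7) (c := 4) hj hw (by omega) (by omega) h1.1 h1.2
            (by omega) h5 ?_
          change (if α w = 1 ∧ β j (w + 1) = 0 then 1 else 0) + 2 = 3
          rw [if_pos ⟨by omega, h3⟩]
        · refine cell_clu61 (k0 := 4) (k1 := 7) (c := 7) hj hw (by omega) (by omega) h1.1 h1.2
            (by omega) h5 ?_
          change (if α w = 1 ∧ β j (w + 1) = 1 then 0 else 1) + 2 = 2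
          rw [if_pos ⟨by omega, by omega⟩]
    · have h5 : ∀ t, 8 ≤ t → t < 9 → lk (2 * n) (cell (2 * n) j w t) = 1 := fun t h3 h4 =>
        hlk t (by omega) (by omega)
      rcases Nat.eq_zero_or_pos (α w) with h2 | h2
      · refine cell_clu61 (k0 := 8) (k1 := 9) (c := 9) hj hw (by omega) (by omega) h1.1 h1.2
          (by omega) h5 ?_
        change α w + 2 = 2
        omega
      · refine cell_clu61 (k0 := 8) (k1 := 9) (c := 8) hj hw (by omega) (by omega) h1.1 h1.2
          (by omega) h5 ?_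
        change 1 - α w + 2 = 2
        omega
    · have h5 : ∀ t, 12 ≤ t → t < 13 → lk (2 * n) (cell (2 * n) j w t) = 1 := fun t h3 h4 =>
        hlk t (by omega) (by omega)
      rcases Nat.eq_zero_or_pos (α w) with h2 | h2
      · refine cell_clu61 (k0 := 12) (k1 := 13) (c := 13) hj hw (by omega) (by omega) h1.1 h1.2
          (by omega) h5 ?_
        change 1 - α w + 2 = 3
        omega
      · refine cell_clu61 (k0 := 12) (k1 := 13) (c := 12) hj hw (by omega) (by omega) h1.1 h1.2
          (by omega) h5 ?_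
        change α w + 2 = 3
        omega
    · have h5 : ∀ t, 15 ≤ t → t < 16 → lk (2 * n) (cell (2 * n) j w t) = 1 := fun t h3 h4 =>
        hlk t (by omega) (by omega)
      rcases Nat.eq_zero_or_pos (β j (w + 1)) with h2 | h2
      · refine cell_clu61 (k0 := 15) (k1 := 16) (c := 16) hj hw (by omega) (by omega) h1.1 h1.2
          (by omega) h5 ?_
        change 1 - β j (w + 1) + 2 = 3
        omega
      · refine cell_clu61 (k0 := 15) (k1 := 16) (c := 15) hj hw (by omega) (by omega) h1.1 h1.2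
          (by omega) h5 ?_
        change β j (w + 1) + 2 = 3
        omega
    · have h5 : ∀ t, 17 ≤ t → t < 18 → lk (2 * n) (cell (2 * n) j w t) = 1 := fun t h3 h4 =>
        hlk t (by omega) (by omega)
      rcases Nat.eq_zero_or_pos (α w) with h2 | h2
      · refine cell_clu61 (k0 := 17) (k1 := 18) (c := 18) hj hw (by omega) (by omega) h1.1 h1.2
          (by omega) h5 ?_
        change 1 - α w + 2 = 3
        omega
      · refine cell_clu61 (k0 := 17) (k1 := 18) (c := 17) hj hw (by omega) (by omega) h1.1 h1.2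
          (by omega) h5 ?_
        change α w + 2 = 3
        omega
  · -- end
    have htp : (prog (2 * n) m lit).ty (ee (2 * n) j + (2 + 19 * (2 * n) + k)) =
        tyt61 (26 + k) := by
      change tp (2 * n) _ = _
      unfold tp
      rw [kind_en hk]
      interval_cases k <;> simp [tyt61]
    interval_cases k
    · refine ⟨_, hb, ?_, Or.inl ⟨le_rfl, fun t h1 h2 => by omega⟩⟩
      rw [zz_en61 hj (by omega), htp]
      rfl
    · rw [htp] at hty
      exact absurd hty (by simp [tyt61])
  · -- group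
    have hx := hα w
    have hty' : 2 ≤ tyt61 (19 + k) := by
      rw [← tp_grp61 (j := j) hw hk]
      exact hty
    have hk1 : k ≤ 1 := by
      clear hty hb
      interval_cases k <;> simp [tyt61] at hty' ⊢
    have hnx : ∀ t, 0 ≤ t → t < 1 → (prog (2 * n) m lit).nx (grp (2 * n) j w 0 + t) = 1 := by
      intro t _ ht
      have ht0 : t = 0 := by omega
      subst ht0
      change lk (2 * n) (grp (2 * n) j w 0) = 1
      unfold lk
      rw [kind_grp hw (by omega)]
      simp
    have key : ∀ c ≤ 1, vv61 (α w) (β j w) (β j (w + 1)) (19 + c) = 0 →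
        ∃ c < 2 * n + m * (23 * (2 * n) + 4),
      zz61 (2 * n) m α β c + 2 = (prog (2 * n) m lit).ty c ∧
      ((grp (2 * n) j w k ≤ c ∧ ∀ t, grp (2 * n) j w k ≤ t → t < c →
        (prog (2 * n) m lit).nx t = 1) ∨
        (c ≤ grp (2 * n) j w k ∧ ∀ t, c ≤ t → t < grp (2 * n) j w k →
          (prog (2 * n) m lit).nx t = 1)) := by
      intro c hc h1
      refine ⟨grp (2 * n) j w c, grp_lt61 hj hw (by omega), ?_, ?_⟩
      · rw [zz_grp61 hj hw (by omega), h1]
        refine Eq.trans ?_ (tp_grp61 hw (by omega)).symm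
        interval_cases c <;> rfl
      · have h3 := clu_range61 (nx := (prog (2 * n) m lit).nx) (base := grp (2 * n) j w 0) (k0 := 0)
          (k1 := 1) (c := c) (k := k) (by omega) hc (by omega) (by omega) hnx
        simp only [grp_add61, zero_add] at h3
        exact h3
    rcases Nat.eq_zero_or_pos (α w) with h2 | h2
    · exact key 1 le_rfl h2
    · apply key 0 (by omega)
      change 1 - α w = 0
      omega

theorem sol_complete (hn : 0 < n) (hm : 0 < m) {a : ℕ → ℕ} (ha : ∀ i, a i ≤ 1)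
    (h : ∀ j < m, ∃ i < n, lit (2 * i + a i) j) : ∃ z, (prog (2 * n) m lit).Sol z := by
  classical
  set α : ℕ → ℕ := fun w => if w % 2 = a (w / 2) then 0 else 1 with hαdef
  set β : ℕ → ℕ → ℕ := fun j w => if ∃ w' < w, lit w' j ∧ α w' = 0 then 0 else 1 with hβdef
  have hα : ∀ w, α w ≤ 1 := fun w => by simp only [hαdef]; split_ifs <;> omega
  have hβ : ∀ j w, β j w ≤ 1 := fun j w => by simp only [hβdef]; split_ifs <;> omega
  have hβ0 : ∀ j, β j 0 = 1 := fun j => by
    simp only [hβdef]
    rw [if_neg]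
    rintro ⟨w', h1, -⟩
    omega
  have hβN : ∀ j < m, β j (2 * n) = 0 := fun j hj => by
    simp only [hβdef]
    rw [if_pos]
    obtain ⟨i, h1, h2⟩ := h j hj
    have h3 := ha i
    refine ⟨2 * i + a i, by omega, h2, ?_⟩
    simp only [hαdef]
    have e1 : (2 * i + a i) / 2 = i := by omega
    rw [if_pos]
    rw [e1]
    omega
  have hβ1 : ∀ j w, β j (w + 1) = 0 → β j w = 1 → lit w j ∧ α w = 0 := by
    intro j w h1 h2
    simp only [hβdef] at h1 h2
    have h3 : ∃ w' < w + 1, lit w' j ∧ α w' = 0 := by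
      by_contra hc
      rw [if_neg hc] at h1
      omega
    have h4 : ¬ ∃ w' < w, lit w' j ∧ α w' = 0 := by
      intro hc
      rw [if_pos hc] at h2
      omega
    obtain ⟨w', h5, h6⟩ := h3
    have h7 : w' = w := by
      by_contra hc
      exact h4 ⟨w', by omega, h6⟩
    rwa [h7] at h6
  have hpair : ∀ i, α (2 * i) = 1 ∨ α (2 * i + 1) = 1 := by
    intro i
    have h3 := ha i
    simp only [hαdef]
    have e1 : 2 * i / 2 = i := by omega
    have e2 : (2 * i + 1) / 2 = i := by omega
    have e3 : 2 * i % 2 = 0 := by omega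
    have e4 : (2 * i + 1) % 2 = 1 := by omega
    rw [e1, e2, e3, e4]
    split_ifs <;> omega
  refine ⟨zz61 (2 * n) m α β, ?_, ?_, ?_, ?_⟩
  · intro b
    unfold zz61
    split_ifs
    · exact vv_le61 (hα _) (hβ _ _) (hβ _ _)
    · omega
  · intro i hi b hb hlt
    exact arc61 hm hα hβ hβ1 hi hb hlt
  · intro b hb hty hlt
    exact jarc61 (by omega) hβ0 hβN hb hty hlt
  · intro b hb hty
    exact clu61 hα hβ hpair hb hty

end Pool.Agent.Helper69.TwoLen
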