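import Pool.Agent.Helper69.TwoLen.PB2
import Pool.Agent.Helper69.TwoLen.PB3
import Pool.Agent.Helper69.TwoLen.PB5
import Pool.Agent.Helper69.TwoLen.PB6
import Pool.Agent.Helper69.TwoLen.PB7

/-!
# Part B: the program of a CNF
-/

set_option autoImplicit false

namespace Pool.Agent.Helper69.TwoLen

variable {n m p : ℕ} {lit : ℕ → ℕ → Prop}

theorem prog_good (hn : 0 < n) (hm : 0 < m) (hp : 4 ≤ p) : (prog (2 * n) m lit).Good p where
  u_lt := fun i hi b hb => prog_u_lt (by omega) hm hi hb
  nc := fun i hi i' hi' a ha b hb hab hbc hcd =>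
    arc_nc (arc_cases hi ha (hab.trans hbc)) (arc_cases hi' hb (hbc.trans hcd)) hab hbc hcd
  deg_lt := fun b hb => (prog_deg hb).trans_lt (by omega)
  J_lt := fun b hb h => by
    rcases jArc_cases (by omega) hb h with h1 | h1
    · exact (jArc_spec (lit := lit) (by omega) h1).2.1
    · have := (jArc_spec (lit := lit) (by omega) h1).1
      exact this.trans hb
  J_ne := fun b hb h => by
    rcases jArc_cases (by omega) hb h with h1 | h1
    · exact (jArc_spec (lit := lit) (by omega) h1).1.ne'
    · exact (jArc_spec (lit := lit) (by omega) h1).1.ne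
  J_inv := fun b hb h => by
    rcases jArc_cases (by omega) hb h with h1 | h1
    · exact (jArc_spec (lit := lit) (by omega) h1).2.2.2.2.2
    · exact (jArc_spec (lit := lit) (by omega) h1).2.2.2.2.1
  J_ty := fun b hb h => by
    rcases jArc_cases (by omega) hb h with h1 | h1
    · exact (jArc_spec (lit := lit) (by omega) h1).2.2.2.1
    · exact (jArc_spec (lit := lit) (by omega) h1).2.2.1
  Jnc := fun a ha b hb hta htb hab hbc hcd => by
    have h1 := (jArc_cases (by omega) ha hta).resolve_right fun h' =>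
      absurd (jArc_spec (lit := lit) (by omega) h').1 (by omega)
    have h2 := (jArc_cases (by omega) hb htb).resolve_right fun h' =>
      absurd (jArc_spec (lit := lit) (by omega) h').1 (by omega)
    exact jArc_nc (by omega) h1 h2 hab hbc hcd
  ty_le := fun b _ => prog_ty_le b
  link := fun b hb h => prog_link rfl hb h

theorem prog_sol_iff (hn : 0 < n) (hm : 0 < m) : (∃ z, (prog (2 * n) m lit).Sol z) ↔
    ∃ a : ℕ → ℕ, (∀ i, a i ≤ 1) ∧ ∀ j < m, ∃ i < n, lit (2 * i + a i) j :=
  ⟨fun ⟨_, hz⟩ => sol_sound hn hz, fun ⟨_, ha, h⟩ => sol_complete hn hm ha h⟩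

end Pool.Agent.Helper69.TwoLen
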