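import Pool.Agent.Helper69.TwoLen.ADefs

/-!
# Block TL-A1: job numbers and pairs

The job number `z < B (p + 8)` corresponds to the pair `(z / (p + 8), z % (p + 8))`. Given `A`, `S`
as in `Feas`, take the image of `A` under this (injective) map and `S' (b, i) = S (b (p+8) + i)`;
conversely the image under `(b, i) ↦ b (p + 8) + i` (injective for `i < p + 8`).
`P p z = len p (z % (p + 8))`, `R`, `D` are `r`, `d` of the pair by definition.
`B (p+8) ≤ |A| + 5 B` iff `(p + 3) B ≤ |A|`.
-/

set_option autoImplicit false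

namespace Pool.Agent.Helper69.TwoLen.Prog

open Finset

theorem feas_iff_onTime (G : Prog) (p : ℕ) :
    Feas (G.B * (p + 8)) (5 * G.B) (P p) (G.R p) (G.D p) ↔
      ∃ (A : Finset (ℕ × ℕ)) (S : ℕ × ℕ → ℕ), G.OnTime p A S ∧ (p + 3) * G.B ≤ A.card := by
  have hq : 0 < p + 8 := by omega
  have hdiv : ∀ b i : ℕ, i < p + 8 → (b * (p + 8) + i) / (p + 8) = b := by
    intro b i hi
    rw [add_comm, Nat.add_mul_div_right _ _ hq, Nat.div_eq_of_lt hi, zero_add]
  have hmod : ∀ b i : ℕ, i < p + 8 → (b * (p + 8) + i) % (p + 8) = i := by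
    intro b i hi
    rw [add_comm, Nat.add_mul_mod_self_right, Nat.mod_eq_of_lt hi]
  have hback : ∀ z : ℕ, z / (p + 8) * (p + 8) + z % (p + 8) = z := fun z =>
    Nat.div_add_mod' z (p + 8)
  have hcnt : G.B * (p + 8) = (p + 3) * G.B + 5 * G.B := by ring
  constructor
  · rintro ⟨A, hA, S, hL, hwin, hdis⟩
    have hinj : Function.Injective (fun z : ℕ => (z / (p + 8), z % (p + 8))) := by
      intro z z' hz
      have h1 := hback z
      have h2 := hback z'
      simp only [Prod.mk.injEq] at hz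
      rw [hz.1, hz.2] at h1
      rw [← h1, ← h2]
      simp [h2]
    refine ⟨A.image fun z => (z / (p + 8), z % (p + 8)), fun x => S (x.1 * (p + 8) + x.2),
      ⟨?_, ?_, ?_⟩, ?_⟩
    · intro x hx
      obtain ⟨z, hz, rfl⟩ := Finset.mem_image.mp hx
      have h1 := Finset.mem_range.mp (hA hz)
      exact ⟨(Nat.div_lt_iff_lt_mul hq).mpr h1, Nat.mod_lt _ hq⟩
    · intro x hx
      obtain ⟨z, hz, rfl⟩ := Finset.mem_image.mp hx
      have h1 := hwin z hz
      simp only [hback]
      exact h1
    · intro x hx y hy hxy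
      obtain ⟨z, hz, rfl⟩ := Finset.mem_image.mp hx
      obtain ⟨z', hz', rfl⟩ := Finset.mem_image.mp hy
      have h1 : z ≠ z' := fun h => hxy (by rw [h])
      have h2 := hdis z hz z' hz' h1
      simp only [hback]
      exact h2
    · rw [Finset.card_image_of_injective _ hinj]
      omega
  · rintro ⟨A, S, hT, hc⟩
    have hinj : Set.InjOn (fun x : ℕ × ℕ => x.1 * (p + 8) + x.2) (A : Set (ℕ × ℕ)) := by
      intro x hx y hy hxy
      have hx2 := (hT.sub x hx).2
      have hy2 := (hT.sub y hy).2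
      simp only at hxy
      have h1 := hdiv x.1 x.2 hx2
      have h2 := hmod x.1 x.2 hx2
      rw [hxy, hdiv y.1 y.2 hy2] at h1
      rw [hxy, hmod y.1 y.2 hy2] at h2
      exact Prod.ext h1.symm h2.symm
    refine ⟨A.image fun x => x.1 * (p + 8) + x.2, ?_, fun z => S (z / (p + 8), z % (p + 8)),
      ?_, ?_, ?_⟩
    · intro z hz
      obtain ⟨x, hx, rfl⟩ := Finset.mem_image.mp hz
      have h1 := hT.sub x hx
      rw [Finset.mem_range]
      have h2 : (x.1 + 1) * (p + 8) ≤ G.B * (p + 8) := Nat.mul_le_mul_right _ h1.1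
      have h3 : (x.1 + 1) * (p + 8) = x.1 * (p + 8) + (p + 8) := by ring
      omega
    · rw [Finset.card_image_of_injOn hinj]
      omega
    · intro z hz
      obtain ⟨x, hx, rfl⟩ := Finset.mem_image.mp hz
      have h1 := (hT.sub x hx).2
      have h2 := hT.win x hx
      simp only [R, D, P, hdiv x.1 x.2 h1, hmod x.1 x.2 h1]
      exact h2
    · intro z hz z' hz' hne
      obtain ⟨x, hx, rfl⟩ := Finset.mem_image.mp hz
      obtain ⟨y, hy, rfl⟩ := Finset.mem_image.mp hz'
      have h1 := (hT.sub x hx).2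
      have h1' := (hT.sub y hy).2
      have h2 : x ≠ y := fun h => hne (by rw [h])
      have h3 := hT.dis x hx y hy h2
      simp only [P, hdiv x.1 x.2 h1, hmod x.1 x.2 h1, hdiv y.1 y.2 h1', hmod y.1 y.2 h1']
      exact h3

end Pool.Agent.Helper69.TwoLen.Prog
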