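import Pool.Agent.Helper69.TwoLen.ADefs

/-!
# Block TL-A2: counting unit jobs

Let an arc be a pair `(b, i)`, `b < B`, `i < 2`, with `b < u i b` (so `u i b < B`); `deg b` counts
the arcs with `b` as left or as right end. Slots of the block `b`: `4, 5` (job `e` of the arc
`(b, i)`, window gaps `[2b+1, 2u]`), `6, 7` (job `f`, window `[2b, 2u+1]`), and
`8 ≤ i < p + 8 - deg b` (private jobs; `p - deg b` of them since `deg b < p`).

`deg_sum`: swap the sums (for fixed `i`, `∑_b ∑_a [a < b ∧ u i a = b] = ∑_a [a < u i a]`).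
`card_units`: `∑_b (p - deg b) + 2 #arcs = p B` by `deg_sum`.
`card_window`: `C = ` left end, `D = u i C` right end of an arc. Jobs with window inside
`[2C+1, 2D]`: private jobs of the blocks `b` with `C < b < D` (`p - deg b` each); the job `e` of the
arc `(b, u)` iff `C ≤ b` and `u ≤ D`; the job `f` iff `C < b` and `u < D`. For every arc
`(b, u)`: `[C ≤ b ∧ u ≤ D] + [C < b ∧ u < D] ≥ [C < b < D] + [C < u < D]` by `nc` (no
crossing: neither `C < b < D < u` nor `b < C < u < D`), with strict inequality for `(C, D)` itself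
(`1 > 0`); and `∑_{C<b<D} deg b = ∑_arcs ([C < b < D] + [C < u < D])`. Hence the number of jobs is
at least `∑_{C<b<D} (p - deg b) + ∑_{C<b<D} deg b + 1 = p (D - C - 1) + 1`.
-/

set_option autoImplicit false

namespace Pool.Agent.Helper69.TwoLen.Prog

open Finset

variable {G : Prog} {p : ℕ}

theorem sum_deg (w : ℕ → ℕ) (hu : ∀ i < 2, ∀ b < G.B, G.u i b < G.B) :
    ∑ b ∈ range G.B, w b * G.deg b =
      ∑ b ∈ range G.B, ∑ i ∈ range 2, if b < G.u i b then w b + w (G.u i b) else 0 := by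
  have h1 : ∀ i < 2, ∑ b ∈ range G.B, w b * (∑ a ∈ range G.B, if a < b ∧ G.u i a = b then 1 else 0) =
      ∑ a ∈ range G.B, if a < G.u i a then w (G.u i a) else 0 := by
    intro i hi
    simp only [Finset.mul_sum]
    rw [Finset.sum_comm]
    refine Finset.sum_congr rfl fun a ha => ?_
    rw [Finset.sum_eq_single (G.u i a)]
    · by_cases h : a < G.u i a
      · rw [if_pos ⟨h, rfl⟩, if_pos h, mul_one]
      · rw [if_neg (fun h' => h h'.1), if_neg h, mul_zero]
    · intro b _ hb
      rw [if_neg (fun h' => hb h'.2.symm), mul_zero]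
    · intro h
      exact absurd (mem_range.2 (hu i hi a (mem_range.1 ha))) h
  have h2 : ∀ b, w b * G.deg b = ∑ i ∈ range 2, ((if b < G.u i b then w b else 0) +
      w b * (∑ a ∈ range G.B, if a < b ∧ G.u i a = b then 1 else 0)) := by
    intro b
    unfold deg
    rw [Finset.mul_sum]
    refine Finset.sum_congr rfl fun i _ => ?_
    rw [mul_add]
    congr 1
    split_ifs <;> simp
  simp only [h2]
  rw [Finset.sum_comm, Finset.sum_comm (s := range G.B) (t := range 2)]
  refine Finset.sum_congr rfl fun i hi => ?_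
  rw [Finset.sum_add_distrib, h1 i (mem_range.1 hi), ← Finset.sum_add_distrib]
  refine Finset.sum_congr rfl fun b _ => ?_
  split_ifs <;> simp

private lemma lo4_26 {b j : ℕ} (hj : j < 2) : G.lo b (4 + j) = 2 * b + 1 := by
  unfold lo
  rw [if_neg (by omega), if_neg (by omega), if_pos (by omega)]

private lemma hi4_26 {b j : ℕ} (hj : j < 2) : G.hi b (4 + j) = 2 * G.u j b := by
  unfold hi
  rw [if_neg (by omega), if_neg (by omega), if_pos (by omega), Nat.add_sub_cancel_left]

private lemma lo6_26 {b j : ℕ} (hj : j < 2) : G.lo b (6 + j) = 2 * b := by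
  unfold lo
  rw [if_neg (by omega), if_neg (by omega), if_neg (by omega)]

private lemma hi6_26 {b j : ℕ} (hj : j < 2) : G.hi b (6 + j) = 2 * G.u j b + 1 := by
  unfold hi
  rw [if_neg (by omega), if_neg (by omega), if_neg (by omega), if_pos (by omega), Nat.add_sub_cancel_left]

private lemma lo8_26 {b k : ℕ} (hk : 8 ≤ k) : G.lo b k = 2 * b := by
  unfold lo
  rw [if_neg (by omega), if_neg (by omega), if_neg (by omega)]

private lemma hi8_26 {b k : ℕ} (hk : 8 ≤ k) : G.hi b k = 2 * b + 1 := by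
  unfold hi
  rw [if_neg (by omega), if_neg (by omega), if_neg (by omega), if_neg (by omega)]

private lemma sum_units26 (G : Prog) (p : ℕ) (F : ℕ × ℕ → ℕ) :
    ∑ x ∈ G.units p, F x = ∑ b ∈ range G.B, (∑ i ∈ range 2, (if b < G.u i b then F (b, 4 + i) + F (b, 6 + i) else 0) +
      ∑ i ∈ Ico 8 (p + 8 - G.deg b), F (b, i)) := by
  classical
  unfold units
  rw [Finset.sum_filter, Finset.sum_product]
  refine Finset.sum_congr rfl fun b _ => ?_
  rw [← Finset.sum_Ico_consecutive _ (by norm_num : 4 ≤ 8) (by omega : 8 ≤ p + 8)]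
  congr 1
  · have v4 : G.val p b 4 ↔ b < G.u 0 b := by simp [val]
    have v5 : G.val p b 5 ↔ b < G.u 1 b := by simp [val]
    have v6 : G.val p b 6 ↔ b < G.u 0 b := by simp [val]
    have v7 : G.val p b 7 ↔ b < G.u 1 b := by simp [val]
    rw [Finset.sum_Ico_eq_sum_range]
    simp only [Finset.sum_range_succ, Finset.sum_range_zero, Nat.reduceSub, Nat.reduceAdd, v4, v5, v6, v7, zero_add, add_zero]
    split_ifs <;> omega
  · rw [← Finset.sum_filter]
    refine Finset.sum_congr ?_ fun _ _ => rfl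
    ext i
    rw [Finset.mem_filter, Finset.mem_Ico, Finset.mem_Ico]
    unfold val
    dsimp only
    constructor
    · rintro ⟨h1, h2⟩
      omega
    · intro h1
      refine ⟨by omega, ?_⟩
      right; right; right; right
      omega

theorem card_units (hG : G.Good p) : (G.units p).card = p * G.B := by
  have h1 := sum_units26 G p (fun _ => 1)
  rw [Finset.card_eq_sum_ones, h1]
  have h2 := sum_deg (G := G) (fun _ => 1) hG.u_lt
  simp only [one_mul] at h2
  have h3 : ∀ b ∈ range G.B, (∑ i ∈ range 2, (if b < G.u i b then 1 + 1 else 0) + ∑ i ∈ Ico 8 (p + 8 - G.deg b), 1) + G.deg b =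
      (∑ i ∈ range 2, (if b < G.u i b then 1 + 1 else 0)) + p := by
    intro b hb
    have h4 := hG.deg_lt b (mem_range.1 hb)
    rw [Finset.sum_const, Nat.card_Ico, smul_eq_mul, mul_one]
    omega
  have h5 := Finset.sum_congr (rfl : range G.B = range G.B) h3
  rw [Finset.sum_add_distrib, h2, Finset.sum_add_distrib (f := fun b => ∑ i ∈ range 2, if b < G.u i b then 1 + 1 else 0) (g := fun _ => p),
    Finset.sum_const, card_range, smul_eq_mul] at h5
  rw [mul_comm p]
  omega

theorem card_window (hG : G.Good p) {i C : ℕ} (hi : i < 2) (hC : C < G.B) (hD : C < G.u i C) :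
    p * (G.u i C - C - 1) + 1 ≤ ((G.units p).filter fun x => 2 * C + 1 ≤ G.lo x.1 x.2 ∧
      G.hi x.1 x.2 ≤ 2 * G.u i C).card := by
  classical
  set D := G.u i C with hDdef
  have hDB : D < G.B := hG.u_lt i hi C hC
  rw [Finset.card_filter, sum_units26]
  set w : ℕ → ℕ := fun b => if C < b ∧ b < D then 1 else 0 with hw
  have h2 := sum_deg (G := G) w hG.u_lt
  -- the arcs
  have h3 : ∀ b ∈ range G.B, ∀ j ∈ range 2, (if b < G.u j b then w b + w (G.u j b) else 0) ≤
      if b < G.u j b then (if 2 * C + 1 ≤ G.lo b (4 + j) ∧ G.hi b (4 + j) ≤ 2 * D then 1 else 0) +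
        (if 2 * C + 1 ≤ G.lo b (6 + j) ∧ G.hi b (6 + j) ≤ 2 * D then 1 else 0) else 0 := by
    intro b hb j hj
    rw [mem_range] at hb hj
    by_cases h : b < G.u j b
    · rw [if_pos h, if_pos h, lo4_26 hj, hi4_26 hj, lo6_26 hj, hi6_26 hj]
      have n1 : ¬ (C < b ∧ b < D ∧ D < G.u j b) := fun h' => hG.nc i hi j hj C hC b hb h'.1 h'.2.1 h'.2.2
      have n2 : ¬ (b < C ∧ C < G.u j b ∧ G.u j b < D) := fun h' => hG.nc j hj i hi b hb C hC h'.1 h'.2.1 h'.2.2
      simp only [hw]
      split_ifs <;> omega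
    · rw [if_neg h, if_neg h]
  have h4 : ∀ b ∈ range G.B, ∑ j ∈ range 2, (if b < G.u j b then w b + w (G.u j b) else 0) ≤
      ∑ j ∈ range 2, if b < G.u j b then (if 2 * C + 1 ≤ G.lo b (4 + j) ∧ G.hi b (4 + j) ≤ 2 * D then 1 else 0) +
        (if 2 * C + 1 ≤ G.lo b (6 + j) ∧ G.hi b (6 + j) ≤ 2 * D then 1 else 0) else 0 :=
    fun b hb => Finset.sum_le_sum (h3 b hb)
  have h5 : ∑ b ∈ range G.B, ∑ j ∈ range 2, (if b < G.u j b then w b + w (G.u j b) else 0) <
      ∑ b ∈ range G.B, ∑ j ∈ range 2, if b < G.u j b then (if 2 * C + 1 ≤ G.lo b (4 + j) ∧ G.hi b (4 + j) ≤ 2 * D then 1 else 0) +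
        (if 2 * C + 1 ≤ G.lo b (6 + j) ∧ G.hi b (6 + j) ≤ 2 * D then 1 else 0) else 0 := by
    refine Finset.sum_lt_sum h4 ⟨C, mem_range.2 hC, ?_⟩
    refine Finset.sum_lt_sum (h3 C (mem_range.2 hC)) ⟨i, mem_range.2 hi, ?_⟩
    rw [if_pos hD, if_pos hD, lo4_26 hi, hi4_26 hi, lo6_26 hi, hi6_26 hi]
    simp only [hw, ← hDdef]
    split_ifs <;> omega
  -- the private jobs
  have h6 : ∀ b ∈ range G.B, (∑ k ∈ Ico 8 (p + 8 - G.deg b), if 2 * C + 1 ≤ G.lo b k ∧ G.hi b k ≤ 2 * D then 1 else 0) + w b * G.deg b =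
      w b * p := by
    intro b hb
    have h7 := hG.deg_lt b (mem_range.1 hb)
    have h8 : ∀ k ∈ Ico 8 (p + 8 - G.deg b), (if 2 * C + 1 ≤ G.lo b k ∧ G.hi b k ≤ 2 * D then 1 else 0) = w b := by
      intro k hk
      rw [mem_Ico] at hk
      rw [lo8_26 hk.1, hi8_26 hk.1]
      simp only [hw]
      by_cases h9 : C < b ∧ b < D
      · rw [if_pos h9, if_pos (by omega)]
      · rw [if_neg h9, if_neg (by omega)]
    rw [Finset.sum_congr rfl h8, Finset.sum_const, Nat.card_Ico, smul_eq_mul]
    have h10 : p + 8 - G.deg b - 8 + G.deg b = p := by omega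
    rw [mul_comm _ (w b), ← mul_add, h10]
  have h7 := Finset.sum_congr (rfl : range G.B = range G.B) h6
  rw [Finset.sum_add_distrib, h2, ← Finset.sum_mul] at h7
  have h8 : ∑ b ∈ range G.B, w b = D - C - 1 := by
    simp only [hw]
    rw [← Finset.card_filter]
    have h9 : (range G.B).filter (fun b => C < b ∧ b < D) = Ioo C D := by
      ext b
      simp only [mem_filter, mem_range, mem_Ioo]
      constructor
      · exact fun h => h.2
      · exact fun h => ⟨h.2.trans hDB, h⟩
    rw [h9, Nat.card_Ioo]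
  rw [h8] at h7
  rw [Finset.sum_add_distrib, mul_comm p]
  simp only at h5 h7 ⊢
  omega

end Pool.Agent.Helper69.TwoLen.Prog
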