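import Pool.Agent.Helper69.TwoLen.A2

/-!
# Block TL-A3: all valid unit jobs are on time, and `B` jobs of length `p`

`val_of_mem`: a job `x ∈ A` with `x.2 ≥ 2` which is not valid has `d = 0` but `len > 0`.
`hi_lt`: by cases, from `u_lt`, `J_lt`, `link` (for slot 3 with `nx b = 1`: `b + 1 < B` and
`ty (b+1) ≤ 3`).
`sum_len_le`: disjoint intervals `[S x, S x + ℓ x)` in `[0, T)`: the sets `Ico (S x) (S x + ℓ x)` are
pairwise disjoint subsets of `range T`; `Finset.card_biUnion`.
`full`: `T = 2 B (p + 1)` bounds all due dates (`hi_lt`; for the blockers directly). Let `a₁` be the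
number of `x ∈ A` with `x.2 ≠ 2, 3` and `a₂` the number of the others. All those of the first kind
are blockers (`2 B` possible ones) or in `units` (`p B`), so `a₁ ≤ (p + 2) B`; `a₁ + a₂ ≥ (p + 3) B`;
`a₁ + p a₂ ≤ 2 B (p + 1)`. Hence `(p - 1) a₁ ≥ (p - 1)(p + 2) B`, so (`p ≥ 2`) `a₁ = (p + 2) B`: the
set of all of these is contained in `A` (`Finset.eq_of_subset_of_card_le`), and `a₂ ≥ B`.
-/

set_option autoImplicit false

namespace Pool.Agent.Helper69.TwoLen.Prog

open Finset

variable {G : Prog} {p : ℕ} {A : Finset (ℕ × ℕ)} {S : ℕ × ℕ → ℕ}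

theorem val_of_mem (hp : 0 < p) (h : G.OnTime p A S) {x : ℕ × ℕ} (hx : x ∈ A) (h2 : 2 ≤ x.2) :
    G.val p x.1 x.2 := by
  by_contra hv
  have h1 := (h.win x hx).2
  have h3 : G.d p x.1 x.2 = 0 := by
    unfold d
    rw [if_neg (by omega), if_neg hv]
  have h4 : 0 < len p x.2 := by
    unfold len
    split_ifs <;> omega
  omega

theorem hi_lt (hG : G.Good p) {b i : ℕ} (hb : b < G.B) (hi : 2 ≤ i) (hv : G.val p b i) :
    G.hi b i < 2 * G.B := by
  unfold Prog.hi
  rcases Nat.lt_or_ge i 8 with h8 | h8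
  · have hi' : i = 2 ∨ i = 3 ∨ i = 4 ∨ i = 5 ∨ i = 6 ∨ i = 7 := by omega
    rcases hi' with h | h | h | h | h | h
    · subst h
      rw [if_pos rfl]
      split_ifs with h1 h2 h3
      · have := hG.J_lt b hb h1
        omega
      · omega
      · omega
      · omega
    · subst h
      rw [if_neg (by norm_num), if_pos rfl]
      split_ifs with h1
      · omega
      · have h2 : G.nx b = 1 := by
          unfold val at hv
          rcases hv with h | ⟨-, h | h⟩ | ⟨h, -⟩ | ⟨h, -⟩ | ⟨h, -⟩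
          · omega
          · exact absurd h h1
          · exact h
          · omega
          · omega
          · omega
        obtain ⟨h3, -, -⟩ := hG.link b hb h2
        have h4 := hG.ty_le (b + 1) h3
        omega
    · subst h
      have := hG.u_lt 0 (by norm_num) b hb
      rw [if_neg (by norm_num), if_neg (by norm_num), if_pos (by norm_num)]
      show 2 * G.u 0 b < 2 * G.B
      omega
    · subst h
      have := hG.u_lt 1 (by norm_num) b hb
      rw [if_neg (by norm_num), if_neg (by norm_num), if_pos (by norm_num)]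
      show 2 * G.u 1 b < 2 * G.B
      omega
    · subst h
      have := hG.u_lt 0 (by norm_num) b hb
      rw [if_neg (by norm_num), if_neg (by norm_num), if_neg (by norm_num), if_pos (by norm_num)]
      show 2 * G.u 0 b + 1 < 2 * G.B
      omega
    · subst h
      have := hG.u_lt 1 (by norm_num) b hb
      rw [if_neg (by norm_num), if_neg (by norm_num), if_neg (by norm_num), if_pos (by norm_num)]
      show 2 * G.u 1 b + 1 < 2 * G.B
      omega
  · rw [if_neg (by omega), if_neg (by omega), if_neg (by omega), if_neg (by omega)]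
    omega

theorem sum_len_le {ι : Type*} [DecidableEq ι] (A : Finset ι) (S ℓ : ι → ℕ) (T : ℕ)
    (h1 : ∀ x ∈ A, S x + ℓ x ≤ T)
    (h2 : ∀ x ∈ A, ∀ y ∈ A, x ≠ y → S x + ℓ x ≤ S y ∨ S y + ℓ y ≤ S x) :
    ∑ x ∈ A, ℓ x ≤ T := by
  have h3 : (A.biUnion fun x => Ico (S x) (S x + ℓ x)).card = ∑ x ∈ A, ℓ x := by
    rw [card_biUnion]
    · refine sum_congr rfl fun x _ => ?_
      rw [Nat.card_Ico]
      omega
    · intro x hx y hy hxy
      rw [Function.onFun, disjoint_left]
      intro n hn hn'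
      rw [mem_Ico] at hn hn'
      rcases h2 x hx y hy hxy with h | h <;> omega
  rw [← h3]
  have h4 : (A.biUnion fun x => Ico (S x) (S x + ℓ x)) ⊆ range T := by
    intro n hn
    rw [mem_biUnion] at hn
    obtain ⟨x, hx, hn⟩ := hn
    rw [mem_Ico] at hn
    rw [mem_range]
    have := h1 x hx
    omega
  have := card_le_card h4
  rwa [card_range] at this

private theorem d_le69 (hp : 2 ≤ p) (hG : G.Good p) (h : G.OnTime p A S) {x : ℕ × ℕ} (hx : x ∈ A) :
    G.d p x.1 x.2 ≤ 2 * G.B * (p + 1) := by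
  obtain ⟨hb, -⟩ := h.sub x hx
  rcases Nat.lt_or_ge x.2 2 with h2 | h2
  · unfold d
    rw [if_pos h2]
    have h3 : 2 * x.1 + x.2 + 1 ≤ 2 * G.B := by omega
    have h4 := Nat.mul_le_mul_right (p + 1) h3
    have h5 : (2 * x.1 + x.2 + 1) * (p + 1) = (2 * x.1 + x.2) * (p + 1) + p + 1 := by ring
    omega
  · have hv := val_of_mem (by omega) h hx h2
    have h3 := hi_lt hG hb h2 hv
    unfold d
    rw [if_neg (by omega), if_pos hv]
    have h4 := Nat.mul_le_mul_right (p + 1) (Nat.succ_le_of_lt h3)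
    have h5 : (G.hi x.1 x.2).succ * (p + 1) = G.hi x.1 x.2 * (p + 1) + p + 1 := by
      rw [Nat.succ_mul]
      ring
    omega

theorem full (hp : 2 ≤ p) (hG : G.Good p) (h : G.OnTime p A S) (hA : (p + 3) * G.B ≤ A.card) :
    (∀ b < G.B, ∀ i < 2, (b, i) ∈ A) ∧ G.units p ⊆ A ∧
      G.B ≤ (A.filter fun x => x.2 = 2 ∨ x.2 = 3).card := by
  classical
  have hs := sum_len_le A S (fun x => len p x.2) (2 * G.B * (p + 1))
    (fun x hx => (h.win x hx).2.trans (d_le69 hp hG h hx)) h.dis
  obtain ⟨A1, hA1⟩ : ∃ A1, A1 = A.filter fun x => ¬(x.2 = 2 ∨ x.2 = 3) := ⟨_, rfl⟩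
  obtain ⟨A2, hA2⟩ : ∃ A2, A2 = A.filter fun x => x.2 = 2 ∨ x.2 = 3 := ⟨_, rfl⟩
  rw [← hA2]
  have hc : A2.card + A1.card = A.card := by
    rw [hA1, hA2]
    exact card_filter_add_card_filter_not _
  have hsum : ∑ x ∈ A, len p x.2 = A2.card * p + A1.card := by
    rw [← sum_filter_add_sum_filter_not A (fun x => x.2 = 2 ∨ x.2 = 3), ← hA1, ← hA2]
    congr 1
    · rw [sum_congr rfl (g := fun _ => p), sum_const, smul_eq_mul]
      intro x hx
      rw [hA2, mem_filter] at hx
      unfold len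
      rw [if_pos hx.2]
    · rw [sum_congr rfl (g := fun _ => 1), sum_const, smul_eq_mul, mul_one]
      intro x hx
      rw [hA1, mem_filter] at hx
      unfold len
      rw [if_neg hx.2]
  rw [hsum] at hs
  obtain ⟨W, hW⟩ : ∃ W, W = (range G.B ×ˢ range 2) ∪ G.units p := ⟨_, rfl⟩
  have hWc : W.card ≤ (p + 2) * G.B := by
    rw [hW]
    refine (card_union_le _ _).trans ?_
    rw [card_units hG, card_product, card_range, card_range]
    have : (p + 2) * G.B = G.B * 2 + p * G.B := by ring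
    omega
  have hsub : A1 ⊆ W := by
    intro x hx
    rw [hA1, mem_filter] at hx
    obtain ⟨hx1, hx2⟩ := hx
    obtain ⟨h3, h4⟩ := h.sub x hx1
    rw [hW, mem_union]
    rcases Nat.lt_or_ge x.2 2 with h5 | h5
    · left
      rw [mem_product, mem_range, mem_range]
      exact ⟨h3, h5⟩
    · right
      have hv := val_of_mem (by omega) h hx1 h5
      unfold units
      rw [mem_filter, mem_product, mem_range, mem_Ico]
      refine ⟨⟨h3, ?_, h4⟩, hv⟩
      omega
  have h1 := (card_le_card hsub).trans hWc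
  -- `a₁ ≥ (p + 2) B`
  have h2 : (p + 2) * G.B ≤ A1.card := by
    by_contra hcon
    rw [not_le] at hcon
    obtain ⟨q, rfl⟩ : ∃ q, p = q + 2 := ⟨p - 2, by omega⟩
    obtain ⟨e, he⟩ : ∃ e, (q + 2 + 2) * G.B = A1.card + e + 1 := ⟨(q + 2 + 2) * G.B - A1.card - 1, by omega⟩
    have h3 : G.B + e + 1 ≤ A2.card := by
      have : (q + 2 + 3) * G.B = (q + 2 + 2) * G.B + G.B := by ring
      omega
    have h4 := Nat.mul_le_mul_right (q + 2) h3
    have h5 : A1.card = (q + 2 + 2) * G.B - (e + 1) := by omega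
    have h6 : (G.B + e + 1) * (q + 2) + A1.card ≤ 2 * G.B * (q + 2 + 1) := by omega
    have h7 : (G.B + e + 1) * (q + 2) + (A1.card + (e + 1)) = (G.B + e + 1) * (q + 2) + (q + 2 + 2) * G.B := by
      rw [he]
      omega
    have h8 : (G.B + e + 1) * (q + 2) + (q + 2 + 2) * G.B =
        2 * G.B * (q + 2 + 1) + (e + 1) * (q + 2) := by ring
    have h9 : (e + 1) * (q + 2) = (e + 1) * q + (e + 1) + (e + 1) := by ring
    have h10 : 0 ≤ (e + 1) * q := Nat.zero_le _
    omega
  have hEq : A1 = W := eq_of_subset_of_card_le hsub (hWc.trans h2)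
  have hWA : W ⊆ A := by
    rw [← hEq, hA1]
    exact filter_subset _ _
  refine ⟨?_, ?_, ?_⟩
  · intro b hb i hi
    refine hWA ?_
    rw [hW, mem_union]
    left
    rw [mem_product, mem_range, mem_range]
    exact ⟨hb, hi⟩
  · intro x hx
    refine hWA ?_
    rw [hW, mem_union]
    exact Or.inr hx
  · have : (p + 3) * G.B = (p + 2) * G.B + G.B := by ring
    omega

end Pool.Agent.Helper69.TwoLen.Prog
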