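import Pool.Agent.Helper69.TwoLen.A3

/-!
# Block TL-A4: the gap of a job

The blocker `(b, i)`, `i < 2`, occupies exactly the time `(2b + i)(p + 1) + p` (its window has
length 1). A job `x ∈ A` with `x.2 ≥ 2` has (`val_of_mem`) `r = lo (p+1) ≤ S x` and
`S x + len ≤ hi (p+1) + p`, `hi < 2B`; so `g = S x / (p+1)` satisfies `lo ≤ g ≤ hi < 2 B`. The time
`g(p+1) + p` is occupied by the blocker `(g / 2, g % 2)`: so `S x % (p+1) ≠ p`, and if the length is
`p` then `S x % (p+1) = 0` (otherwise the interval contains the time `g(p+1)+p`).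
`gap_ne`: if a job `x` of length `p` and another job `y` (slot `≥ 2`) have the same gap `g`, then
`S x = g(p+1)`, and `S y` is in `[g(p+1), g(p+1)+p)`: overlap.
-/

set_option autoImplicit false

namespace Pool.Agent.Helper69.TwoLen.Prog

open Finset

variable {G : Prog} {p : ℕ} {A : Finset (ℕ × ℕ)} {S : ℕ × ℕ → ℕ}

theorem gap_mem (hp : 2 ≤ p) (hG : G.Good p) (h : G.OnTime p A S)
    (hf : ∀ b < G.B, ∀ i < 2, (b, i) ∈ A) {x : ℕ × ℕ} (hx : x ∈ A) (h2 : 2 ≤ x.2) :
    G.lo x.1 x.2 ≤ S x / (p + 1) ∧ S x / (p + 1) ≤ G.hi x.1 x.2 ∧ S x / (p + 1) < 2 * G.B ∧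
      S x % (p + 1) < p ∧ ((x.2 = 2 ∨ x.2 = 3) → S x % (p + 1) = 0) := by
  obtain ⟨hxB, -⟩ := h.sub x hx
  obtain ⟨hr, hd⟩ := h.win x hx
  have hv := val_of_mem (by omega) h hx h2
  have hhi := hi_lt hG hxB h2 hv
  have hn : ¬ x.2 < 2 := by omega
  rw [r, if_neg hn, if_pos hv] at hr
  rw [d, if_neg hn, if_pos hv] at hd
  have hlen : 1 ≤ len p x.2 := by
    unfold len
    split <;> omega
  have hdm := Nat.div_add_mod (S x) (p + 1)
  have hml : S x % (p + 1) < p + 1 := Nat.mod_lt _ (by omega)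
  set g := S x / (p + 1) with hg
  set m := S x % (p + 1) with hm
  have hlo : G.lo x.1 x.2 ≤ g := (Nat.le_div_iff_mul_le (by omega)).2 hr
  have hgh : g ≤ G.hi x.1 x.2 := by
    by_contra hc
    have h1 : (G.hi x.1 x.2 + 1) * (p + 1) ≤ g * (p + 1) := Nat.mul_le_mul_right _ (by omega)
    have h3 : (p + 1) * g = g * (p + 1) := mul_comm _ _
    have h4 : (G.hi x.1 x.2 + 1) * (p + 1) = G.hi x.1 x.2 * (p + 1) + (p + 1) := by ring
    omega
  have hgB : g < 2 * G.B := by omega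
  have hbl := hf (g / 2) (by omega) (g % 2) (by omega)
  obtain ⟨hr2, hd2⟩ := h.win _ hbl
  have hn2 : g % 2 < 2 := Nat.mod_lt _ (by omega)
  have hlen2 : len p (g % 2) = 1 := by
    unfold len
    rw [if_neg (by omega)]
  have h2g : 2 * (g / 2) + g % 2 = g := by omega
  simp only [r, d, if_pos hn2, h2g, hlen2] at hr2 hd2
  have hne : x ≠ (g / 2, g % 2) := by
    intro hc
    have : x.2 = g % 2 := by rw [hc]
    omega
  have hpg : (p + 1) * g = g * (p + 1) := mul_comm _ _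
  have hkey : m + len p x.2 ≤ p := by
    rcases h.dis x hx _ hbl hne with h5 | h5
    · omega
    · simp only [hlen2] at h5
      omega
  refine ⟨hlo, hgh, hgB, by omega, fun h23 => ?_⟩
  have hlp : len p x.2 = p := by
    unfold len
    rw [if_pos h23]
  omega

theorem gap_ne (hp : 2 ≤ p) (hG : G.Good p) (h : G.OnTime p A S)
    (hf : ∀ b < G.B, ∀ i < 2, (b, i) ∈ A) {x y : ℕ × ℕ} (hx : x ∈ A) (hx2 : x.2 = 2 ∨ x.2 = 3)
    (hy : y ∈ A) (hy2 : 2 ≤ y.2) (hxy : x ≠ y) : S x / (p + 1) ≠ S y / (p + 1) := by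
  intro hc
  have h2 : 2 ≤ x.2 := by omega
  obtain ⟨-, -, -, -, hx0⟩ := gap_mem hp hG h hf hx h2
  obtain ⟨-, -, -, hym, -⟩ := gap_mem hp hG h hf hy hy2
  have hx0' := hx0 hx2
  have hdx := Nat.div_add_mod (S x) (p + 1)
  have hdy := Nat.div_add_mod (S y) (p + 1)
  rw [hx0', hc] at hdx
  have hlx : len p x.2 = p := by
    unfold len
    rw [if_pos hx2]
  have hly : 1 ≤ len p y.2 := by
    unfold len
    split <;> omega
  rcases h.dis x hx y hy hxy with h5 | h5 <;> omega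

end Pool.Agent.Helper69.TwoLen.Prog
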