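import Pool.Agent.Helper69.TwoLen.ADefs

/-!
# Block TL-A8: `J`-arcs, soundness

Let `H` be as in `GapSol.pj` (the hypothesis `hH` below is exactly that). A `J`-block is a block of
type 1.

`H_of_J`: the window of the job `H b = (b', s)` contains a gap `2b` or `2b+1` of the `J`-block `b`.
`s = 2`, `ty b' ≠ 1`: the window is one gap of `b'`, so `b' = b`, contradiction. `s = 3`, `ty b' = 0`:
the window is `{2b'+1}`, so `b' = b`, contradiction. `s = 3`, `nx b' = 1`: the window is
contained in the gaps of `b'`, `b'+1`, both of type `≥ 2` (`link`). So `s = 2`, `ty b' = 1`.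
`exists_H_J`: so `H` maps the `J`-blocks injectively to the pairs `(c, 2)`, `c` a `J`-block;
same number, so surjectively.
`ty_H`: so for a block `b` which is not a `J`-block, `H b` is not `(c, 2)` with `ty c = 1`.
`jarc`: Let `S < T = J S`, `z S = 1`, `z T = 0`, `X` the set of `J`-blocks `c` with `S < c < T`.
For `c ∈ X`: `S < J c < T` by `Jnc` and `J_inv` (`J c = S` or `T` is impossible). So for
`c ∈ X ∪ {T}` the window of the job `(c, 2)` is contained in `[2S+1, 2T]`. It is `H b` for some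
`J`-block `b` (`exists_H_J`), so `2S+1 ≤ 2b+1-z b ≤ 2T`; `b ≠ S`, `b ≠ T` by the values of `z`;
so `b ∈ X`. This gives an injection from `X ∪ {T}` to `X`, contradiction.
-/

set_option autoImplicit false

namespace Pool.Agent.Helper69.TwoLen.Prog

open Finset

variable {G : Prog} {p : ℕ} {z : ℕ → ℕ} {H : ℕ → ℕ × ℕ}

/-- `H` is as in `GapSol.pj`. -/
def IsH (G : Prog) (p : ℕ) (z : ℕ → ℕ) (H : ℕ → ℕ × ℕ) : Prop :=
  Set.InjOn H (Set.Iio G.B) ∧ ∀ b < G.B, (H b).1 < G.B ∧
    ((H b).2 = 2 ∨ (H b).2 = 3) ∧ G.val p (H b).1 (H b).2 ∧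
    G.lo (H b).1 (H b).2 ≤ 2 * b + 1 - z b ∧ 2 * b + 1 - z b ≤ G.hi (H b).1 (H b).2

theorem H_of_J (hG : G.Good p) (hz : ∀ b, z b ≤ 1) (hH : G.IsH p z H) {b : ℕ} (hb : b < G.B)
    (hJ : G.ty b = 1) : G.ty (H b).1 = 1 ∧ (H b).2 = 2 := by
  obtain ⟨h1, h2, h3, h4, h5⟩ := hH.2 b hb
  have hzb := hz b
  rcases h2 with h2 | h2
  · rw [h2] at h4 h5
    refine ⟨?_, h2⟩
    by_contra hne
    have hbb : b = (H b).1 := by
      unfold lo at h4
      unfold hi at h5
      rw [if_pos rfl, if_neg hne] at h4 h5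
      by_cases h6 : G.ty (H b).1 = 2
      · rw [if_pos h6] at h4 h5
        omega
      · rw [if_neg h6] at h4 h5
        omega
    rw [← hbb] at hne
    exact hne hJ
  · exfalso
    rw [h2] at h3 h4 h5
    have h6 : G.ty (H b).1 = 0 ∨ G.nx (H b).1 = 1 := by
      unfold val at h3
      rcases h3 with h | ⟨_, h⟩ | ⟨h, _⟩ | ⟨h, _⟩ | ⟨h, _⟩
      · omega
      · exact h
      · omega
      · omega
      · omega
    unfold lo at h4
    unfold hi at h5
    rw [if_neg (by norm_num), if_pos rfl] at h4 h5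
    rcases h6 with h6 | h6
    · rw [if_pos h6] at h4 h5
      have hbb : b = (H b).1 := by omega
      rw [← hbb] at h6
      omega
    · obtain ⟨h7, h8, h9⟩ := hG.link _ h1 h6
      have h10 := hG.ty_le _ h1
      have h11 := hG.ty_le _ h7
      rw [if_neg (by omega)] at h4 h5
      have h12 : b = (H b).1 ∨ b = (H b).1 + 1 := by omega
      rcases h12 with h12 | h12
      · rw [← h12] at h8
        omega
      · rw [← h12] at h9
        omega

private theorem f_injOn93 (hG : G.Good p) (hz : ∀ b, z b ≤ 1) (hH : G.IsH p z H) :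
    Set.InjOn (fun b => (H b).1) {b | b < G.B ∧ G.ty b = 1} := by
  intro a ha b hb hab
  apply hH.1 (Set.mem_Iio.2 ha.1) (Set.mem_Iio.2 hb.1)
  refine Prod.ext hab ?_
  rw [(H_of_J hG hz hH ha.1 ha.2).2, (H_of_J hG hz hH hb.1 hb.2).2]

theorem exists_H_J (hG : G.Good p) (hz : ∀ b, z b ≤ 1) (hH : G.IsH p z H) {c : ℕ} (hc : c < G.B)
    (hJ : G.ty c = 1) : ∃ b < G.B, G.ty b = 1 ∧ H b = (c, 2) := by
  classical
  set X : Finset ℕ := (range G.B).filter fun b => G.ty b = 1 with hX
  have hmem : ∀ b, b ∈ X ↔ b < G.B ∧ G.ty b = 1 := fun b => by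
    rw [hX, Finset.mem_filter, Finset.mem_range]
  have hsub : X.image (fun b => (H b).1) ⊆ X := by
    intro c hc
    obtain ⟨b, hb, rfl⟩ := Finset.mem_image.1 hc
    rw [hmem] at hb
    exact (hmem _).2 ⟨(hH.2 b hb.1).1, (H_of_J hG hz hH hb.1 hb.2).1⟩
  have hcard : (X.image (fun b => (H b).1)).card = X.card := by
    apply Finset.card_image_of_injOn
    intro a ha b hb hab
    exact f_injOn93 hG hz hH ((hmem a).1 ha) ((hmem b).1 hb) hab
  have heq := Finset.eq_of_subset_of_card_le hsub hcard.ge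
  have hcX : c ∈ X.image (fun b => (H b).1) := by
    rw [heq]
    exact (hmem c).2 ⟨hc, hJ⟩
  obtain ⟨b, hb, hbc⟩ := Finset.mem_image.1 hcX
  rw [hmem] at hb
  exact ⟨b, hb.1, hb.2, Prod.ext hbc (H_of_J hG hz hH hb.1 hb.2).2⟩

theorem ty_H (hG : G.Good p) (hz : ∀ b, z b ≤ 1) (hH : G.IsH p z H) {b : ℕ} (hb : b < G.B)
    (hJ : G.ty b ≠ 1) (h2 : (H b).2 = 2) : G.ty (H b).1 ≠ 1 := by
  intro h
  obtain ⟨b', hb', hJ', hH'⟩ := exists_H_J hG hz hH (hH.2 b hb).1 h
  have : b' = b := by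
    apply hH.1 (Set.mem_Iio.2 hb') (Set.mem_Iio.2 hb)
    rw [hH']
    exact Prod.ext rfl h2.symm
  rw [this] at hJ'
  exact hJ hJ'

theorem jarc_of_isH (hG : G.Good p) (hz : ∀ b, z b ≤ 1) (hH : G.IsH p z H) {b : ℕ} (hb : b < G.B)
    (hJ : G.ty b = 1) (hlt : b < G.J b) : z b ≤ z (G.J b) := by
  classical
  by_contra hcon
  have hz1 : z b = 1 := by
    have := hz b
    omega
  have hz0 : z (G.J b) = 0 := by
    have := hz b
    omega
  have hT := hG.J_lt b hb hJ
  have hTt := hG.J_ty b hb hJ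
  have hTJ := hG.J_inv b hb hJ
  set X : Finset ℕ := (range G.B).filter fun c => G.ty c = 1 ∧ b < c ∧ c < G.J b with hX
  have hmem : ∀ c, c ∈ X ↔ c < G.B ∧ G.ty c = 1 ∧ b < c ∧ c < G.J b := fun c => by
    rw [hX, Finset.mem_filter, Finset.mem_range]
  -- every window of a block of `X ∪ {J b}` is inside
  have hwin : ∀ c, c < G.B → G.ty c = 1 → b < c → c ≤ G.J b →
      2 * b + 1 ≤ G.lo c 2 ∧ G.hi c 2 ≤ 2 * G.J b := by
    intro c hc hct hbc hcT
    unfold lo hi
    rw [if_pos rfl, if_pos rfl, if_pos hct, if_pos hct]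
    rcases eq_or_lt_of_le hcT with hcT | hcT
    · subst hcT
      rw [hTJ, if_neg (by omega), if_neg (by omega)]
      exact ⟨le_rfl, le_rfl⟩
    · have hJc := hG.J_lt c hc hct
      have hJct := hG.J_ty c hc hct
      have hJJ := hG.J_inv c hc hct
      have hJne := hG.J_ne c hc hct
      have h1 : b < G.J c := by
        by_contra hle
        rcases eq_or_lt_of_le (not_lt.1 hle) with he | hl
        · rw [he] at hJJ
          omega
        · exact hG.Jnc (G.J c) hJc b hb hJct hJ hl (by rw [hJJ]; exact hbc)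
            (by rw [hJJ]; exact hcT)
      have h2 : G.J c < G.J b := by
        by_contra hle
        rcases eq_or_lt_of_le (not_lt.1 hle) with he | hl
        · rw [← he, hTJ] at hJJ
          omega
        · exact hG.Jnc b hb c hc hJ hct hbc hcT hl
      by_cases h3 : c < G.J c
      · rw [if_pos h3, if_pos h3]
        omega
      · rw [if_neg h3, if_neg h3]
        omega
  have hsub : insert (G.J b) X ⊆ X.image (fun b => (H b).1) := by
    intro c hc
    have hc' : c < G.B ∧ G.ty c = 1 ∧ b < c ∧ c ≤ G.J b := by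
      rcases Finset.mem_insert.1 hc with h | h
      · rw [h]
        exact ⟨hT, hTt, hlt, le_rfl⟩
      · have h := (hmem c).1 h
        exact ⟨h.1, h.2.1, h.2.2.1, h.2.2.2.le⟩
    obtain ⟨hc1, hc2, hc3, hc4⟩ := hc'
    obtain ⟨h1, h2⟩ := hwin c hc1 hc2 hc3 hc4
    obtain ⟨b', hb', hJ', hH'⟩ := exists_H_J hG hz hH hc1 hc2
    obtain ⟨-, -, -, h4, h5⟩ := hH.2 b' hb'
    rw [hH'] at h4 h5
    simp only at h4 h5
    rw [Finset.mem_image]
    refine ⟨b', ?_, by rw [hH']⟩
    have hzb' := hz b'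
    have hne1 : b' ≠ b := by
      rintro rfl
      omega
    have hne2 : b' ≠ G.J b := by
      intro h
      rw [h, hz0] at h5
      omega
    rw [hmem]
    exact ⟨hb', hJ', by omega, by omega⟩
  have hcard1 := Finset.card_le_card hsub
  have hcard2 := Finset.card_image_le (s := X) (f := fun b => (H b).1)
  rw [Finset.card_insert_of_notMem (by rw [hmem]; omega)] at hcard1
  omega

end Pool.Agent.Helper69.TwoLen.Prog
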