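import Pool.Agent.Helper69.TwoLen.Defs

/-!
# Part A: schedules in terms of pairs (block, slot), and gap-level solutions
-/

set_option autoImplicit false

namespace Pool.Agent.Helper69.TwoLen

open Finset

/-- Processing time of the slot `i`. -/
def len (p i : ℕ) : ℕ := if i = 2 ∨ i = 3 then p else 1

namespace Prog

/-- The jobs `x ∈ A` (pairs (block, slot)) are on time for the start times `S`. -/
structure OnTime (G : Prog) (p : ℕ) (A : Finset (ℕ × ℕ)) (S : ℕ × ℕ → ℕ) : Prop where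
  sub : ∀ x ∈ A, x.1 < G.B ∧ x.2 < p + 8
  win : ∀ x ∈ A, G.r p x.1 x.2 ≤ S x ∧ S x + len p x.2 ≤ G.d p x.1 x.2
  dis : ∀ x ∈ A, ∀ y ∈ A, x ≠ y → S x + len p x.2 ≤ S y ∨ S y + len p y.2 ≤ S x

/-- The valid non-blocker unit jobs. -/
noncomputable def units (G : Prog) (p : ℕ) : Finset (ℕ × ℕ) :=
  open scoped Classical in (range G.B ×ˢ Ico 4 (p + 8)).filter fun x => G.val p x.1 x.2

/-- Gap-level solution: exactly one gap `2b + 1 - z b` of every block `b` is used by a job of length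
`p`, namely `H b`; the unit job `x` is done in the other gap `2c + z c` of the block `c = β x`, and
every block gets at most `p` of them. -/
structure GapSol (G : Prog) (p : ℕ) (z : ℕ → ℕ) : Prop where
  le_one : ∀ b, z b ≤ 1
  pj : ∃ H : ℕ → ℕ × ℕ, Set.InjOn H (Set.Iio G.B) ∧ ∀ b < G.B, (H b).1 < G.B ∧
    ((H b).2 = 2 ∨ (H b).2 = 3) ∧ G.val p (H b).1 (H b).2 ∧
    G.lo (H b).1 (H b).2 ≤ 2 * b + 1 - z b ∧ 2 * b + 1 - z b ≤ G.hi (H b).1 (H b).2
  un : ∃ β : ℕ × ℕ → ℕ, (∀ x ∈ G.units p, β x < G.B ∧ G.lo x.1 x.2 ≤ 2 * β x + z (β x) ∧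
      2 * β x + z (β x) ≤ G.hi x.1 x.2) ∧
    ∀ c < G.B, ((G.units p).filter fun x => β x = c).card ≤ p

end Prog

end Pool.Agent.Helper69.TwoLen
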