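import Mathlib

/-!
# Throughput scheduling with release dates and processing times in `{1, p}`: the construction

Timeline: gap `g` is the set of times `[g(p+1), g(p+1)+p)`; at time `g(p+1)+p` there is a blocker
(a job of length 1 with a tight window). Block `b` consists of the gaps `2b` and `2b+1`. In every
solution exactly one of them is filled by a job of length `p`; the bit `z b` is `1` if it is the
first one.
-/

set_option autoImplicit false

namespace Pool.Agent.Helper69.TwoLen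

open Finset

/-- All but at most `K` of the jobs `0, ..., L - 1` can be done on time. -/
def Feas (L K : ℕ) (P R D : ℕ → ℕ) : Prop :=
  ∃ A ⊆ range L, ∃ S : ℕ → ℕ, L ≤ A.card + K ∧ (∀ z ∈ A, R z ≤ S z ∧ S z + P z ≤ D z) ∧
    ∀ z ∈ A, ∀ z' ∈ A, z ≠ z' → S z + P z ≤ S z' ∨ S z' + P z' ≤ S z

/-- The combinatorial data: `B` blocks; unit arcs `b → u i b` (`i < 2`, present if `b < u i b`);
type `ty b`: `0` free, `1` end of a `J`-arc (with partner `J b`), `2` first gap special, `3` second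
gap special; `nx b = 1` if the blocks `b`, `b + 1` are in the same cluster. -/
structure Prog where
  B : ℕ
  u : ℕ → ℕ → ℕ
  J : ℕ → ℕ
  ty : ℕ → ℕ
  nx : ℕ → ℕ

namespace Prog

variable (G : Prog) (p : ℕ)

/-- The number of unit arcs at the block `b`. -/
def deg (b : ℕ) : ℕ :=
  ∑ i ∈ range 2, ((if b < G.u i b then 1 else 0) +
    ∑ a ∈ range G.B, if a < b ∧ G.u i a = b then 1 else 0)

/-- Structural conditions. -/
structure Good : Prop where
  u_lt : ∀ i < 2, ∀ b < G.B, G.u i b < G.B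
  nc : ∀ i < 2, ∀ i' < 2, ∀ a < G.B, ∀ b < G.B, a < b → b < G.u i a → G.u i a < G.u i' b → False
  deg_lt : ∀ b < G.B, G.deg b < p
  J_lt : ∀ b < G.B, G.ty b = 1 → G.J b < G.B
  J_ne : ∀ b < G.B, G.ty b = 1 → G.J b ≠ b
  J_inv : ∀ b < G.B, G.ty b = 1 → G.J (G.J b) = b
  J_ty : ∀ b < G.B, G.ty b = 1 → G.ty (G.J b) = 1
  Jnc : ∀ a < G.B, ∀ b < G.B, G.ty a = 1 → G.ty b = 1 → a < b → b < G.J a → G.J a < G.J b → False
  ty_le : ∀ b < G.B, G.ty b ≤ 3
  link : ∀ b < G.B, G.nx b = 1 → b + 1 < G.B ∧ 2 ≤ G.ty b ∧ 2 ≤ G.ty (b + 1)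

/-- The constraints on the bits. -/
structure Sol (z : ℕ → ℕ) : Prop where
  le_one : ∀ b, z b ≤ 1
  arc : ∀ i < 2, ∀ b < G.B, b < G.u i b → z (G.u i b) ≤ z b
  jarc : ∀ b < G.B, G.ty b = 1 → b < G.J b → z b ≤ z (G.J b)
  clu : ∀ b < G.B, 2 ≤ G.ty b → ∃ c < G.B, z c + 2 = G.ty c ∧
    ((b ≤ c ∧ ∀ t, b ≤ t → t < c → G.nx t = 1) ∨ (c ≤ b ∧ ∀ t, c ≤ t → t < b → G.nx t = 1))

/-! ### The jobs: block `b` has the jobs `(b, i)`, `i < p + 8`

`i < 2`: blockers; `i = 2, 3`: jobs of length `p`; `i = 4, 5` and `i = 6, 7`: the two unit jobs of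
the unit arcs which start at `b`; `i ≥ 8`: private unit jobs. Jobs which are not valid can never be
on time. -/

/-- First gap of the window of the job `(b, i)`, `i ≥ 2`. -/
def lo (b i : ℕ) : ℕ :=
  if i = 2 then
    (if G.ty b = 1 then (if b < G.J b then 2 * b else 2 * G.J b + 1)
      else if G.ty b = 2 then 2 * b + 1 else 2 * b)
  else if i = 3 then (if G.ty b = 0 then 2 * b + 1 else 2 * b + (G.ty b - 2))
  else if i = 4 ∨ i = 5 then 2 * b + 1
  else 2 * b

/-- Last gap of the window of the job `(b, i)`, `i ≥ 2`. -/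
def hi (b i : ℕ) : ℕ :=
  if i = 2 then
    (if G.ty b = 1 then (if b < G.J b then 2 * G.J b + 1 else 2 * b)
      else if G.ty b = 2 then 2 * b + 1 else 2 * b)
  else if i = 3 then (if G.ty b = 0 then 2 * b + 1 else 2 * (b + 1) + (G.ty (b + 1) - 2))
  else if i = 4 ∨ i = 5 then 2 * G.u (i - 4) b
  else if i = 6 ∨ i = 7 then 2 * G.u (i - 6) b + 1
  else 2 * b + 1

/-- The job `(b, i)`, `i ≥ 2`, is valid. -/
def val (b i : ℕ) : Prop :=
  i = 2 ∨ (i = 3 ∧ (G.ty b = 0 ∨ G.nx b = 1)) ∨ ((i = 4 ∨ i = 5) ∧ b < G.u (i - 4) b) ∨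
    ((i = 6 ∨ i = 7) ∧ b < G.u (i - 6) b) ∨ (8 ≤ i ∧ i + G.deg b < p + 8)

open Classical in
/-- Release date of the job `(b, i)`. -/
noncomputable def r (b i : ℕ) : ℕ :=
  if i < 2 then (2 * b + i) * (p + 1) + p else if G.val p b i then G.lo b i * (p + 1) else 0

open Classical in
/-- Due date of the job `(b, i)`. -/
noncomputable def d (b i : ℕ) : ℕ :=
  if i < 2 then (2 * b + i) * (p + 1) + p + 1 else
    if G.val p b i then G.hi b i * (p + 1) + p else 0

/-- Processing times; the job `(b, i)` has the number `b * (p + 8) + i`. -/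
def P (z : ℕ) : ℕ := if z % (p + 8) = 2 ∨ z % (p + 8) = 3 then p else 1

/-- Release dates. -/
noncomputable def R (z : ℕ) : ℕ := G.r p (z / (p + 8)) (z % (p + 8))

/-- Due dates. -/
noncomputable def D (z : ℕ) : ℕ := G.d p (z / (p + 8)) (z % (p + 8))

end Prog

/-! ### The program of a CNF

`N = 2n` wires (wire `2i + s` is the literal of sign `s` of the variable `i`), `m` clauses;
`lit w j`: the literal `w` occurs in the clause `j`. Blocks: `N` initial blocks (wire `w` at
`N - 1 - w`), then `m` phases of `23 N + 4` blocks each: `2` starting blocks, `N` cells of `19`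
blocks, `2` final blocks, `N` groups of `4` blocks in the reverse order of the wires. -/

section CNF

variable (N m : ℕ) (lit : ℕ → ℕ → Prop)

/-- The phase of a block. -/
def ph (b : ℕ) : ℕ := (b - N) / (23 * N + 4)

/-- Position of a block in its phase. -/
def rr (b : ℕ) : ℕ := (b - N) % (23 * N + 4)

/-- The kind of a block: `0, ..., 18` in a cell (`W, Y4, W1, SL, t10, t00, t01, t11, Y2, Y1, S1, S0,
X, Y3, SE, E2, E, NR, Y`), `19, ..., 22` in a group (`Q4, Q3, T, A`), `23` initial, `24, 25`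
start, `26, 27` end. -/
def kind (b : ℕ) : ℕ :=
  if b < N then 23 else if rr N b < 2 then 24 + rr N b
  else if rr N b < 2 + 19 * N then (rr N b - 2) % 19
  else if rr N b < 4 + 19 * N then 26 + (rr N b - (2 + 19 * N))
  else 19 + (rr N b - (4 + 19 * N)) % 4

/-- The wire of a block. -/
def wire (b : ℕ) : ℕ :=
  if b < N then N - 1 - b
  else if rr N b < 2 + 19 * N then (rr N b - 2) / 19
  else N - 1 - (rr N b - (4 + 19 * N)) / 4

/-- Block `k` of the cell of the wire `w` in phase `j`. -/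
def cell (j w k : ℕ) : ℕ := N + j * (23 * N + 4) + 2 + 19 * w + k

/-- Block `k` of the group of the wire `w` in phase `j`. -/
def grp (j w k : ℕ) : ℕ := N + j * (23 * N + 4) + 4 + 19 * N + 4 * (N - 1 - w) + k

/-- First unit arc. -/
def u0 (b : ℕ) : ℕ :=
  if kind N b = 0 then b + 4
  else if kind N b = 1 ∨ kind N b = 9 ∨ kind N b = 11 ∨ kind N b = 14 ∨ kind N b = 20 ∨
    kind N b = 24 ∨ kind N b = 26 then b + 1
  else if kind N b = 6 then b + 10
  else if kind N b = 7 then b + 6
  else if kind N b = 19 then b + 3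
  else if kind N b = 22 ∧ ph N b + 1 < m then cell N (ph N b + 1) (wire N b) 5
  else if kind N b = 23 then cell N 0 (wire N b) 5
  else 0

open Classical in
/-- Second unit arc. -/
noncomputable def u1 (b : ℕ) : ℕ :=
  if kind N b = 0 ∧ ¬ lit (wire N b) (ph N b) then b + 5
  else if kind N b = 3 then b + 1
  else if kind N b = 6 then b + 11
  else if kind N b = 7 then b + 9
  else if kind N b = 8 then b + 5
  else if kind N b = 22 ∧ ph N b + 1 < m then cell N (ph N b + 1) (wire N b) 18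
  else if kind N b = 23 then cell N 0 (wire N b) 18
  else 0

/-- Partners in `J`-arcs. -/
def jp (b : ℕ) : ℕ :=
  if kind N b = 2 then (if wire N b = 0 then b - 4 else b - 7)
  else if kind N b = 3 then b + 7
  else if kind N b = 10 then b - 7
  else if kind N b = 11 then grp N (ph N b) (wire N b) 2
  else if kind N b = 14 then (if wire N b + 1 < N then b + 7 else b + 6)
  else if kind N b = 21 then cell N (ph N b) (wire N b) 11
  else if kind N b = 24 then b + 4
  else b - 6

/-- Types. -/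
def tp (b : ℕ) : ℕ :=
  if kind N b = 22 then 0
  else if kind N b = 2 ∨ kind N b = 3 ∨ kind N b = 10 ∨ kind N b = 11 ∨ kind N b = 14 ∨
    kind N b = 21 ∨ kind N b = 24 ∨ kind N b = 27 then 1
  else if kind N b = 0 ∨ kind N b = 1 ∨ kind N b = 6 ∨ kind N b = 7 ∨ kind N b = 8 ∨
    kind N b = 9 ∨ kind N b = 19 ∨ kind N b = 20 ∨ kind N b = 23 ∨ kind N b = 26 then 2
  else 3

/-- Links. -/
def lk (b : ℕ) : ℕ :=
  if kind N b = 0 ∨ kind N b = 4 ∨ kind N b = 5 ∨ kind N b = 6 ∨ kind N b = 8 ∨ kind N b = 12 ∨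
    kind N b = 15 ∨ kind N b = 17 ∨ kind N b = 19 ∨ kind N b = 23 ∧ b % 2 = 0 then 1 else 0

/-- The program. -/
noncomputable def prog : Prog where
  B := N + m * (23 * N + 4)
  u := fun i b => if i = 0 then u0 N m b else u1 N m lit b
  J := jp N
  ty := tp N
  nx := lk N

end CNF

end Pool.Agent.Helper69.TwoLen
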