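import Pool.Agent.Helper69.TwoLen.Defs

/-!
# Decoding of block numbers
-/

set_option autoImplicit false

namespace Pool.Agent.Helper69.TwoLen

/-- Start of the phase `j`. -/
def ee (N j : ℕ) : ℕ := N + j * (23 * N + 4)

variable {N m j w k x b : ℕ}

theorem ee_zero : ee N 0 = N := by simp [ee]

theorem ee_succ : ee N (j + 1) = ee N j + (23 * N + 4) := by
  unfold ee
  ring

theorem ee_mono {i : ℕ} (h : i < j) : ee N i + (23 * N + 4) ≤ ee N j := by
  unfold ee
  have : (i + 1) * (23 * N + 4) ≤ j * (23 * N + 4) := Nat.mul_le_mul_right _ h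
  have h2 : (i + 1) * (23 * N + 4) = i * (23 * N + 4) + (23 * N + 4) := by ring
  omega

theorem le_ee : N ≤ ee N j := by
  unfold ee
  omega

theorem B_eq : N + m * (23 * N + 4) = ee N m := rfl

theorem cell_eq : cell N j w k = ee N j + (2 + 19 * w + k) := by
  unfold cell ee
  ring

theorem grp_eq : grp N j w k = ee N j + (4 + 19 * N + 4 * (N - 1 - w) + k) := by
  unfold grp ee
  ring

theorem ph_eq (hx : x < 23 * N + 4) : ph N (ee N j + x) = j := by
  unfold ph ee
  have h : N + j * (23 * N + 4) + x - N = x + j * (23 * N + 4) := by omega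
  rw [h, Nat.add_mul_div_right _ _ (by omega), Nat.div_eq_of_lt hx, zero_add]

theorem rr_eq (hx : x < 23 * N + 4) : rr N (ee N j + x) = x := by
  unfold rr ee
  have h : N + j * (23 * N + 4) + x - N = x + j * (23 * N + 4) := by omega
  rw [h, Nat.add_mul_mod_self_right, Nat.mod_eq_of_lt hx]

/-! ### Initial blocks -/

theorem kind_ini (hb : b < N) : kind N b = 23 := by
  unfold kind
  rw [if_pos hb]

theorem wire_ini (hb : b < N) : wire N b = N - 1 - b := by
  unfold wire
  rw [if_pos hb]

/-! ### Start blocks -/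

theorem kind_st (hk : k < 2) : kind N (ee N j + k) = 24 + k := by
  unfold kind
  rw [if_neg (by have := le_ee (N := N) (j := j); omega), rr_eq (by omega), if_pos hk]

theorem ph_st (hk : k < 2) : ph N (ee N j + k) = j := ph_eq (by omega)

/-! ### Cells -/

theorem kind_cell (hw : w < N) (hk : k < 19) : kind N (cell N j w k) = k := by
  rw [cell_eq]
  unfold kind
  rw [if_neg (by have := le_ee (N := N) (j := j); omega), rr_eq (by omega),
    if_neg (by omega), if_pos (by omega)]
  omega

theorem wire_cell (hw : w < N) (hk : k < 19) : wire N (cell N j w k) = w := by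
  rw [cell_eq]
  unfold wire
  rw [if_neg (by have := le_ee (N := N) (j := j); omega), rr_eq (by omega), if_pos (by omega)]
  omega

theorem ph_cell (hw : w < N) (hk : k < 19) : ph N (cell N j w k) = j := by
  rw [cell_eq]
  exact ph_eq (by omega)

/-! ### End blocks -/

theorem kind_en (hk : k < 2) : kind N (ee N j + (2 + 19 * N + k)) = 26 + k := by
  unfold kind
  rw [if_neg (by have := le_ee (N := N) (j := j); omega), rr_eq (by omega),
    if_neg (by omega), if_neg (by omega), if_pos (by omega)]
  omega

theorem ph_en (hk : k < 2) : ph N (ee N j + (2 + 19 * N + k)) = j := ph_eq (by omega)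

/-! ### Groups -/

theorem kind_grp (hw : w < N) (hk : k < 4) : kind N (grp N j w k) = 19 + k := by
  rw [grp_eq]
  unfold kind
  rw [if_neg (by have := le_ee (N := N) (j := j); omega), rr_eq (by omega),
    if_neg (by omega), if_neg (by omega), if_neg (by omega)]
  omega

theorem wire_grp (hw : w < N) (hk : k < 4) : wire N (grp N j w k) = w := by
  rw [grp_eq]
  unfold wire
  rw [if_neg (by have := le_ee (N := N) (j := j); omega), rr_eq (by omega),
    if_neg (by omega)]
  omega

theorem ph_grp (hw : w < N) (hk : k < 4) : ph N (grp N j w k) = j := by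
  rw [grp_eq]
  exact ph_eq (by omega)

/-! ### Case distinction -/

theorem block_cases (hb : b < N + m * (23 * N + 4)) :
    b < N ∨ ∃ j < m, (∃ k < 2, b = ee N j + k) ∨ (∃ w < N, ∃ k < 19, b = cell N j w k) ∨
      (∃ k < 2, b = ee N j + (2 + 19 * N + k)) ∨ (∃ w < N, ∃ k < 4, b = grp N j w k) := by
  rcases Nat.lt_or_ge b N with h | h
  · exact Or.inl h
  right
  have h1 := Nat.div_add_mod (b - N) (23 * N + 4)
  have h2 : (b - N) % (23 * N + 4) < 23 * N + 4 := Nat.mod_lt _ (by omega)
  have h3 : (b - N) / (23 * N + 4) < m := by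
    rw [Nat.div_lt_iff_lt_mul (by omega)]
    omega
  set j := (b - N) / (23 * N + 4) with hj
  set x := (b - N) % (23 * N + 4) with hx
  have h4 : b = ee N j + x := by
    unfold ee
    rw [mul_comm] at h1
    omega
  refine ⟨j, h3, ?_⟩
  rcases Nat.lt_or_ge x 2 with hx2 | hx2
  · exact Or.inl ⟨x, hx2, h4⟩
  rcases Nat.lt_or_ge x (2 + 19 * N) with hx3 | hx3
  · right; left
    refine ⟨(x - 2) / 19, by omega, (x - 2) % 19, by omega, ?_⟩
    rw [cell_eq]
    omega
  rcases Nat.lt_or_ge x (4 + 19 * N) with hx4 | hx4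
  · right; right; left
    exact ⟨x - (2 + 19 * N), by omega, by omega⟩
  · right; right; right
    refine ⟨N - 1 - (x - (4 + 19 * N)) / 4, by omega, (x - (4 + 19 * N)) % 4, by omega, ?_⟩
    rw [grp_eq]
    omega

end Pool.Agent.Helper69.TwoLen
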