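import Pool.Agent.Helper69.TwoLen.Kinds

/-!
# Block TL-B1: the list of all unit arcs; `u_lt`

Use `block_cases` (Kinds.lean) and the lemmas `kind_cell`, `wire_cell`, `ph_cell`, ... to evaluate `u0`,
`u1` (Defs.lean) on each kind of block (`interval_cases k`, `simp [u0, kind_cell ...]`, `omega`); note
`cell N j w k + d = cell N j w (k + d)`. If no arc starts at `b` the value is `0`, so
`b < u i b` is false.
-/

set_option autoImplicit false

namespace Pool.Agent.Helper69.TwoLen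

variable {N m : ℕ} {lit : ℕ → ℕ → Prop}

/-- The unit arcs of a cell. -/
def cellArc (k k' : ℕ) : Prop :=
  (k = 0 ∧ k' = 4) ∨ (k = 0 ∧ k' = 5) ∨ (k = 1 ∧ k' = 2) ∨ (k = 3 ∧ k' = 4) ∨ (k = 6 ∧ k' = 16) ∨
    (k = 6 ∧ k' = 17) ∨ (k = 7 ∧ k' = 13) ∨ (k = 7 ∧ k' = 16) ∨ (k = 8 ∧ k' = 13) ∨
    (k = 9 ∧ k' = 10) ∨ (k = 11 ∧ k' = 12) ∨ (k = 14 ∧ k' = 15)

/-- All unit arcs `(b, c)`. -/
def Arc (N m b c : ℕ) : Prop :=
  (∃ j < m, ∃ w < N, ∃ k k', cellArc k k' ∧ b = cell N j w k ∧ c = cell N j w k') ∨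
  (∃ j < m, ∃ w < N, ∃ k k', ((k = 0 ∧ k' = 3) ∨ (k = 1 ∧ k' = 2)) ∧ b = grp N j w k ∧
    c = grp N j w k') ∨
  (∃ w < N, ∃ k, (k = 5 ∨ k = 18) ∧ b = N - 1 - w ∧ c = cell N 0 w k) ∨
  (∃ j, j + 1 < m ∧ ∃ w < N, ∃ k, (k = 5 ∨ k = 18) ∧ b = grp N j w 3 ∧ c = cell N (j + 1) w k) ∨
  (∃ j < m, b = ee N j ∧ c = ee N j + 1) ∨
  (∃ j < m, b = ee N j + (2 + 19 * N) ∧ c = ee N j + (2 + 19 * N) + 1)

private theorem cell_add56 {j w k : ℕ} (d : ℕ) : cell N j w k + d = cell N j w (k + d) := by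
  unfold cell
  ring

private theorem grp_add56 {j w k : ℕ} (d : ℕ) : grp N j w k + d = grp N j w (k + d) := by
  unfold grp
  ring

private theorem arc_cell56 {j w k k' : ℕ} (hj : j < m) (hw : w < N) (h : cellArc k k') :
    Arc N m (cell N j w k) (cell N j w k') :=
  Or.inl ⟨j, hj, w, hw, k, k', h, rfl, rfl⟩

private theorem u0_cell56 {j w k : ℕ} (hj : j < m) (hw : w < N) (hk : k < 19)
    (h : cell N j w k < u0 N m (cell N j w k)) :
    Arc N m (cell N j w k) (u0 N m (cell N j w k)) := by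
  have hkd : kind N (cell N j w k) = k := kind_cell hw hk
  unfold u0 at h ⊢
  rw [hkd] at h ⊢
  interval_cases k <;> simp at h ⊢ <;>
    (rw [cell_add56]; exact arc_cell56 hj hw (by simp [cellArc]))

private theorem u1_cell56 {j w k : ℕ} (hj : j < m) (hw : w < N) (hk : k < 19)
    (h : cell N j w k < u1 N m lit (cell N j w k)) :
    Arc N m (cell N j w k) (u1 N m lit (cell N j w k)) := by
  have hkd : kind N (cell N j w k) = k := kind_cell hw hk
  unfold u1 at h ⊢
  rw [hkd] at h ⊢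
  interval_cases k
  · by_cases hl : lit (wire N (cell N j w 0)) (ph N (cell N j w 0))
    · simp [hl] at h
    · simp only [hl, not_false_eq_true, and_self, if_true]
      rw [cell_add56]
      exact arc_cell56 hj hw (by simp [cellArc])
  all_goals simp at h ⊢
  all_goals (rw [cell_add56]; exact arc_cell56 hj hw (by simp [cellArc]))

private theorem u0_grp56 {j w k : ℕ} (hj : j < m) (hw : w < N) (hk : k < 4)
    (h : grp N j w k < u0 N m (grp N j w k)) :
    Arc N m (grp N j w k) (u0 N m (grp N j w k)) := by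
  have hkd : kind N (grp N j w k) = 19 + k := kind_grp hw hk
  have hph : ph N (grp N j w k) = j := ph_grp hw hk
  have hwi : wire N (grp N j w k) = w := wire_grp hw hk
  unfold u0 at h ⊢
  rw [hkd, hph, hwi] at h ⊢
  interval_cases k
  · simp at h ⊢
    rw [grp_add56]
    exact Or.inr (Or.inl ⟨j, hj, w, hw, 0, 3, Or.inl ⟨rfl, rfl⟩, rfl, rfl⟩)
  · simp at h ⊢
    rw [grp_add56]
    exact Or.inr (Or.inl ⟨j, hj, w, hw, 1, 2, Or.inr ⟨rfl, rfl⟩, rfl, rfl⟩)
  · simp at h
  · by_cases hm : j + 1 < m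
    · simp [hm]
      exact Or.inr (Or.inr (Or.inr (Or.inl ⟨j, hm, w, hw, 5, Or.inl rfl, rfl, rfl⟩)))
    · simp [hm] at h

private theorem u1_grp56 {j w k : ℕ} (hj : j < m) (hw : w < N) (hk : k < 4)
    (h : grp N j w k < u1 N m lit (grp N j w k)) :
    Arc N m (grp N j w k) (u1 N m lit (grp N j w k)) := by
  have hkd : kind N (grp N j w k) = 19 + k := kind_grp hw hk
  have hph : ph N (grp N j w k) = j := ph_grp hw hk
  have hwi : wire N (grp N j w k) = w := wire_grp hw hk
  unfold u1 at h ⊢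
  rw [hkd, hph, hwi] at h ⊢
  interval_cases k
  · simp at h
  · simp at h
  · simp at h
  · by_cases hm : j + 1 < m
    · simp [hm]
      exact Or.inr (Or.inr (Or.inr (Or.inl ⟨j, hm, w, hw, 18, Or.inr rfl, rfl, rfl⟩)))
    · simp [hm] at h

theorem arc_cases {i b : ℕ} (hi : i < 2) (hb : b < N + m * (23 * N + 4))
    (h : b < (prog N m lit).u i b) : Arc N m b ((prog N m lit).u i b) := by
  have hu0 : (prog N m lit).u 0 b = u0 N m b := by simp [prog]
  have hu1 : (prog N m lit).u 1 b = u1 N m lit b := by simp [prog]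
  rcases block_cases hb with hbN | ⟨j, hj, ⟨k, hk, rfl⟩ | ⟨w, hw, k, hk, rfl⟩ | ⟨k, hk, rfl⟩ |
    ⟨w, hw, k, hk, rfl⟩⟩
  · have hkd : kind N b = 23 := kind_ini hbN
    have hwi : wire N b = N - 1 - b := wire_ini hbN
    have e0 : u0 N m b = cell N 0 (N - 1 - b) 5 := by simp [u0, hkd, hwi]
    have e1 : u1 N m lit b = cell N 0 (N - 1 - b) 18 := by simp [u1, hkd, hwi]
    interval_cases i
    · rw [hu0, e0]
      exact Or.inr (Or.inr (Or.inl ⟨N - 1 - b, by omega, 5, Or.inl rfl, by omega, rfl⟩))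
    · rw [hu1, e1]
      exact Or.inr (Or.inr (Or.inl ⟨N - 1 - b, by omega, 18, Or.inr rfl, by omega, rfl⟩))
  · have hkd : kind N (ee N j + k) = 24 + k := kind_st hk
    interval_cases i
    · rw [hu0] at h ⊢
      unfold u0 at h ⊢
      rw [hkd] at h ⊢
      interval_cases k
      · simp at h ⊢
        exact Or.inr (Or.inr (Or.inr (Or.inr (Or.inl ⟨j, hj, rfl, rfl⟩))))
      · simp at h
    · rw [hu1] at h
      unfold u1 at h
      rw [hkd] at h
      interval_cases k <;> simp at h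
  · interval_cases i
    · rw [hu0] at h ⊢
      exact u0_cell56 hj hw hk h
    · rw [hu1] at h ⊢
      exact u1_cell56 hj hw hk h
  · have hkd : kind N (ee N j + (2 + 19 * N + k)) = 26 + k := kind_en hk
    interval_cases i
    · rw [hu0] at h ⊢
      unfold u0 at h ⊢
      rw [hkd] at h ⊢
      interval_cases k
      · simp at h ⊢
        exact Or.inr (Or.inr (Or.inr (Or.inr (Or.inr ⟨j, hj, rfl, rfl⟩))))
      · simp at h
    · rw [hu1] at h
      unfold u1 at h
      rw [hkd] at h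
      interval_cases k <;> simp at h
  · interval_cases i
    · rw [hu0] at h ⊢
      exact u0_grp56 hj hw hk h
    · rw [hu1] at h ⊢
      exact u1_grp56 hj hw hk h

private theorem cell_lt56 {j w k : ℕ} (hj : j < m) (hw : w < N) (hk : k < 19) :
    cell N j w k < N + m * (23 * N + 4) := by
  have h1 := ee_mono (N := N) hj
  rw [cell_eq]
  have h2 : N + m * (23 * N + 4) = ee N m := rfl
  omega

private theorem grp_lt56 {j w k : ℕ} (hj : j < m) (hw : w < N) (hk : k < 4) :
    grp N j w k < N + m * (23 * N + 4) := by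
  have h1 := ee_mono (N := N) hj
  rw [grp_eq]
  have h2 : N + m * (23 * N + 4) = ee N m := rfl
  omega

theorem prog_u_lt (hN : 0 < N) (hm : 0 < m) {i b : ℕ} (hi : i < 2)
    (hb : b < N + m * (23 * N + 4)) : (prog N m lit).u i b < N + m * (23 * N + 4) := by
  rcases Nat.lt_or_ge b ((prog N m lit).u i b) with h | h
  · have hA := arc_cases hi hb h
    generalize (prog N m lit).u i b = c at hA
    rcases hA with ⟨j, hj, w, hw, k, k', hkk, -, rfl⟩ | ⟨j, hj, w, hw, k, k', hkk, -, rfl⟩ |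
      ⟨w, hw, k, hk, -, rfl⟩ | ⟨j, hj, w, hw, k, hk, -, rfl⟩ | ⟨j, hj, -, rfl⟩ | ⟨j, hj, -, rfl⟩
    · refine cell_lt56 hj hw ?_
      unfold cellArc at hkk
      omega
    · exact grp_lt56 hj hw (by omega)
    · exact cell_lt56 hm hw (by omega)
    · exact cell_lt56 hj hw (by omega)
    · have h1 := ee_mono (N := N) hj
      have h2 : N + m * (23 * N + 4) = ee N m := rfl
      omega
    · have h1 := ee_mono (N := N) hj
      have h2 : N + m * (23 * N + 4) = ee N m := rfl
      omega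
  · omega

end Pool.Agent.Helper69.TwoLen
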