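import Pool.Agent.Helper69.TwoLen.PB1

/-!
# Block TL-B2: the unit arcs do not cross

By cases on the two arcs (`6 × 6` cases; within a cell: all pairs of `cellArc`). Use `cell_eq`, `grp_eq`
and compare the phases: for `j < j'`: `ee N j + (23 N + 4) ≤ ee N j'` (`ee_mono`), and
`ee N (j+1) = ee N j + (23 N + 4)` (`ee_succ`), `ee N 0 = N`; the rest is `omega`. E.g. arc `1` =
`(grp N j w 3, cell N (j+1) w k)`, arc 2 of the same form with `(j', w', k')` and `a < b < c`: then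
`j' = j`, `w' < w` (the groups are in reverse order), so `d < c`; an arc of a cell `(j', w')` with
`a < b < c`: `j' = j + 1`, `w' ≤ w`, if `w' < w` then `d < c`; if `w' = w` then `b = cell .. k₁` with
`k₁ < k` and all arcs of a cell which start before `k = 5` end at `≤ 5`, all end before `18`.
-/

set_option autoImplicit false

namespace Pool.Agent.Helper69.TwoLen

variable {N m : ℕ} {lit : ℕ → ℕ → Prop}

private def Loc42 (N x x' : ℕ) : Prop :=
  (∃ w < N, ∃ k k', cellArc k k' ∧ x = 2 + 19 * w + k ∧ x' = 2 + 19 * w + k') ∨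
  (∃ w < N, ∃ k k', ((k = 0 ∧ k' = 3) ∨ (k = 1 ∧ k' = 2)) ∧ x = 4 + 19 * N + 4 * (N - 1 - w) + k ∧
    x' = 4 + 19 * N + 4 * (N - 1 - w) + k') ∨
  (x = 0 ∧ x' = 1) ∨ (x = 2 + 19 * N ∧ x' = 2 + 19 * N + 1)

private theorem cellArc_lt42 {k k' : ℕ} (h : cellArc k k') : k < k' ∧ k' < 19 := by
  unfold cellArc at h
  omega

private theorem cellArc_nc42 {k k' l l' : ℕ} (h : cellArc k k') (h2 : cellArc l l') (h3 : k < l)
    (h4 : l < k') (h5 : k' < l') : False := by
  unfold cellArc at h h2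
  omega

private theorem cellArc_in42 {k k' l : ℕ} (h : cellArc k k') (h2 : l = 5 ∨ l = 18) (h3 : k < l)
    (h4 : l < k') : False := by
  unfold cellArc at h
  omega

private theorem loc_lt42 {x x' : ℕ} (h : Loc42 N x x') : x < x' ∧ x' < 23 * N + 4 := by
  rcases h with ⟨w, hw, k, k', hk, rfl, rfl⟩ | ⟨w, hw, k, k', hk, rfl, rfl⟩ | ⟨rfl, rfl⟩ | ⟨rfl, rfl⟩
  · have := cellArc_lt42 hk
    omega
  · omega
  · omega
  · omega

private theorem loc_nc42 {a b c d : ℕ} (h1 : Loc42 N a c) (h2 : Loc42 N b d) (hab : a < b) (hbc : b < c)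
    (hcd : c < d) : False := by
  rcases h1 with ⟨w, hw, k, k', hk, rfl, rfl⟩ | ⟨w, hw, k, k', hk, rfl, rfl⟩ | ⟨rfl, rfl⟩ | ⟨rfl, rfl⟩
  · have hk1 := cellArc_lt42 hk
    rcases h2 with ⟨v, hv, l, l', hl, rfl, rfl⟩ | ⟨v, hv, l, l', hl, rfl, rfl⟩ | ⟨rfl, rfl⟩ | ⟨rfl, rfl⟩
    · have hl1 := cellArc_lt42 hl
      have hwv : w = v := by omega
      subst hwv
      exact cellArc_nc42 hk hl (by omega) (by omega) (by omega)
    · omega
    · omega
    · omega
  · rcases h2 with ⟨v, hv, l, l', hl, rfl, rfl⟩ | ⟨v, hv, l, l', hl, rfl, rfl⟩ | ⟨rfl, rfl⟩ | ⟨rfl, rfl⟩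
    · have hl1 := cellArc_lt42 hl
      omega
    · omega
    · omega
    · omega
  · omega
  · omega

private theorem loc_in42 {b d w k : ℕ} (h2 : Loc42 N b d) (hw : w < N) (hk : k = 5 ∨ k = 18)
    (hbc : b < 2 + 19 * w + k) (hcd : 2 + 19 * w + k < d) : False := by
  rcases h2 with ⟨v, hv, l, l', hl, rfl, rfl⟩ | ⟨v, hv, l, l', hl, rfl, rfl⟩ | ⟨rfl, rfl⟩ | ⟨rfl, rfl⟩
  · have hl1 := cellArc_lt42 hl
    have hwv : w = v := by omega
    subst hwv
    exact cellArc_in42 hl hk (by omega) (by omega)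
  · omega
  · omega
  · omega

private theorem loc_out42 {a c w : ℕ} (h1 : Loc42 N a c) (hw : w < N)
    (hab : a < 4 + 19 * N + 4 * (N - 1 - w) + 3) (hbc : 4 + 19 * N + 4 * (N - 1 - w) + 3 < c) : False := by
  rcases h1 with ⟨v, hv, l, l', hl, rfl, rfl⟩ | ⟨v, hv, l, l', hl, rfl, rfl⟩ | ⟨rfl, rfl⟩ | ⟨rfl, rfl⟩
  · have hl1 := cellArc_lt42 hl
    omega
  · omega
  · omega
  · omega

private theorem arc_class42 {a c : ℕ} (h : Arc N m a c) :
    (∃ j x x', Loc42 N x x' ∧ a = ee N j + x ∧ c = ee N j + x') ∨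
    (∃ j w k, w < N ∧ (k = 5 ∨ k = 18) ∧ a = ee N j + (4 + 19 * N + 4 * (N - 1 - w) + 3) ∧
      c = ee N (j + 1) + (2 + 19 * w + k)) ∨
    (∃ w k, w < N ∧ (k = 5 ∨ k = 18) ∧ a = N - 1 - w ∧ c = ee N 0 + (2 + 19 * w + k)) := by
  rcases h with ⟨j, hj, w, hw, k, k', hk, rfl, rfl⟩ | ⟨j, hj, w, hw, k, k', hk, rfl, rfl⟩ |
    ⟨w, hw, k, hk, rfl, rfl⟩ | ⟨j, hj, w, hw, k, hk, rfl, rfl⟩ | ⟨j, hj, rfl, rfl⟩ | ⟨j, hj, rfl, rfl⟩
  · exact Or.inl ⟨j, _, _, Or.inl ⟨w, hw, k, k', hk, rfl, rfl⟩, cell_eq, cell_eq⟩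
  · exact Or.inl ⟨j, _, _, Or.inr (Or.inl ⟨w, hw, k, k', hk, rfl, rfl⟩), grp_eq, grp_eq⟩
  · exact Or.inr (Or.inr ⟨w, k, hw, hk, rfl, cell_eq⟩)
  · exact Or.inr (Or.inl ⟨j, w, k, hw, hk, grp_eq, cell_eq⟩)
  · exact Or.inl ⟨j, 0, 1, Or.inr (Or.inr (Or.inl ⟨rfl, rfl⟩)), rfl, rfl⟩
  · exact Or.inl ⟨j, 2 + 19 * N, 2 + 19 * N + 1, Or.inr (Or.inr (Or.inr ⟨rfl, rfl⟩)), rfl, rfl⟩

theorem arc_nc {a b c d : ℕ} (h1 : Arc N m a c) (h2 : Arc N m b d) (hab : a < b) (hbc : b < c)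
    (hcd : c < d) : False := by
  rcases arc_class42 h1 with ⟨j, x, x', hL, rfl, rfl⟩ | ⟨j, w, k, hw, hk, rfl, rfl⟩ | ⟨w, k, hw, hk, rfl, rfl⟩
  · have hx := loc_lt42 hL
    rcases arc_class42 h2 with ⟨i, y, y', hM, rfl, rfl⟩ | ⟨i, v, l, hv, hl, rfl, rfl⟩ | ⟨v, l, hv, hl, rfl, rfl⟩
    · have hy := loc_lt42 hM
      rcases Nat.lt_trichotomy i j with hij | hij | hij
      · have := ee_mono (N := N) hij
        omega
      · subst hij
        exact loc_nc42 hL hM (by omega) (by omega) (by omega)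
      · have := ee_mono (N := N) hij
        omega
    · rcases Nat.lt_trichotomy i j with hij | hij | hij
      · have := ee_mono (N := N) hij
        omega
      · subst hij
        exact loc_out42 hL hv (by omega) (by omega)
      · have := ee_mono (N := N) hij
        omega
    · have := le_ee (N := N) (j := j)
      omega
  · have hs := ee_succ (N := N) (j := j)
    rcases arc_class42 h2 with ⟨i, y, y', hM, rfl, rfl⟩ | ⟨i, v, l, hv, hl, rfl, rfl⟩ | ⟨v, l, hv, hl, rfl, rfl⟩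
    · have hy := loc_lt42 hM
      rcases Nat.lt_trichotomy i (j + 1) with hij | hij | hij
      · have := ee_mono (N := N) hij
        omega
      · subst hij
        exact loc_in42 hM hw hk (by omega) (by omega)
      · have := ee_mono (N := N) hij
        omega
    · have hs2 := ee_succ (N := N) (j := i)
      rcases Nat.lt_trichotomy i j with hij | hij | hij
      · have := ee_mono (N := N) hij
        omega
      · subst hij
        omega
      · rcases Nat.lt_trichotomy i (j + 1) with hij2 | hij2 | hij2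
        · omega
        · subst hij2
          omega
        · have := ee_mono (N := N) hij2
          omega
    · have := le_ee (N := N) (j := j)
      omega
  · have h0 := ee_zero (N := N)
    rcases arc_class42 h2 with ⟨i, y, y', hM, rfl, rfl⟩ | ⟨i, v, l, hv, hl, rfl, rfl⟩ | ⟨v, l, hv, hl, rfl, rfl⟩
    · have hy := loc_lt42 hM
      rcases Nat.eq_zero_or_pos i with hi | hi
      · subst hi
        exact loc_in42 hM hw hk (by omega) (by omega)
      · have := ee_mono (N := N) hi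
        omega
    · rcases Nat.eq_zero_or_pos i with hi | hi
      · subst hi
        omega
      · have := ee_mono (N := N) hi
        omega
    · omega

end Pool.Agent.Helper69.TwoLen
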