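import Pool.Agent.Helper69.TwoLen.Kinds

/-!
# Block TL-B4: `J`-arcs, types and links

`block_cases` and evaluation of `tp`, `jp`, `lk` (Defs.lean). The pairs (`b`, partner), `b <` partner:
(`ee N j` (kind 24), `cell N j 0 2`), (`cell N j w 14`, `cell N j (w+1) 2`) for `w + 1 < N`,
(`cell N j (N-1) 14`, `ee N j + (2 + 19 N) + 1` (kind 27)), (`cell N j w 3`, `cell N j w 10`),
(`cell N j w 11`, `grp N j w 2`).
-/

set_option autoImplicit false

namespace Pool.Agent.Helper69.TwoLen

variable {N m : ℕ} {lit : ℕ → ℕ → Prop}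

/-- All `J`-arcs. -/
def JArc (N m b c : ℕ) : Prop :=
  ∃ j < m, (b = ee N j ∧ c = cell N j 0 2) ∨
    (∃ w, w + 1 < N ∧ b = cell N j w 14 ∧ c = cell N j (w + 1) 2) ∨
    (b = cell N j (N - 1) 14 ∧ c = ee N j + (2 + 19 * N) + 1) ∨
    (∃ w < N, b = cell N j w 3 ∧ c = cell N j w 10) ∨
    (∃ w < N, b = cell N j w 11 ∧ c = grp N j w 2)

private theorem ty_def (b : ℕ) : (prog N m lit).ty b = tp N b := rfl

private theorem J_def (b : ℕ) : (prog N m lit).J b = jp N b := rfl

private theorem nx_def (b : ℕ) : (prog N m lit).nx b = lk N b := rfl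

private theorem jp2 {b : ℕ} (h : kind N b = 2) : jp N b = if wire N b = 0 then b - 4 else b - 7 := by
  simp [jp, h]

private theorem jp3 {b : ℕ} (h : kind N b = 3) : jp N b = b + 7 := by
  simp [jp, h]

private theorem jp10 {b : ℕ} (h : kind N b = 10) : jp N b = b - 7 := by
  simp [jp, h]

private theorem jp11 {b : ℕ} (h : kind N b = 11) : jp N b = grp N (ph N b) (wire N b) 2 := by
  simp [jp, h]

private theorem jp14 {b : ℕ} (h : kind N b = 14) : jp N b = if wire N b + 1 < N then b + 7 else b + 6 := by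
  simp [jp, h]

private theorem jp21 {b : ℕ} (h : kind N b = 21) : jp N b = cell N (ph N b) (wire N b) 11 := by
  simp [jp, h]

private theorem jp24 {b : ℕ} (h : kind N b = 24) : jp N b = b + 4 := by
  simp [jp, h]

private theorem jp27 {b : ℕ} (h : kind N b = 27) : jp N b = b - 6 := by
  simp [jp, h]

theorem jArc_cases (hN : 0 < N) {b : ℕ} (hb : b < N + m * (23 * N + 4))
    (h : (prog N m lit).ty b = 1) :
    JArc N m b ((prog N m lit).J b) ∨ JArc N m ((prog N m lit).J b) b := by
  rw [ty_def] at h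
  rw [J_def]
  rcases block_cases hb with hb' | ⟨j, hj, ⟨k, hk, rfl⟩ | ⟨w, hw, k, hk, rfl⟩ | ⟨k, hk, rfl⟩ |
    ⟨w, hw, k, hk, rfl⟩⟩
  · simp [tp, kind_ini hb'] at h
  · have h1 := kind_st (N := N) (j := j) hk
    interval_cases k
    · left
      refine ⟨j, hj, Or.inl ⟨rfl, ?_⟩⟩
      rw [jp24 h1, cell_eq]
    · simp [tp, h1] at h
  · have h1 := kind_cell (N := N) (j := j) hw hk
    have h2 := wire_cell (N := N) (j := j) hw hk
    have h3 := ph_cell (N := N) (j := j) hw hk
    interval_cases k <;> simp [tp, h1] at h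
    · -- 2
      right
      rw [jp2 h1, h2]
      rcases Nat.eq_zero_or_pos w with hw0 | hw0
      · subst hw0
        refine ⟨j, hj, Or.inl ⟨?_, rfl⟩⟩
        rw [if_pos rfl, cell_eq]
        rfl
      · refine ⟨j, hj, Or.inr (Or.inl ⟨w - 1, by omega, ?_, ?_⟩)⟩
        · rw [if_neg hw0.ne', cell_eq, cell_eq]
          omega
        · rw [Nat.sub_add_cancel hw0]
    · -- 3
      left
      refine ⟨j, hj, Or.inr (Or.inr (Or.inr (Or.inl ⟨w, hw, rfl, ?_⟩)))⟩
      rw [jp3 h1, cell_eq, cell_eq]
      omega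
    · -- 10
      right
      refine ⟨j, hj, Or.inr (Or.inr (Or.inr (Or.inl ⟨w, hw, ?_, rfl⟩)))⟩
      rw [jp10 h1, cell_eq, cell_eq]
      omega
    · -- 11
      left
      refine ⟨j, hj, Or.inr (Or.inr (Or.inr (Or.inr ⟨w, hw, rfl, ?_⟩)))⟩
      rw [jp11 h1, h2, h3]
    · -- 14
      left
      rw [jp14 h1, h2]
      by_cases hw1 : w + 1 < N
      · refine ⟨j, hj, Or.inr (Or.inl ⟨w, hw1, rfl, ?_⟩)⟩
        rw [if_pos hw1, cell_eq, cell_eq]
        omega
      · refine ⟨j, hj, Or.inr (Or.inr (Or.inl ⟨?_, ?_⟩))⟩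
        · have : w = N - 1 := by omega
          rw [this]
        · rw [if_neg hw1, cell_eq]
          omega
  · have h1 := kind_en (N := N) (j := j) hk
    interval_cases k
    · simp only [add_zero] at h1
      simp [tp, h1] at h
    · right
      refine ⟨j, hj, Or.inr (Or.inr (Or.inl ⟨?_, by omega⟩))⟩
      rw [jp27 h1, cell_eq]
      omega
  · have h1 := kind_grp (N := N) (j := j) hw hk
    have h2 := wire_grp (N := N) (j := j) hw hk
    have h3 := ph_grp (N := N) (j := j) hw hk
    interval_cases k <;> simp [tp, h1] at h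
    right
    refine ⟨j, hj, Or.inr (Or.inr (Or.inr (Or.inr ⟨w, hw, ?_, rfl⟩)))⟩
    rw [jp21 h1, h2, h3]

theorem jArc_spec (hN : 0 < N) {b c : ℕ} (h : JArc N m b c) : b < c ∧ c < N + m * (23 * N + 4) ∧
    (prog N m lit).ty b = 1 ∧ (prog N m lit).ty c = 1 ∧ (prog N m lit).J b = c ∧
    (prog N m lit).J c = b := by
  obtain ⟨j, hj, h⟩ := h
  have hm := ee_mono (N := N) hj
  rw [B_eq]
  simp only [ty_def, J_def]
  rcases h with ⟨rfl, rfl⟩ | ⟨w, hw, rfl, rfl⟩ | ⟨rfl, rfl⟩ | ⟨w, hw, rfl, rfl⟩ | ⟨w, hw, rfl, rfl⟩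
  · have h1 := kind_st (N := N) (j := j) (k := 0) (by omega)
    have h2 := kind_cell (N := N) (j := j) (w := 0) (k := 2) hN (by omega)
    have h3 := wire_cell (N := N) (j := j) (w := 0) (k := 2) hN (by omega)
    rw [add_zero] at h1
    refine ⟨by rw [cell_eq]; omega, by rw [cell_eq]; omega, by simp [tp, h1], by simp [tp, h2], ?_, ?_⟩
    · rw [jp24 h1, cell_eq]
    · rw [jp2 h2, h3, if_pos rfl, cell_eq]
      rfl
  · have h1 := kind_cell (N := N) (j := j) (w := w) (k := 14) (by omega) (by omega)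
    have h1' := wire_cell (N := N) (j := j) (w := w) (k := 14) (by omega) (by omega)
    have h2 := kind_cell (N := N) (j := j) (w := w + 1) (k := 2) hw (by omega)
    have h3 := wire_cell (N := N) (j := j) (w := w + 1) (k := 2) hw (by omega)
    refine ⟨by rw [cell_eq, cell_eq]; omega, by rw [cell_eq]; omega, by simp [tp, h1], by simp [tp, h2], ?_, ?_⟩
    · rw [jp14 h1, h1', if_pos hw, cell_eq, cell_eq]
      omega
    · rw [jp2 h2, h3, if_neg (by omega), cell_eq, cell_eq]
      omega
  · have h1 := kind_cell (N := N) (j := j) (w := N - 1) (k := 14) (by omega) (by omega)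
    have h1' := wire_cell (N := N) (j := j) (w := N - 1) (k := 14) (by omega) (by omega)
    have h2 := kind_en (N := N) (j := j) (k := 1) (by omega)
    rw [← add_assoc] at h2
    refine ⟨by rw [cell_eq]; omega, by omega, by simp [tp, h1], by simp [tp, h2], ?_, ?_⟩
    · rw [jp14 h1, h1', if_neg (by omega), cell_eq]
      omega
    · rw [jp27 h2, cell_eq]
      omega
  · have h1 := kind_cell (N := N) (j := j) (w := w) (k := 3) (by omega) (by omega)
    have h2 := kind_cell (N := N) (j := j) (w := w) (k := 10) hw (by omega)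
    refine ⟨by rw [cell_eq, cell_eq]; omega, by rw [cell_eq]; omega, by simp [tp, h1], by simp [tp, h2], ?_, ?_⟩
    · rw [jp3 h1, cell_eq, cell_eq]
      omega
    · rw [jp10 h2, cell_eq, cell_eq]
      omega
  · have h1 := kind_cell (N := N) (j := j) (w := w) (k := 11) (by omega) (by omega)
    have h1' := wire_cell (N := N) (j := j) (w := w) (k := 11) (by omega) (by omega)
    have h1'' := ph_cell (N := N) (j := j) (w := w) (k := 11) (by omega) (by omega)
    have h2 := kind_grp (N := N) (j := j) (w := w) (k := 2) hw (by omega)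
    have h2' := wire_grp (N := N) (j := j) (w := w) (k := 2) hw (by omega)
    have h2'' := ph_grp (N := N) (j := j) (w := w) (k := 2) hw (by omega)
    refine ⟨by rw [cell_eq, grp_eq]; omega, by rw [grp_eq]; omega, by simp [tp, h1], by simp [tp, h2], ?_, ?_⟩
    · rw [jp11 h1, h1', h1'']
    · rw [jp21 h2, h2', h2'']

theorem prog_ty_le (b : ℕ) : (prog N m lit).ty b ≤ 3 := by
  rw [ty_def]
  unfold tp
  split_ifs <;> omega

theorem prog_link {n : ℕ} (hN : N = 2 * n) {b : ℕ} (hb : b < N + m * (23 * N + 4))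
    (h : (prog N m lit).nx b = 1) : b + 1 < N + m * (23 * N + 4) ∧
      2 ≤ (prog N m lit).ty b ∧ 2 ≤ (prog N m lit).ty (b + 1) := by
  rw [nx_def] at h
  simp only [ty_def]
  rcases block_cases hb with hb' | ⟨j, hj, ⟨k, hk, rfl⟩ | ⟨w, hw, k, hk, rfl⟩ | ⟨k, hk, rfl⟩ |
    ⟨w, hw, k, hk, rfl⟩⟩
  · have h1 := kind_ini hb'
    simp [lk, h1] at h
    have hb2 : b + 1 < N := by omega
    have h2 := kind_ini hb2
    refine ⟨by omega, ?_, ?_⟩
    · simp [tp, h1]
    · simp [tp, h2]
  · have h1 := kind_st (N := N) (j := j) hk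
    interval_cases k <;> (try simp only [add_zero] at h1) <;> simp [lk, h1] at h
  · have hm := ee_mono (N := N) hj
    have h1 := kind_cell (N := N) (j := j) hw hk
    have e : cell N j w k + 1 = cell N j w (k + 1) := by rw [cell_eq, cell_eq]; omega
    have hlt : cell N j w k + 1 < N + m * (23 * N + 4) := by rw [B_eq, cell_eq]; omega
    have hk' : k + 1 < 19 := by
      by_contra hcon
      have : k = 18 := by omega
      subst this
      simp [lk, h1] at h
    have h2 := kind_cell (N := N) (j := j) hw hk'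
    refine ⟨hlt, ?_, ?_⟩
    · interval_cases k <;> simp [lk, h1] at h <;> simp [tp, h1]
    · rw [e]
      interval_cases k <;> simp [lk, h1] at h <;> simp [tp, h2]
  · have h1 := kind_en (N := N) (j := j) hk
    interval_cases k <;> (try simp only [add_zero] at h1) <;> simp [lk, h1] at h
  · have hm := ee_mono (N := N) hj
    have h1 := kind_grp (N := N) (j := j) hw hk
    have e : grp N j w k + 1 = grp N j w (k + 1) := by rw [grp_eq, grp_eq]; omega
    have hk' : k + 1 < 4 := by
      by_contra hcon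
      have : k = 3 := by omega
      subst this
      simp [lk, h1] at h
    have hlt : grp N j w k + 1 < N + m * (23 * N + 4) := by
      rw [B_eq, grp_eq]
      omega
    have h2 := kind_grp (N := N) (j := j) hw hk'
    refine ⟨hlt, ?_, ?_⟩
    · interval_cases k <;> simp [lk, h1] at h <;> simp [tp, h1]
    · rw [e]
      interval_cases k <;> simp [lk, h1] at h <;> simp [tp, h2]

end Pool.Agent.Helper69.TwoLen
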